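import Pool.Agent.NUR2.OC
import Pool.Agent.NUP.Trans
import Pool.Agent.NUP.MF.Dens

/-!
# The exact transport of [4.7]

`ψ = G⁻¹ (G + F / s)`: the increasing diffeomorphism of the line with
`s P (ψ x) ψ' x = s P x + F' x`; `ψ - id` and its first four derivatives are `O (M / (s P b))`.
-/

set_option autoImplicit false

open Set Filter Topology NUMF NUOC NUTr

namespace NUDp

noncomputable section

/-! ### the logarithmic derivative of `P` -/

/-- `tanh (8 x / 3)` -/
def ta (x : ℝ) : ℝ := Real.sinh (8 / 3 * x) / Real.cosh (8 / 3 * x)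

/-- `1 / (3 + tanh²)` -/
def ka (x : ℝ) : ℝ := 1 / (3 + ta x ^ 2)

/-- `log P` -/
def ell (x : ℝ) : ℝ := Real.log (P x)

/-- its derivative -/
def ell' (x : ℝ) : ℝ := 8 / 3 * (ta x - 8 * (ta x * ka x))

lemma ta_deriv (x : ℝ) : HasDerivAt ta (8 / 3 * (1 - ta x * ta x)) x := by
  have hc : Real.cosh (8 / 3 * x) ≠ 0 := (Real.cosh_pos _).ne'
  have h0 : HasDerivAt (fun x : ℝ => 8 / 3 * x) (8 / 3) x := by
    simpa using (hasDerivAt_id x).const_mul (8 / 3 : ℝ)
  have h1 := h0.sinh.div h0.cosh hc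
  refine HasDerivAt.congr_deriv h1 ?_
  unfold ta
  have := Real.cosh_sq (8 / 3 * x)
  field_simp
  try nlinarith

lemma ta_le (x : ℝ) : |ta x| ≤ 1 := by
  have hc : 0 < Real.cosh (8 / 3 * x) := Real.cosh_pos _
  have := Real.cosh_sq (8 / 3 * x)
  unfold ta
  rw [abs_div, abs_of_pos hc, div_le_one hc]
  apply abs_le_of_sq_le_sq _ hc.le
  linarith

lemma ta_cont : Continuous ta := continuous_iff_continuousAt.2 fun x => (ta_deriv x).continuousAt

lemma ka_pos (x : ℝ) : 0 < ka x := by unfold ka; positivity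

lemma ka_le (x : ℝ) : |ka x| ≤ 1 := by
  rw [abs_of_pos (ka_pos x)]
  unfold ka
  rw [div_le_one (by positivity)]
  nlinarith [sq_nonneg (ta x)]

lemma ka_deriv (x : ℝ) : HasDerivAt ka (-(2 * (ta x * (8 / 3 * (1 - ta x * ta x)) * (ka x * ka x)))) x := by
  have h1 : HasDerivAt (fun x => 3 + ta x ^ 2) (2 * ta x * (8 / 3 * (1 - ta x * ta x))) x := by
    have := ((ta_deriv x).pow 2).const_add 3
    refine HasDerivAt.congr_deriv this ?_
    simp
  have h2 : (3 + ta x ^ 2) ≠ 0 := by positivity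
  have h3 := (hasDerivAt_const x (1:ℝ)).div h1 h2
  refine HasDerivAt.congr_deriv h3 ?_
  unfold ka
  field_simp
  ring

lemma ta_O (j : ℕ) : ∃ a : ℝ, O j a ta := by
  induction j with
  | zero => exact ⟨1, ta_cont, ta_le⟩
  | succ j ih =>
    obtain ⟨a, ha⟩ := ih
    have h1 : O j (|8 / 3| * (1 + 2 ^ j * (a * a))) fun x => 8 / 3 * (1 - ta x * ta x) :=
      ((O.const j (by simp)).sub (ha.mul ha)).smul (8 / 3)
    refine ⟨max 1 (|8 / 3| * (1 + 2 ^ j * (a * a))), fun x => (ta_le x).trans (le_max_left _ _), _,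
      ta_deriv, h1.mono (le_max_right _ _)⟩

lemma ka_O (j : ℕ) : ∃ a : ℝ, O j a ka := by
  induction j with
  | zero =>
    exact ⟨1, continuous_iff_continuousAt.2 fun x => (ka_deriv x).continuousAt, ka_le⟩
  | succ j ih =>
    obtain ⟨a, ha⟩ := ih
    obtain ⟨t, ht⟩ := ta_O j
    have h1 : O j (|8 / 3| * (1 + 2 ^ j * (t * t))) fun x => 8 / 3 * (1 - ta x * ta x) :=
      ((O.const j (by simp)).sub (ht.mul ht)).smul (8 / 3)
    have h2 := (((ht.mul h1).mul (ha.mul ha)).smul 2).neg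
    exact ⟨max 1 _, fun x => (ka_le x).trans (le_max_left _ _), _, ka_deriv, h2.mono (le_max_right _ _)⟩

lemma ell'_O (j : ℕ) : ∃ a : ℝ, O j a ell' := by
  obtain ⟨a, ha⟩ := ka_O j
  obtain ⟨t, ht⟩ := ta_O j
  exact ⟨_, (ht.sub ((ht.mul ha).smul 8)).smul (8 / 3)⟩

lemma ell_deriv (x : ℝ) : HasDerivAt ell (ell' x) x := by
  have hc : 0 < Real.cosh (8 / 3 * x) := Real.cosh_pos _
  have hd := den_pos x
  have h0 : HasDerivAt (fun x : ℝ => 8 / 3 * x) (8 / 3) x := by
    simpa using (hasDerivAt_id x).const_mul (8 / 3 : ℝ)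
  have h1 : HasDerivAt ch (Real.sinh (8 / 3 * x) * (8 / 3)) x := h0.cosh
  have h2 : HasDerivAt (fun x => 4 * ch x ^ 2 - 1) (4 * (2 * ch x * (Real.sinh (8 / 3 * x) * (8 / 3)))) x := by
    have := ((h1.pow 2).const_mul 4).sub_const 1
    refine HasDerivAt.congr_deriv this ?_
    simp
  have h3 : HasDerivAt P (16 / (√3 * Real.pi) * ((Real.sinh (8 / 3 * x) * (8 / 3) * (4 * ch x ^ 2 - 1) -
      ch x * (4 * (2 * ch x * (Real.sinh (8 / 3 * x) * (8 / 3))))) / (4 * ch x ^ 2 - 1) ^ 2)) x :=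
    (h1.div h2 hd.ne').const_mul (16 / (√3 * Real.pi))
  have h4 := h3.log (P_pos x).ne'
  refine HasDerivAt.congr_deriv h4 ?_
  have hs3 := sq3_pos
  have hpi := Real.pi_pos
  have e1 : (√3 * Real.pi) ≠ 0 := by positivity
  have e2 : 0 < 3 + ta x ^ 2 := by positivity
  have e3 := Real.cosh_sq (8 / 3 * x)
  unfold ell' ka P
  unfold ta at *
  unfold ch at *
  set c := Real.cosh (8 / 3 * x) with hcd
  set S := Real.sinh (8 / 3 * x) with hSd
  have hS : S ^ 2 = c ^ 2 - 1 := by linarith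
  have e4 : 3 + (S / c) ^ 2 = (4 * c ^ 2 - 1) / c ^ 2 := by
    rw [div_pow, hS]
    field_simp
    ring
  rw [e4]
  have hd' : (4 * c ^ 2 - 1) ≠ 0 := hd.ne'
  field_simp
  ring

/-! ### the inverse distribution function -/

/-- the inverse of `G` -/
def Gi (u : ℝ) : ℝ := 3 / 8 * Real.arsinh (√3 / 2 * Real.tan (Real.pi * u))

lemma G_lt (x : ℝ) : G x < 1 / 2 := by
  have hpi := Real.pi_pos
  have := Real.arctan_lt_pi_div_two (2 / √3 * Real.sinh (8 / 3 * x))
  unfold G
  rw [div_mul_eq_mul_div, one_mul, div_lt_iff₀ hpi]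
  linarith

lemma lt_G (x : ℝ) : -(1 / 2) < G x := by
  have := G_lt (-x)
  rw [G_neg] at this
  linarith

lemma G_Gi {u : ℝ} (h1 : -(1 / 2) < u) (h2 : u < 1 / 2) : G (Gi u) = u := by
  have hpi := Real.pi_pos
  have hs3 := sq3_pos
  unfold G Gi
  have e1 : 8 / 3 * (3 / 8 * Real.arsinh (√3 / 2 * Real.tan (Real.pi * u))) =
      Real.arsinh (√3 / 2 * Real.tan (Real.pi * u)) := by ring
  have e2 : 2 / √3 * (√3 / 2 * Real.tan (Real.pi * u)) = Real.tan (Real.pi * u) := by field_simp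
  rw [e1, Real.sinh_arsinh, e2, Real.arctan_tan (by nlinarith) (by nlinarith)]
  field_simp

lemma Gi_G (x : ℝ) : Gi (G x) = x := G_strictMono.injective (G_Gi (lt_G x) (G_lt x))

lemma Gi_cont {u : ℝ} (h1 : -(1 / 2) < u) (h2 : u < 1 / 2) : ContinuousAt Gi u := by
  have hpi := Real.pi_pos
  have hc : Real.cos (Real.pi * u) ≠ 0 := (Real.cos_pos_of_mem_Ioo ⟨by nlinarith, by nlinarith⟩).ne'
  have e1 : ContinuousAt (fun u : ℝ => Real.tan (Real.pi * u)) u :=
    ContinuousAt.comp (f := fun u : ℝ => Real.pi * u) (g := Real.tan) (Real.continuousAt_tan.2 hc)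
      (continuous_const.mul continuous_id).continuousAt
  have e2 : ContinuousAt (fun u : ℝ => √3 / 2 * Real.tan (Real.pi * u)) u := continuousAt_const.mul e1
  have e3 : ContinuousAt (fun u : ℝ => Real.arsinh (√3 / 2 * Real.tan (Real.pi * u))) u :=
    ContinuousAt.comp (g := Real.arsinh) Real.continuous_arsinh.continuousAt e2
  exact continuousAt_const.mul e3

lemma Gi_deriv {u : ℝ} (h1 : -(1 / 2) < u) (h2 : u < 1 / 2) : HasDerivAt Gi (P (Gi u))⁻¹ u := by
  refine HasDerivAt.of_local_left_inverse (Gi_cont h1 h2) (hasDerivAt_G (Gi u)) (P_pos _).ne' ?_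
  filter_upwards [Ioo_mem_nhds h1 h2] with y hy
  exact G_Gi hy.1 hy.2

/-! ### comparison of values of `P` -/

/-- the constant `(3/8) e^{-8/3}` -/
def c1 : ℝ := 3 / 8 * Real.exp (-(8 / 3))

lemma c1_pos : 0 < c1 := by unfold c1; positivity

lemma P_comp {b y : ℝ} (hb : 0 ≤ b) (hy : |y| ≤ b + 1) : c1 * P b ≤ P y := by
  have h1 := P_le b
  have h2 := le_P y
  rw [abs_of_nonneg hb] at h1
  have hs3 := sq3_pos
  have hpi := Real.pi_pos
  refine le_trans ?_ h2
  have h3 : Real.exp (-(8 / 3) * (b + 1)) ≤ Real.exp (-(8 / 3) * |y|) := by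
    apply Real.exp_le_exp.2
    nlinarith
  calc c1 * P b ≤ c1 * (32 / (3 * √3 * Real.pi) * Real.exp (-(8 / 3) * b)) :=
        mul_le_mul_of_nonneg_left h1 c1_pos.le
    _ = 4 / (√3 * Real.pi) * Real.exp (-(8 / 3) * (b + 1)) := by
        have : Real.exp (-(8 / 3) * (b + 1)) = Real.exp (-(8 / 3)) * Real.exp (-(8 / 3) * b) := by
          rw [← Real.exp_add]; congr 1; ring
        rw [this]
        unfold c1
        field_simp
        ring
    _ ≤ _ := mul_le_mul_of_nonneg_left h3 (by positivity)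

lemma G_gap {b x d : ℝ} (hb : 0 ≤ b) (hx : |x| ≤ b) (hd : 0 ≤ d) (hd1 : d ≤ 1) :
    c1 * P b * d ≤ G (x + d) - G x := by
  have hx' := abs_le.1 hx
  have h1 : ∀ y ∈ Icc x (x + d), c1 * P b ≤ P y := by
    intro y hy
    apply P_comp hb
    rw [abs_le]
    constructor <;> linarith [hy.1, hy.2, hx'.1, hx'.2]
  have := Convex.mul_sub_le_image_sub_of_le_deriv (D := Icc x (x + d)) (f := G) (C := c1 * P b)
    (convex_Icc _ _) (fun y _ => (hasDerivAt_G y).continuousAt.continuousWithinAt)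
    (fun y _ => (hasDerivAt_G y).differentiableAt.differentiableWithinAt)
    (fun y hy => by
      rw [(hasDerivAt_G y).deriv]
      exact h1 y (interior_subset hy)) x ⟨le_refl _, by linarith⟩ (x + d) ⟨by linarith, le_refl _⟩ (by linarith)
  rw [add_sub_cancel_left] at this
  exact this

/-! ### the transport -/

/-- the transport of the mass equation -/
def ps (s : ℝ) (F : ℝ → ℝ) (x : ℝ) : ℝ := Gi (G x + F x / s)

/-- hypotheses on `F` -/
structure Hy (j : ℕ) (c s M b : ℝ) (F F' : ℝ → ℝ) : Prop where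
  s0 : 0 < s
  b0 : 0 ≤ b
  der : ∀ x, HasDerivAt F (F' x) x
  bd : ∀ x, |F x| ≤ M
  od : O j M F'
  zero : ∀ x, b ≤ |x| → F x = 0
  sm : M ≤ c * (s * P b)

section

variable {j : ℕ} {c s M b : ℝ} {F F' : ℝ → ℝ}

lemma Hy.M0 (h : Hy j c s M b F F') : 0 ≤ M := (abs_nonneg _).trans (h.bd 0)

lemma Hy.rho (h : Hy j c s M b F F') : 0 < s * P b := mul_pos h.s0 (P_pos b)

lemma Hy.weak {c' : ℝ} (h : Hy j c s M b F F') (hc : c ≤ c') : Hy j c' s M b F F' :=
  ⟨h.s0, h.b0, h.der, h.bd, h.od, h.zero, h.sm.trans (mul_le_mul_of_nonneg_right hc h.rho.le)⟩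

lemma Hy.low (h : Hy (j + 1) c s M b F F') : Hy j c s M b F F' :=
  ⟨h.s0, h.b0, h.der, h.bd, h.od.lower, h.zero, h.sm⟩

lemma Hy.zero' (h : Hy j c s M b F F') {x : ℝ} (hx : b < |x|) : F' x = 0 := by
  have e : F =ᶠ[𝓝 x] fun _ => 0 := by
    filter_upwards [(continuous_abs.tendsto x).eventually (lt_mem_nhds hx)] with y hy
    exact h.zero y (le_of_lt hy)
  exact (h.der x).unique ((hasDerivAt_const x (0:ℝ)).congr_of_eventuallyEq e)

/-- the size of the displacement -/
def dd (s M b : ℝ) : ℝ := M / (c1 * (s * P b))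

lemma dd_nonneg (h : Hy j c s M b F F') : 0 ≤ dd s M b :=
  div_nonneg h.M0 (mul_pos c1_pos h.rho).le

lemma dd_le (h : Hy j c s M b F F') (hc : c ≤ c1) : dd s M b ≤ 1 := by
  unfold dd
  rw [div_le_one (mul_pos c1_pos h.rho)]
  exact h.sm.trans (mul_le_mul_of_nonneg_right hc h.rho.le)

lemma dd_eq (h : Hy j c s M b F F') : c1 * P b * dd s M b = M / s := by
  have := h.s0
  have := P_pos b
  have := c1_pos
  unfold dd
  field_simp

lemma U_le (h : Hy j c s M b F F') (hc : c ≤ c1) (x : ℝ) : G x + F x / s ≤ G (x + dd s M b) := by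
  have hd := dd_nonneg h
  rcases le_or_gt b |x| with hx | hx
  · rw [h.zero x hx, zero_div, add_zero]
    exact G_strictMono.monotone (by linarith)
  · have h1 := G_gap h.b0 hx.le hd (dd_le h hc)
    rw [dd_eq h] at h1
    have h2 : F x / s ≤ M / s := div_le_div_of_nonneg_right ((le_abs_self _).trans (h.bd x)) h.s0.le
    linarith

lemma le_U (h : Hy j c s M b F F') (hc : c ≤ c1) (x : ℝ) : G (x - dd s M b) ≤ G x + F x / s := by
  have h' : Hy j c s M b (fun x => - F (-x)) (fun x => F' (-x)) := by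
    refine ⟨h.s0, h.b0, fun x => ?_, fun x => ?_, ?_, fun x hx => ?_, h.sm⟩
    · have := ((h.der (-x)).comp x (hasDerivAt_neg x)).neg
      refine HasDerivAt.congr_deriv this ?_
      ring
    · rw [abs_neg]; exact h.bd _
    · have aux : ∀ (i : ℕ) (a : ℝ) (f : ℝ → ℝ), O i a f → O i a fun x => f (-x) := by
        intro i
        induction i with
        | zero => intro a f hf; exact ⟨hf.1.comp continuous_neg, fun x => hf.2 _⟩
        | succ i ih =>
          rintro a f ⟨k1, f', k2, k3⟩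
          refine ⟨fun x => k1 _, fun x => - f' (-x), fun x => ?_, ?_⟩
          · have := (k2 (-x)).comp x (hasDerivAt_neg x)
            refine HasDerivAt.congr_deriv this ?_
            ring
          · exact (ih a f' k3).neg
      exact aux _ _ _ h.od
    · rw [h.zero (-x) (by rwa [abs_neg]), neg_zero]
  have h1 := U_le h' hc (-x)
  have e1 : G (-x + dd s M b) = - G (x - dd s M b) := by
    rw [← G_neg]; congr 1; ring
  rw [e1, G_neg] at h1
  simp only [neg_neg] at h1
  rw [neg_div] at h1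
  linarith

lemma U_lt (h : Hy j c s M b F F') (hc : c ≤ c1) (x : ℝ) : G x + F x / s < 1 / 2 :=
  (U_le h hc x).trans_lt (G_lt _)

lemma lt_U (h : Hy j c s M b F F') (hc : c ≤ c1) (x : ℝ) : -(1 / 2) < G x + F x / s :=
  (lt_G _).trans_le (le_U h hc x)

lemma G_ps (h : Hy j c s M b F F') (hc : c ≤ c1) (x : ℝ) : G (ps s F x) = G x + F x / s :=
  G_Gi (lt_U h hc x) (U_lt h hc x)

lemma ps_le (h : Hy j c s M b F F') (hc : c ≤ c1) (x : ℝ) : |ps s F x - x| ≤ dd s M b := by
  have h1 := U_le h hc x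
  have h2 := le_U h hc x
  rw [← G_ps h hc] at h1 h2
  have h3 := G_strictMono.le_iff_le.1 h1
  have h4 := G_strictMono.le_iff_le.1 h2
  rw [abs_le]
  constructor <;> linarith

lemma ps_zero (h : Hy j c s M b F F') {x : ℝ} (hx : b ≤ |x|) : ps s F x = x := by
  unfold ps
  rw [h.zero x hx, zero_div, add_zero, Gi_G]

/-- the derivative of the transport -/
def ps' (s : ℝ) (F F' : ℝ → ℝ) (x : ℝ) : ℝ := (P x + F' x / s) / P (ps s F x)

lemma ps_deriv (h : Hy j c s M b F F') (hc : c ≤ c1) (x : ℝ) : HasDerivAt (ps s F) (ps' s F F' x) x := by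
  have h1 := Gi_deriv (lt_U h hc x) (U_lt h hc x)
  have h2 := (hasDerivAt_G x).add ((h.der x).div_const s)
  have h3 := HasDerivAt.comp x h1 h2
  refine HasDerivAt.congr_deriv h3 ?_
  unfold ps'
  rw [mul_comm, ← div_eq_mul_inv]
  rfl

lemma ps_cont (h : Hy j c s M b F F') (hc : c ≤ c1) : Continuous (ps s F) :=
  continuous_iff_continuousAt.2 fun x => (ps_deriv h hc x).continuousAt

lemma ps'_pos (h : Hy j c s M b F F') (hc : c ≤ c1 / 2) (x : ℝ) : 0 < ps' s F F' x := by
  unfold ps'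
  apply div_pos _ (P_pos _)
  have hs := h.s0
  rcases lt_or_ge b |x| with hx | hx
  · rw [h.zero' hx, zero_div, add_zero]
    exact P_pos x
  · have h1 := P_comp h.b0 (hx.trans (by linarith) : |x| ≤ b + 1)
    have h2 : |F' x / s| ≤ c1 / 2 * P b := by
      rw [abs_div, abs_of_pos hs, div_le_iff₀ hs]
      refine (h.od.le x).trans (h.sm.trans ?_)
      have := mul_le_mul_of_nonneg_right hc h.rho.le
      linarith
    have h3 := (abs_le.1 h2).1
    have h4 := mul_pos c1_pos (P_pos b)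
    linarith

theorem ps_dif (h : Hy j c s M b F F') (hc : c ≤ c1 / 2) : Dif (ps s F) (ps' s F F') := by
  have hc1 := c1_pos
  have hc' : c ≤ c1 := by linarith
  refine ⟨ps_deriv h hc', ps'_pos h hc, ?_⟩
  apply Continuous.surjective (ps_cont h hc')
  · refine tendsto_id.congr' ?_
    filter_upwards [eventually_ge_atTop b] with x hx
    exact (ps_zero h (hx.trans (le_abs_self x))).symm
  · refine tendsto_id.congr' ?_
    filter_upwards [eventually_le_atBot (-b)] with x hx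
    have : b ≤ |x| := by
      rw [le_abs]
      right
      linarith
    exact (ps_zero h this).symm

lemma ps_mono (h : Hy j c s M b F F') (hc : c ≤ c1 / 2) : StrictMono (ps s F) := by
  have hd := ps_dif h hc
  apply strictMono_of_deriv_pos
  intro x
  rw [(hd.der x).deriv]
  exact hd.pos x

theorem ps_abs (h : Hy j c s M b F F') (hc : c ≤ c1 / 2) {R : ℝ} (hR : b ≤ R) (x : ℝ) :
    |ps s F x| ≤ R ↔ |x| ≤ R := by
  have hb := h.b0
  have hR0 : 0 ≤ R := hb.trans hR
  have e1 : ps s F R = R := ps_zero h (by rwa [abs_of_nonneg hR0])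
  have e2 : ps s F (-R) = -R := ps_zero h (by rwa [abs_neg, abs_of_nonneg hR0])
  have hm := ps_mono h hc
  rw [abs_le, abs_le]
  constructor
  · rintro ⟨h1, h2⟩
    constructor
    · rw [← hm.le_iff_le, e2]; exact h1
    · rw [← hm.le_iff_le, e1]; exact h2
  · rintro ⟨h1, h2⟩
    constructor
    · rw [← e2]; exact hm.monotone h1
    · rw [← e1]; exact hm.monotone h2

theorem ps_mass (h : Hy j c s M b F F') (x : ℝ) :
    s * P (ps s F x) * ps' s F F' x = s * P x + F' x := by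
  have := P_pos (ps s F x)
  have := h.s0
  unfold ps'
  field_simp

/-- the derivative of the displacement -/
lemma xi_deriv (h : Hy j c s M b F F') (hc : c ≤ c1) (x : ℝ) : HasDerivAt (fun x => ps s F x - x)
    ((Real.exp (-(ell (x + (ps s F x - x)) - ell x)) - 1) + F' x / s * Real.exp (- ell x) *
      (1 + (Real.exp (-(ell (x + (ps s F x - x)) - ell x)) - 1))) x := by
  refine HasDerivAt.congr_deriv ((ps_deriv h hc x).sub (hasDerivAt_id x)) ?_
  have hP := P_pos x
  have hP' := P_pos (ps s F x)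
  have e1 : x + (ps s F x - x) = ps s F x := by ring
  rw [e1]
  have e2 : Real.exp (-(ell (ps s F x) - ell x)) = P x / P (ps s F x) := by
    unfold ell
    rw [neg_sub, Real.exp_sub, Real.exp_log hP, Real.exp_log hP']
  have e3 : Real.exp (- ell x) = (P x)⁻¹ := by
    unfold ell
    rw [Real.exp_neg, Real.exp_log hP]
  rw [e2, e3]
  unfold ps'
  have := h.s0
  field_simp
  ring

end

lemma xi_step (j : ℕ) {C c : ℝ} (hC1 : 1 ≤ C) (hc0 : 0 < c) (hc : c ≤ c1 / 2)
    (H : ∀ {s M b : ℝ} {F F' : ℝ → ℝ}, Hy j c s M b F F' → O j (C * (M / (s * P b))) fun x => ps s F x - x) :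
    ∃ C' c' : ℝ, 1 ≤ C' ∧ 0 < c' ∧ c' ≤ c1 / 2 ∧ ∀ {s M b : ℝ} {F F' : ℝ → ℝ},
    Hy j c' s M b F F' → O (j + 1) (C' * (M / (s * P b))) fun x => ps s F x - x := by
  obtain ⟨a1, ha1⟩ := ell'_O j
  have ha0 := ha1.nonneg
  obtain ⟨Cd, hCd1, hCd⟩ := O.delta j
  obtain ⟨Ce, hCe1, hCe⟩ := O.exp j
  obtain ⟨Cm, hCm1, hCm⟩ := O.mul_exp j ell_deriv ha1
  have hc1 := c1_pos
  have hA : 0 < C * (1 + Cd * a1) := by
    have : 0 ≤ Cd * a1 := by positivity
    positivity
  refine ⟨C + (Ce * (Cd * (a1 * C)) + 2 ^ j * (Cm / c1 * (1 + Ce))), min c (1 / (C * (1 + Cd * a1))), ?_,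
    lt_min hc0 (by positivity), (min_le_left _ _).trans hc, fun {s M b F F'} h => ?_⟩
  · have : 0 ≤ Ce * (Cd * (a1 * C)) + 2 ^ j * (Cm / c1 * (1 + Ce)) := by positivity
    linarith
  have hr := h.rho
  have hM := h.M0
  set mu := M / (s * P b) with hmu
  have hmu0 : 0 ≤ mu := div_nonneg hM hr.le
  have hmu1 : mu ≤ 1 / (C * (1 + Cd * a1)) := by
    rw [hmu, div_le_iff₀ hr]
    exact h.sm.trans (mul_le_mul_of_nonneg_right (min_le_right _ _) hr.le)
  have hmu2 : mu * (C * (1 + Cd * a1)) ≤ 1 := (le_div_iff₀ hA).1 hmu1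
  have hh := h.weak (min_le_left c _)
  have hcc : c ≤ c1 := by linarith
  have g1 := H hh
  have hl : C * mu ≤ 1 := by
    have : 0 ≤ mu * C * (Cd * a1) := by positivity
    nlinarith
  have hl' : Cd * (a1 * (C * mu)) ≤ 1 := by
    have : 0 ≤ C * mu := by positivity
    nlinarith
  have g2 := (hCd ell_deriv ha1 g1 hl).neg
  have g3 := hCe g2 hl'
  have hE0 : 0 ≤ 1 / (c1 * P b) := by
    have := P_pos b
    positivity
  have g4 : O j (Cm * (|1 / s| * M * (1 / (c1 * P b)))) fun x => (1 / s) * F' x * Real.exp (- ell x) := by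
    refine hCm (h.od.smul (1 / s)) (b := b) (fun x hx => by rw [h.zero' hx, mul_zero]) (fun x hx => ?_) hE0
    unfold ell
    rw [Real.exp_neg, Real.exp_log (P_pos x), ← one_div]
    have := P_pos b
    exact one_div_le_one_div_of_le (by positivity) (P_comp h.b0 (by linarith))
  have g5 : O j (1 + Ce) fun x => 1 + (Real.exp (-(ell (x + (ps s F x - x)) - ell x)) - 1) := by
    refine ((O.const (a := 1) (c := 1) j (by simp)).add g3).mono ?_
    have : Ce * (Cd * (a1 * (C * mu))) ≤ Ce * 1 := mul_le_mul_of_nonneg_left hl' (by linarith)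
    linarith
  have e0 : Cm * (|1 / s| * M * (1 / (c1 * P b))) = Cm / c1 * mu := by
    have := h.s0
    have := P_pos b
    rw [abs_of_pos (by positivity), hmu]
    field_simp
  rw [e0] at g4
  have g6 := g3.add (g4.mul g5)
  refine ⟨fun x => (g1.le x).trans ?_, _, xi_deriv hh hcc, ?_⟩
  · have : 0 ≤ (Ce * (Cd * (a1 * C)) + 2 ^ j * (Cm / c1 * (1 + Ce))) * mu := by positivity
    nlinarith
  · refine (g6.mono ?_).congr fun x => ?_
    · have : 0 ≤ C * mu := by positivity
      nlinarith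
    · simp only [one_div]
      ring

lemma xi_base (j : ℕ) : ∃ C c : ℝ, 1 ≤ C ∧ 0 < c ∧ c ≤ c1 / 2 ∧ ∀ {s M b : ℝ} {F F' : ℝ → ℝ},
    Hy j c s M b F F' → O j (C * (M / (s * P b))) fun x => ps s F x - x := by
  induction j with
  | zero =>
    have hc1 := c1_pos
    refine ⟨max 1 (1 / c1), c1 / 2, le_max_left _ _, by positivity, le_refl _, fun {s M b F F'} h => ?_⟩
    have hcc : c1 / 2 ≤ c1 := by linarith
    refine ⟨(ps_cont h hcc).sub continuous_id, fun x => (ps_le h hcc x).trans ?_⟩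
    have hr := h.rho
    have hM := h.M0
    have e : dd s M b = 1 / c1 * (M / (s * P b)) := by
      unfold dd
      field_simp
    rw [e]
    exact mul_le_mul_of_nonneg_right (le_max_right _ _) (div_nonneg hM hr.le)
  | succ j ih =>
    obtain ⟨C, c, h1, h2, h3, h4⟩ := ih
    obtain ⟨C', c', k1, k2, k3, k4⟩ := xi_step j h1 h2 h3 h4
    exact ⟨C', c', k1, k2, k3, fun h => k4 h.low⟩

/-- **the displacement is small with its derivatives** -/
theorem xi_O (j : ℕ) : ∃ C c : ℝ, 1 ≤ C ∧ 0 < c ∧ c ≤ c1 / 2 ∧ ∀ {s M b : ℝ} {F F' : ℝ → ℝ},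
    Hy j c s M b F F' → O (j + 1) (C * (M / (s * P b))) fun x => ps s F x - x := by
  obtain ⟨C, c, h1, h2, h3, h4⟩ := xi_base j
  exact xi_step j h1 h2 h3 h4

end

end NUDp
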