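import Mathlib

/-!
# A recursive calculus of bounded derivatives

`O j a f`: `f` and its first `j` derivatives are bounded by `a`, the last one is continuous.
Closed under sums, products, composition with `x + D x`, differences `f (x + D x) - f x`, `exp u - 1`.
-/

set_option autoImplicit false

open Set Filter Topology

namespace NUOC

noncomputable section

/-- `f` and its first `j` derivatives are bounded by `a` -/
def O : ℕ → ℝ → (ℝ → ℝ) → Prop
  | 0, a, f => Continuous f ∧ ∀ x, |f x| ≤ a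
  | (j + 1), a, f => (∀ x, |f x| ≤ a) ∧ ∃ f' : ℝ → ℝ, (∀ x, HasDerivAt f (f' x) x) ∧ O j a f'

lemma O.le {j : ℕ} {a : ℝ} {f : ℝ → ℝ} (h : O j a f) (x : ℝ) : |f x| ≤ a := by
  cases j with
  | zero => exact h.2 x
  | succ j => exact h.1 x

lemma O.cont {j : ℕ} {a : ℝ} {f : ℝ → ℝ} (h : O j a f) : Continuous f := by
  cases j with
  | zero => exact h.1
  | succ j =>
    obtain ⟨_, f', hf, _⟩ := h
    exact continuous_iff_continuousAt.2 fun x => (hf x).continuousAt

lemma O.nonneg {j : ℕ} {a : ℝ} {f : ℝ → ℝ} (h : O j a f) : 0 ≤ a := (abs_nonneg _).trans (h.le 0)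

lemma O.mono {j : ℕ} : ∀ {a b : ℝ} {f : ℝ → ℝ}, O j a f → a ≤ b → O j b f := by
  induction j with
  | zero => intro a b f h hab; exact ⟨h.1, fun x => (h.2 x).trans hab⟩
  | succ j ih =>
    rintro a b f ⟨h1, f', h2, h3⟩ hab
    exact ⟨fun x => (h1 x).trans hab, f', h2, ih h3 hab⟩

lemma O.lower {j : ℕ} : ∀ {a : ℝ} {f : ℝ → ℝ}, O (j + 1) a f → O j a f := by
  induction j with
  | zero => intro a f h; exact ⟨h.cont, h.1⟩
  | succ j ih =>
    rintro a f ⟨h1, f', h2, h3⟩
    exact ⟨h1, f', h2, ih h3⟩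

lemma O.lower_of_le {j i : ℕ} {a : ℝ} {f : ℝ → ℝ} (h : O j a f) (hi : i ≤ j) : O i a f := by
  induction j with
  | zero =>
    obtain rfl : i = 0 := by omega
    exact h
  | succ j ih =>
    rcases Nat.lt_or_ge i (j + 1) with h1 | h1
    · exact ih h.lower (by omega)
    · obtain rfl : i = j + 1 := by omega
      exact h

lemma O.congr {j : ℕ} {a : ℝ} {f g : ℝ → ℝ} (h : O j a f) (hfg : ∀ x, f x = g x) : O j a g := by
  have : f = g := funext hfg
  rw [← this]; exact h

lemma O.const (j : ℕ) {a c : ℝ} (hc : |c| ≤ a) : O j a fun _ => c := by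
  induction j generalizing c with
  | zero => exact ⟨continuous_const, fun _ => hc⟩
  | succ j ih =>
    exact ⟨fun _ => hc, fun _ => 0, fun x => hasDerivAt_const x c,
      ih (by rw [abs_zero]; exact (abs_nonneg _).trans hc)⟩

lemma O.add {j : ℕ} : ∀ {a b : ℝ} {f g : ℝ → ℝ}, O j a f → O j b g → O j (a + b) fun x => f x + g x := by
  induction j with
  | zero =>
    intro a b f g h h'
    exact ⟨h.1.add h'.1, fun x => (abs_add_le _ _).trans (add_le_add (h.2 x) (h'.2 x))⟩
  | succ j ih =>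
    rintro a b f g ⟨h1, f', h2, h3⟩ ⟨k1, g', k2, k3⟩
    exact ⟨fun x => (abs_add_le _ _).trans (add_le_add (h1 x) (k1 x)), _, fun x => (h2 x).add (k2 x), ih h3 k3⟩

lemma O.smul {j : ℕ} (c : ℝ) : ∀ {a : ℝ} {f : ℝ → ℝ}, O j a f → O j (|c| * a) fun x => c * f x := by
  induction j with
  | zero =>
    intro a f h
    exact ⟨continuous_const.mul h.1, fun x => by
      rw [abs_mul]; exact mul_le_mul_of_nonneg_left (h.2 x) (abs_nonneg _)⟩
  | succ j ih =>
    rintro a f ⟨h1, f', h2, h3⟩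
    exact ⟨fun x => by rw [abs_mul]; exact mul_le_mul_of_nonneg_left (h1 x) (abs_nonneg _), _,
      fun x => (h2 x).const_mul c, ih h3⟩

lemma O.neg {j : ℕ} {a : ℝ} {f : ℝ → ℝ} (h : O j a f) : O j a fun x => - f x := by
  have := h.smul (-1)
  simpa using this

lemma O.sub {j : ℕ} {a b : ℝ} {f g : ℝ → ℝ} (h : O j a f) (h' : O j b g) : O j (a + b) fun x => f x - g x := by
  have := h.add h'.neg
  simpa [sub_eq_add_neg] using this

lemma O.mul {j : ℕ} : ∀ {a b : ℝ} {f g : ℝ → ℝ}, O j a f → O j b g →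
    O j (2 ^ j * (a * b)) fun x => f x * g x := by
  induction j with
  | zero =>
    intro a b f g h h'
    refine ⟨h.1.mul h'.1, fun x => ?_⟩
    rw [abs_mul, pow_zero, one_mul]
    exact mul_le_mul (h.2 x) (h'.2 x) (abs_nonneg _) h.nonneg
  | succ j ih =>
    intro a b f g h h'
    have hf := h.lower
    have hg := h'.lower
    obtain ⟨h1, f', h2, h3⟩ := h
    obtain ⟨k1, g', k2, k3⟩ := h'
    have ha := hf.nonneg
    have hb := hg.nonneg
    refine ⟨fun x => ?_, fun x => f' x * g x + f x * g' x, fun x => (h2 x).mul (k2 x), ?_⟩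
    · rw [abs_mul]
      have e1 : |f x| * |g x| ≤ a * b := mul_le_mul (h1 x) (k1 x) (abs_nonneg _) ha
      have e2 : (1:ℝ) ≤ 2 ^ (j + 1) := one_le_pow₀ (by norm_num)
      have e3 : 0 ≤ a * b := mul_nonneg ha hb
      nlinarith
    · have := (ih h3 hg).add (ih hf k3)
      refine this.mono (le_of_eq ?_)
      ring

/-- composition with `x + D x` -/
theorem O.comp (j : ℕ) : ∃ C : ℝ, 1 ≤ C ∧ ∀ {a : ℝ} {f D : ℝ → ℝ}, O j a f → O j 1 D →
    O j (C * a) fun x => f (x + D x) := by
  induction j with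
  | zero =>
    refine ⟨1, le_refl _, fun {a f D} hf hD => ?_⟩
    rw [one_mul]
    exact ⟨hf.1.comp (continuous_id.add hD.1), fun x => hf.2 _⟩
  | succ j ih =>
    obtain ⟨C, hC1, hC⟩ := ih
    have hp : (1:ℝ) ≤ 2 ^ j := one_le_pow₀ (by norm_num)
    refine ⟨2 ^ j * (C * 2), by nlinarith, fun {a f D} hf hD => ?_⟩
    have ha := hf.nonneg
    have hDl := hD.lower
    obtain ⟨h1, f', h2, h3⟩ := hf
    obtain ⟨k1, D', k2, k3⟩ := hD
    refine ⟨fun x => ?_, fun x => f' (x + D x) * (1 + D' x), fun x => ?_, ?_⟩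
    · refine (h1 _).trans ?_
      have : (1:ℝ) ≤ 2 ^ j * (C * 2) := by nlinarith
      nlinarith
    · exact (h2 (x + D x)).comp x ((hasDerivAt_id x).add (k2 x))
    · have e1 := hC h3 hDl
      have e2 : O j (1 + 1) fun x => 1 + D' x := (O.const j (by simp)).add k3
      refine (e1.mul e2).mono (le_of_eq ?_)
      ring

/-- the difference `f (x + D x) - f x` -/
theorem O.delta (j : ℕ) : ∃ C : ℝ, 1 ≤ C ∧ ∀ {a lam : ℝ} {f f' D : ℝ → ℝ}, (∀ x, HasDerivAt f (f' x) x) →
    O j a f' → O j lam D → lam ≤ 1 → O j (C * (a * lam)) fun x => f (x + D x) - f x := by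
  have mvt : ∀ {a lam : ℝ} {f f' D : ℝ → ℝ}, (∀ x, HasDerivAt f (f' x) x) → (∀ x, |f' x| ≤ a) →
      (∀ x, |D x| ≤ lam) → ∀ x, |f (x + D x) - f x| ≤ a * lam := by
    intro a lam f f' D h1 h2 h3 x
    have ha : 0 ≤ a := (abs_nonneg _).trans (h2 0)
    have := Convex.norm_image_sub_le_of_norm_hasDerivWithin_le (f := f) (f' := f') (C := a) (s := univ)
      (fun y _ => (h1 y).hasDerivWithinAt) (fun y _ => h2 y) convex_univ (mem_univ x) (mem_univ (x + D x))
    rw [Real.norm_eq_abs, Real.norm_eq_abs, add_sub_cancel_left] at this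
    exact this.trans (mul_le_mul_of_nonneg_left (h3 x) ha)
  induction j with
  | zero =>
    refine ⟨1, le_refl _, fun {a lam f f' D} h1 h2 h3 hl => ?_⟩
    rw [one_mul]
    have hfc : Continuous f := continuous_iff_continuousAt.2 fun x => (h1 x).continuousAt
    exact ⟨(hfc.comp (continuous_id.add h3.1)).sub hfc, mvt h1 h2.2 h3.2⟩
  | succ j ih =>
    obtain ⟨C, hC1, hC⟩ := ih
    obtain ⟨Cc, hCc1, hCc⟩ := O.comp j
    have hp : (1:ℝ) ≤ 2 ^ j := one_le_pow₀ (by norm_num)
    refine ⟨C + 2 ^ j * Cc, by nlinarith, fun {a lam f f' D} h1 h2 h3 hl => ?_⟩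
    have ha := h2.nonneg
    have hlam := h3.nonneg
    have hf'l := h2.lower
    have hDl := h3.lower
    have m1 := mvt h1 h2.le h3.le
    obtain ⟨_, f'', h4, h5⟩ := h2
    obtain ⟨_, D', k2, k3⟩ := h3
    refine ⟨fun x => ?_, fun x => (f' (x + D x) - f' x) + f' (x + D x) * D' x, fun x => ?_, ?_⟩
    · refine (m1 x).trans ?_
      have : (1:ℝ) ≤ C + 2 ^ j * Cc := by nlinarith
      have : 0 ≤ a * lam := mul_nonneg ha hlam
      nlinarith
    · have e1 := ((h1 (x + D x)).comp x ((hasDerivAt_id x).add (k2 x))).sub (h1 x)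
      refine HasDerivAt.congr_deriv e1 ?_
      ring
    · have e1 := hC h4 h5 hDl hl
      have e2 := hCc hf'l (hDl.mono hl)
      refine (e1.add (e2.mul k3)).mono (le_of_eq ?_)
      ring

/-- `exp u - 1` -/
theorem O.exp (j : ℕ) : ∃ C : ℝ, 1 ≤ C ∧ ∀ {lam : ℝ} {u : ℝ → ℝ}, O j lam u → lam ≤ 1 →
    O j (C * lam) fun x => Real.exp (u x) - 1 := by
  induction j with
  | zero =>
    refine ⟨2, by norm_num, fun {lam u} h hl => ?_⟩
    refine ⟨(Real.continuous_exp.comp h.1).sub continuous_const, fun x => ?_⟩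
    refine (Real.abs_exp_sub_one_le ((h.2 x).trans hl)).trans ?_
    exact mul_le_mul_of_nonneg_left (h.2 x) (by norm_num)
  | succ j ih =>
    obtain ⟨C, hC1, hC⟩ := ih
    refine ⟨2 + 2 ^ j * C, by have : (0:ℝ) ≤ 2 ^ j * C := by positivity
                              linarith, fun {lam u} h hl => ?_⟩
    have hlam := h.nonneg
    have hul := h.lower
    obtain ⟨h1, u', h2, h3⟩ := h
    refine ⟨fun x => ?_, fun x => u' x + u' x * (Real.exp (u x) - 1), fun x => ?_, ?_⟩
    · refine (Real.abs_exp_sub_one_le ((h1 x).trans hl)).trans ?_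
      have e0 : (0:ℝ) ≤ 2 ^ j * C := by positivity
      nlinarith [h1 x, mul_nonneg e0 hlam]
    · have e1 := (h2 x).exp.sub_const 1
      refine HasDerivAt.congr_deriv e1 ?_
      ring
    · have e1 := h3.mul (hC hul hl)
      have hC0 : 0 ≤ C := by linarith
      refine (h3.add e1).mono ?_
      have e2 : lam * (C * lam) ≤ C * lam := by nlinarith [mul_nonneg hC0 hlam]
      have e3 : (2:ℝ) ^ j * (lam * (C * lam)) ≤ 2 ^ j * (C * lam) := mul_le_mul_of_nonneg_left e2 (by positivity)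
      nlinarith

/-- a function killed outside `|x| ≤ b`, multiplied by `exp (-ell)` -/
theorem O.mul_exp (j : ℕ) {a1 : ℝ} {ell ell' : ℝ → ℝ} (he : ∀ x, HasDerivAt ell (ell' x) x)
    (ha1 : O j a1 ell') : ∃ C : ℝ, 1 ≤ C ∧ ∀ {M b E : ℝ} {G : ℝ → ℝ}, O j M G → (∀ x, b < |x| → G x = 0) →
      (∀ x, |x| ≤ b → Real.exp (- ell x) ≤ E) → 0 ≤ E → O j (C * (M * E)) fun x => G x * Real.exp (- ell x) := by
  induction j with
  | zero =>
    refine ⟨1, le_refl _, fun {M b E G} hG hs hE hE0 => ?_⟩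
    have hec : Continuous ell := continuous_iff_continuousAt.2 fun x => (he x).continuousAt
    refine ⟨hG.1.mul (Real.continuous_exp.comp hec.neg), fun x => ?_⟩
    rw [abs_mul, Real.abs_exp, one_mul]
    rcases le_or_gt |x| b with hx | hx
    · exact mul_le_mul (hG.2 x) (hE x hx) (Real.exp_pos _).le hG.nonneg
    · rw [hs x hx, abs_zero, zero_mul]
      exact mul_nonneg hG.nonneg hE0
  | succ j ih =>
    obtain ⟨C, hC1, hC⟩ := ih ha1.lower
    have ha0 := ha1.nonneg
    refine ⟨C * (1 + 2 ^ j * a1), ?_, fun {M b E G} hG hs hE hE0 => ?_⟩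
    · have : (0:ℝ) ≤ 2 ^ j * a1 := by positivity
      nlinarith
    · have hM := hG.nonneg
      have hGl := hG.lower
      obtain ⟨h1, G', h2, h3⟩ := hG
      have hs' : ∀ x, b < |x| → G' x = 0 := by
        intro x hx
        have e : G =ᶠ[𝓝 x] fun _ => 0 := by
          filter_upwards [(continuous_abs.tendsto x).eventually (lt_mem_nhds hx)] with y hy
          exact hs y hy
        exact (h2 x).unique ((hasDerivAt_const x (0:ℝ)).congr_of_eventuallyEq e)
      refine ⟨fun x => ?_, fun x => (G' x - G x * ell' x) * Real.exp (- ell x), fun x => ?_, ?_⟩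
      · rw [abs_mul, Real.abs_exp]
        have e1 : |G x| * Real.exp (- ell x) ≤ M * E := by
          rcases le_or_gt |x| b with hx | hx
          · exact mul_le_mul (h1 x) (hE x hx) (Real.exp_pos _).le hM
          · rw [hs x hx, abs_zero, zero_mul]
            exact mul_nonneg hM hE0
        refine e1.trans ?_
        have e2 : (1:ℝ) ≤ C * (1 + 2 ^ j * a1) := by
          have : (0:ℝ) ≤ 2 ^ j * a1 := by positivity
          nlinarith
        nlinarith [mul_nonneg hM hE0]
      · have e1 := (h2 x).mul ((he x).neg.exp)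
        refine HasDerivAt.congr_deriv e1 ?_
        simp only [Pi.neg_apply]
        ring
      · have e1 : O j (M + 2 ^ j * (M * a1)) fun x => G' x - G x * ell' x := h3.sub (hGl.mul ha1.lower)
        have e2 := hC e1 (b := b) (E := E) (fun x hx => by rw [hs' x hx, hs x hx]; ring) hE hE0
        refine e2.mono (le_of_eq ?_)
        ring

end

end NUOC
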