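import Pool.Agent.NUKer.Comp
import Pool.Agent.NUKer.Dec
import Pool.Agent.NUR2.OC

/-!
Section [4.7] (b): kernels of the shifted and transported paths from the calculus `NUOC.O`.
-/

set_option autoImplicit false

open Complex Set Filter

namespace NUR2

open NUKer NUOC

/-- three bounded derivatives give the one variable class -/
theorem exists_KC1_of_O : ∃ K : ℝ, 1 ≤ K ∧ ∀ R : ℝ, 1 ≤ R → ∀ (M : ℝ) (f : ℝ → ℝ), O 3 M f →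
    KC1 R (K * R ^ 3 * M) (fun x => (f x : ℂ)) := by
  obtain ⟨K, hK0, hK⟩ := exists_KC1
  refine ⟨K + 1, by linarith, fun R hR M f h => ?_⟩
  have hM := h.nonneg
  obtain ⟨h0, f1, d1, h1, f2, d2, h2, f3, d3, h3c, h3⟩ := h
  have hn : ∀ {g : ℝ → ℝ}, (∀ x, |g x| ≤ M) → ∀ x : ℝ, |x| ≤ 2 * R → ‖((g x : ℝ) : ℂ)‖ ≤ M := by
    intro g hg x _
    rw [Complex.norm_real, Real.norm_eq_abs]
    exact hg x
  refine (hK R hR (fun x => (f x : ℂ)) (fun x => (f1 x : ℂ)) (fun x => (f2 x : ℂ))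
    (fun x => (f3 x : ℂ)) (fun x => (d1 x).ofReal_comp) (fun x => (d2 x).ofReal_comp)
    (fun x => (d3 x).ofReal_comp) (Complex.continuous_ofReal.comp h3c) M (hn h0) (hn h1) (hn h2)
    (hn h3)).mono ?_
  gcongr
  linarith

/-- a complex displacement `u + i v` -/
theorem disp_of_O {a b : ℝ} {u v u1 v1 : ℝ → ℝ} (hu : O 4 a u) (hv : O 4 b v)
    (hu1 : ∀ x, HasDerivAt u (u1 x) x) (hv1 : ∀ x, HasDerivAt v (v1 x) x) (R : ℝ) :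
    Disp R (a + b) (fun t => (u t : ℂ) + (v t : ℂ) * I) (fun t => (u1 t : ℂ) + (v1 t : ℂ) * I) := by
  obtain ⟨hu0, u1', e1, hu1', u2, e2, hu2, u3, e3, hu3, u4, e4, hu4c, hu4⟩ := hu
  obtain ⟨hv0, v1', g1, hv1', v2, g2, hv2, v3, g3, hv3, v4, g4, hv4c, hv4⟩ := hv
  obtain rfl : u1' = u1 := funext fun x => (e1 x).unique (hu1 x)
  obtain rfl : v1' = v1 := funext fun x => (g1 x).unique (hv1 x)
  have hn : ∀ {p q : ℝ → ℝ}, (∀ x, |p x| ≤ a) → (∀ x, |q x| ≤ b) →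
      ∀ x : ℝ, |x| ≤ 2 * R → ‖(p x : ℂ) + (q x : ℂ) * I‖ ≤ a + b := by
    intro p q hp hq x _
    refine (norm_add_le _ _).trans (add_le_add ?_ ?_)
    · rw [Complex.norm_real, Real.norm_eq_abs]
      exact hp x
    · rw [norm_mul, Complex.norm_I, mul_one, Complex.norm_real, Real.norm_eq_abs]
      exact hq x
  have hd : ∀ {p q p' q' : ℝ → ℝ}, (∀ x, HasDerivAt p (p' x) x) → (∀ x, HasDerivAt q (q' x) x) →
      ∀ x : ℝ, HasDerivAt (fun t => (p t : ℂ) + (q t : ℂ) * I) ((p' x : ℂ) + (q' x : ℂ) * I) x :=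
    fun hp hq x => (hp x).ofReal_comp.add ((hq x).ofReal_comp.mul_const I)
  exact ⟨fun t => (u2 t : ℂ) + (v2 t : ℂ) * I, fun t => (u3 t : ℂ) + (v3 t : ℂ) * I,
    fun t => (u4 t : ℂ) + (v4 t : ℂ) * I, hd e1 g1, hd e2 g2, hd e3 g3, hd e4 g4,
    (Complex.continuous_ofReal.comp hu4c).add ((Complex.continuous_ofReal.comp hv4c).mul
      continuous_const), hn hu0 hv0, hn hu1' hv1', hn hu2 hv2, hn hu3 hv3, hn hu4 hv4⟩

/-- purely imaginary displacement -/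
theorem disp_iD {b : ℝ} {v v1 : ℝ → ℝ} (hv : O 4 b v) (hv1 : ∀ x, HasDerivAt v (v1 x) x) (R : ℝ) :
    Disp R b (iD v) (iD v1) := by
  have h := disp_of_O (O.const 4 (a := 0) (c := 0) (by simp)) hv (u1 := fun _ => 0)
    (fun x => hasDerivAt_const x 0) hv1 R
  have e : ∀ w : ℝ → ℝ, (fun t => (((fun _ => 0 : ℝ → ℝ) t : ℝ) : ℂ) + (w t : ℂ) * I) = iD w := by
    intro w
    funext t
    simp [iD]
  rw [zero_add] at h
  have e' := e v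
  have e1' := e v1
  simp only at e' e1' h
  rw [e', e1'] at h
  exact h

/-- displacement of `ζ ∘ ψ`, `ζ = id + i v`, `ψ = id + ξ` -/
theorem exists_disp_cD : ∃ K : ℝ, 1 ≤ K ∧ ∀ {a b : ℝ} {ξ ξ1 v v1 : ℝ → ℝ}, O 4 a ξ → a ≤ 1 →
    O 4 b v → (∀ x, HasDerivAt ξ (ξ1 x) x) → (∀ x, HasDerivAt v (v1 x) x) → ∀ R : ℝ,
    Disp R (a + K * b) (cD ξ (iD v)) (cD1 ξ ξ1 (iD v1)) := by
  obtain ⟨K, hK, H⟩ := O.comp 4
  refine ⟨K, hK, fun {a b ξ ξ1 v v1} hξ ha hv hξ1 hv1 R => ?_⟩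
  have h1 := H hv (hξ.mono ha)
  have h2 : ∀ x, HasDerivAt (fun x => v (x + ξ x)) (v1 (x + ξ x) * (1 + ξ1 x)) x := fun x =>
    (hv1 (x + ξ x)).comp x ((hasDerivAt_id x).add (hξ1 x))
  have h3 := disp_of_O hξ h1 hξ1 h2 R
  have e1 : (fun t => (ξ t : ℂ) + ((v (t + ξ t) : ℝ) : ℂ) * I) = cD ξ (iD v) := by
    funext t
    rfl
  have e2 : (fun t => (ξ1 t : ℂ) + ((v1 (t + ξ t) * (1 + ξ1 t) : ℝ) : ℂ) * I) =
      cD1 ξ ξ1 (iD v1) := by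
    funext t
    unfold cD1 iD
    push_cast
    ring
  rw [e1, e2] at h3
  exact h3

/-- kernel data of the paths `ζ_a = id + i η_a` and `ζ_a ∘ ψ_a`, `ψ_a = id + ξ_a`, `a = X, Y` -/
structure Kers (R Λ Λ' : ℝ) (ηX ηX1 ηY ηY1 ξX ξX1 ξY ξY1 : ℝ → ℝ) : Prop where
  sm_X : Sm R (iD ηX) (iD ηX1)
  sm_Y : Sm R (iD ηY) (iD ηY1)
  sm_c : Sm2 R (iD ηX) (iD ηY)
  sm_X' : Sm R (cD ξX (iD ηX)) (cD1 ξX ξX1 (iD ηX1))
  sm_Y' : Sm R (cD ξY (iD ηY)) (cD1 ξY ξY1 (iD ηY1))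
  sm_c' : Sm2 R (cD ξX (iD ηX)) (cD ξY (iD ηY))
  /-- classes -/
  kX : KC R Λ (fun t t' => ((kw (iD ηX) (iD ηX1) t t' : ℝ) : ℂ))
  kY : KC R Λ (fun t t' => ((kw (iD ηY) (iD ηY1) t t' : ℝ) : ℂ))
  kc : KC R Λ (fun t t' => ((kg (iD ηX) (iD ηY) t t' : ℝ) : ℂ))
  kX' : KC R Λ' (fun t t' => ((kw (cD ξX (iD ηX)) (cD1 ξX ξX1 (iD ηX1)) t t' : ℝ) : ℂ))
  kY' : KC R Λ' (fun t t' => ((kw (cD ξY (iD ηY)) (cD1 ξY ξY1 (iD ηY1)) t t' : ℝ) : ℂ))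
  kc' : KC R Λ' (fun t t' => ((kg (cD ξX (iD ηX)) (cD ξY (iD ηY)) t t' : ℝ) : ℂ))
  /-- symmetry -/
  sX : ∀ x y, |x| ≤ R → |y| ≤ R → kw (iD ηX) (iD ηX1) x y = kw (iD ηX) (iD ηX1) y x
  sY : ∀ x y, |x| ≤ R → |y| ≤ R → kw (iD ηY) (iD ηY1) x y = kw (iD ηY) (iD ηY1) y x
  sX' : ∀ x y, |x| ≤ R → |y| ≤ R → kw (cD ξX (iD ηX)) (cD1 ξX ξX1 (iD ηX1)) x y =
    kw (cD ξX (iD ηX)) (cD1 ξX ξX1 (iD ηX1)) y x
  sY' : ∀ x y, |x| ≤ R → |y| ≤ R → kw (cD ξY (iD ηY)) (cD1 ξY ξY1 (iD ηY1)) x y =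
    kw (cD ξY (iD ηY)) (cD1 ξY ξY1 (iD ηY1)) y x
  /-- the exact transport identities -/
  wX : ∀ x y, |x| ≤ R → |y| ≤ R →
    NUMF.w ((x + ξX x) - (y + ξX y)) * Real.exp (kw (iD ηX) (iD ηX1) (x + ξX x) (y + ξX y)) =
      NUMF.w (x - y) * Real.exp (kw (cD ξX (iD ηX)) (cD1 ξX ξX1 (iD ηX1)) x y)
  wY : ∀ x y, |x| ≤ R → |y| ≤ R →
    NUMF.w ((x + ξY x) - (y + ξY y)) * Real.exp (kw (iD ηY) (iD ηY1) (x + ξY x) (y + ξY y)) =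
      NUMF.w (x - y) * Real.exp (kw (cD ξY (iD ηY)) (cD1 ξY ξY1 (iD ηY1)) x y)
  gc : ∀ x y, |x| ≤ R → |y| ≤ R →
    NUMF.g ((x + ξX x) - (y + ξY y)) * Real.exp (kg (iD ηX) (iD ηY) (x + ξX x) (y + ξY y)) =
      NUMF.g (x - y) * Real.exp (kg (cD ξX (iD ηX)) (cD ξY (iD ηY)) x y)
  /-- Jacobians and diagonals -/
  jX : ∀ x, 0 < 1 + ξX1 x
  jY : ∀ x, 0 < 1 + ξY1 x
  dX : ∀ x, kw (cD ξX (iD ηX)) (cD1 ξX ξX1 (iD ηX1)) x x - kw (iD ηX) (iD ηX1) x x =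
    2 * Real.log (1 + ξX1 x) +
      2 * (Real.log ‖1 + iD ηX1 (x + ξX x)‖ - Real.log ‖1 + iD ηX1 x‖)
  dY : ∀ x, kw (cD ξY (iD ηY)) (cD1 ξY ξY1 (iD ηY1)) x x - kw (iD ηY) (iD ηY1) x x =
    2 * Real.log (1 + ξY1 x) +
      2 * (Real.log ‖1 + iD ηY1 (x + ξY x)‖ - Real.log ‖1 + iD ηY1 x‖)

theorem one_add_iD_ne (v : ℝ → ℝ) (t : ℝ) : 1 + iD v t ≠ 0 := by
  intro h
  have := congrArg Complex.re h
  simp [iD] at this

/-- **all kernels of [4.7] (b)** -/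
theorem exists_kers : ∃ K : ℝ, 1 ≤ K ∧ ∀ R : ℝ, 1 ≤ R → ∀ (lam lam0 : ℝ)
    (ηX ηX1 ηY ηY1 ξX ξX1 ξY ξY1 : ℝ → ℝ), O 4 lam ηX → O 4 lam ηY → O 4 lam0 ξX → O 4 lam0 ξY →
    (∀ x, HasDerivAt ηX (ηX1 x) x) → (∀ x, HasDerivAt ηY (ηY1 x) x) →
    (∀ x, HasDerivAt ξX (ξX1 x) x) → (∀ x, HasDerivAt ξY (ξY1 x) x) →
    (∀ x, |x| ≤ R → |x + ξX x| ≤ R) → (∀ x, |x| ≤ R → |x + ξY x| ≤ R) →
    K * R ^ 7 * (lam + lam0) ≤ 1 →
    Kers R (K * R ^ 7 * lam) (K * R ^ 7 * (lam + lam0)) ηX ηX1 ηY ηY1 ξX ξX1 ξY ξY1 := by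
  obtain ⟨K1, hK1, H1⟩ := exists_kw
  obtain ⟨K2, hK2, H2⟩ := exists_kg
  obtain ⟨K3, hK3, H3⟩ := exists_disp_cD
  refine ⟨2 * (K1 + K2) * K3, by nlinarith, ?_⟩
  intro R hR lam lam0 ηX ηX1 ηY ηY1 ξX ξX1 ξY ξY1 hηX hηY hξX hξY dηX dηY dξX dξY rX rY hsm
  have hl := hηX.nonneg
  have hl0 := hξX.nonneg
  have hR7 : (1:ℝ) ≤ R ^ 7 := one_le_pow₀ hR
  have hR6 : R ^ 6 ≤ R ^ 7 := pow_le_pow_right₀ hR (by norm_num)
  have hR60 : (0:ℝ) < R ^ 6 := by positivity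
  have hK12 : 1 ≤ K1 + K2 := by linarith
  have hKK : K3 ≤ (K1 + K2) * K3 := by nlinarith
  have hKK1 : 1 ≤ (K1 + K2) * K3 := by linarith
  have hprod : (2:ℝ) ≤ 2 * (K1 + K2) * K3 := by linarith
  have hprodR : (2:ℝ) ≤ 2 * (K1 + K2) * K3 * R ^ 7 := by nlinarith
  have hll : lam + lam0 ≤ 1 / 2 := by
    have h0 : 0 ≤ lam + lam0 := by linarith
    nlinarith
  have hl01 : lam0 ≤ 1 := by linarith
  have hl1 : lam ≤ 1 := by linarith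
  -- the four displacements
  have pX := disp_iD hηX dηX R
  have pY := disp_iD hηY dηY R
  have pX' := H3 hξX hl01 hηX dξX dηX R
  have pY' := H3 hξY hl01 hηY dξY dηY R
  -- smallness
  have hc : lam0 + K3 * lam ≤ K3 * (lam + lam0) := by nlinarith
  have hc0 : 0 ≤ lam0 + K3 * lam := by positivity
  have gen : ∀ {x y : ℝ}, 0 ≤ x → x ≤ K3 * y → 0 ≤ y →
      K1 * R ^ 7 * x ≤ 2 * (K1 + K2) * K3 * R ^ 7 * y ∧
      K2 * R ^ 6 * x ≤ 2 * (K1 + K2) * K3 * R ^ 7 * y := by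
    intro x y hx hxy hy
    have hy3 : 0 ≤ K3 * y := by positivity
    have e1 : K1 * R ^ 7 * x ≤ K1 * R ^ 7 * (K3 * y) := by gcongr
    have e2 : K2 * R ^ 6 * x ≤ K2 * R ^ 7 * (K3 * y) := by gcongr
    have e3 : 0 ≤ K1 * R ^ 7 * (K3 * y) := by positivity
    have e4 : 0 ≤ K2 * R ^ 7 * (K3 * y) := by positivity
    have e5 : 2 * (K1 + K2) * K3 * R ^ 7 * y = 2 * (K1 * R ^ 7 * (K3 * y)) +
      2 * (K2 * R ^ 7 * (K3 * y)) := by ring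
    constructor <;> linarith
  have g1 := gen hl (show lam ≤ K3 * lam by nlinarith) hl
  have g2 := gen hc0 hc (by linarith : 0 ≤ lam + lam0)
  have g3 : 2 * (K1 + K2) * K3 * R ^ 7 * lam ≤ 1 := by
    refine le_trans ?_ hsm
    have : 0 ≤ 2 * (K1 + K2) * K3 * R ^ 7 := by positivity
    nlinarith
  obtain ⟨smX, kX⟩ := H1 R hR lam _ _ pX (g1.1.trans g3)
  obtain ⟨smY, kY⟩ := H1 R hR lam _ _ pY (g1.1.trans g3)
  obtain ⟨smc, kc⟩ := H2 R hR lam _ _ _ _ pX pY (g1.2.trans g3)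
  obtain ⟨smX', kX'⟩ := H1 R hR _ _ _ pX' (g2.1.trans hsm)
  obtain ⟨smY', kY'⟩ := H1 R hR _ _ _ pY' (g2.1.trans hsm)
  obtain ⟨smc', kc'⟩ := H2 R hR _ _ _ _ _ pX' pY' (g2.2.trans hsm)
  have hj : ∀ {ξ ξ1 : ℝ → ℝ}, O 4 lam0 ξ → (∀ x, HasDerivAt ξ (ξ1 x) x) → ∀ x, 0 < 1 + ξ1 x := by
    intro ξ ξ1 h h1 x
    obtain ⟨-, ξ1', h2, h3⟩ := h
    obtain rfl : ξ1' = ξ1 := funext fun x => (h2 x).unique (h1 x)
    have := abs_le.1 (h3.le x)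
    linarith
  have jX := hj hξX dξX
  have jY := hj hξY dξY
  exact
    { sm_X := smX
      sm_Y := smY
      sm_c := smc
      sm_X' := smX'
      sm_Y' := smY'
      sm_c' := smc'
      kX := kX.mono g1.1
      kY := kY.mono g1.1
      kc := kc.mono g1.2
      kX' := kX'.mono g2.1
      kY' := kY'.mono g2.1
      kc' := kc'.mono g2.2
      sX := fun x y hx hy => kw_symm smX hx hy
      sY := fun x y hx hy => kw_symm smY hx hy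
      sX' := fun x y hx hy => kw_symm smX' hx hy
      sY' := fun x y hx hy => kw_symm smY' hx hy
      wX := fun x y hx hy => comp_w smX smX' hx hy (rX x hx) (rX y hy)
      wY := fun x y hx hy => comp_w smY smY' hx hy (rY x hx) (rY y hy)
      gc := fun x y hx hy => comp_g smc smc' hx hy (rX x hx) (rY y hy)
      jX := jX
      jY := jY
      dX := comp_diag jX (one_add_iD_ne ηX1)
      dY := comp_diag jY (one_add_iD_ne ηY1) }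

end NUR2
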