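import Pool.Agent.NUP.Trans
import Pool.Agent.NUKer.Jensen

/-!
# Transport of a two component gas and Jensen's inequality (proof/NU_ABS_4 [4.7], helper73)

`W` is the weight of `p` particles `x.1 i` and `n` particles `x.2 j` in the window `[-R,R]`.
The change of variables `x.1 i = ψ(s i)`, `x.2 j = φ(t j)` multiplies the weight by `exp Θ`.
-/

set_option autoImplicit false

open MeasureTheory Set Filter Topology ENNReal NUTr NUKer

namespace NUR2

/-- configurations -/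
abbrev Cfg (p n : ℕ) : Type := (Fin p → ℝ) × (Fin n → ℝ)

variable {p n : ℕ}

/-- weight of one species -/
noncomputable def W1 {k : ℕ} (q : ℝ → ℝ → ℝ) (a : ℝ → ℝ) (s : Fin k → ℝ) : ℝ :=
  (∏ i, a (s i)) * ∏ i, ∏ j ∈ Finset.Ioi i, q (s i) (s j)

/-- the weight: pair functions `pX pY pc`, one body factors `aX aY` (Jacobians included) -/
noncomputable def W (pX pY pc : ℝ → ℝ → ℝ) (aX aY : ℝ → ℝ) (x : Cfg p n) : ℝ :=
  W1 pX aX x.1 * W1 pY aY x.2 * ∏ i, ∏ j, pc (x.1 i) (x.2 j)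

/-- the transported configuration -/
def mv (ψ φ : ℝ → ℝ) (x : Cfg p n) : Cfg p n := (fun i => ψ (x.1 i), fun j => φ (x.2 j))

/-- the window -/
def Bx (R : ℝ) : Set (Cfg p n) := {x | (∀ i, |x.1 i| ≤ R) ∧ ∀ j, |x.2 j| ≤ R}

lemma measurableSet_Bx (R : ℝ) : MeasurableSet (Bx (p := p) (n := n) R) := by
  have h1 : Bx (p := p) (n := n) R = (⋂ i, {x : Cfg p n | |x.1 i| ≤ R}) ∩ ⋂ j, {x : Cfg p n | |x.2 j| ≤ R} := by
    ext x
    simp [Bx]
  rw [h1]
  refine MeasurableSet.inter (MeasurableSet.iInter fun i => ?_) (MeasurableSet.iInter fun j => ?_)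
  · exact measurableSet_le (by fun_prop) measurable_const
  · exact measurableSet_le (by fun_prop) measurable_const

theorem lintegral_transport2 {ψ ψ' φ φ' : ℝ → ℝ} (h : Dif ψ ψ') (h' : Dif φ φ') (hm : Measurable ψ')
    (hm' : Measurable φ') {G : Cfg p n → ℝ≥0∞} (hG : Measurable G) :
    ∫⁻ x, G x = ∫⁻ x : Cfg p n, ENNReal.ofReal ((∏ i, ψ' (x.1 i)) * ∏ j, φ' (x.2 j)) * G (mv ψ φ x) := by
  have mψ : Measurable ψ := (continuous_iff_continuousAt.2 fun x => (h.der x).continuousAt).measurable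
  have mφ : Measurable φ := (continuous_iff_continuousAt.2 fun x => (h'.der x).continuousAt).measurable
  rw [Measure.volume_eq_prod, lintegral_prod _ hG.aemeasurable, lintegral_prod]
  · rw [lintegral_transport h]
    refine lintegral_congr fun s => ?_
    rw [lintegral_transport h', ← lintegral_const_mul']
    · refine lintegral_congr fun t => ?_
      rw [ENNReal.ofReal_mul (Finset.prod_nonneg fun i _ => (h.pos _).le), mul_assoc]
      rfl
    · exact ENNReal.ofReal_ne_top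
  · refine (Measurable.mul ?_ ?_).aemeasurable
    · refine ENNReal.measurable_ofReal.comp (Measurable.mul ?_ ?_)
      · exact Finset.measurable_prod _ fun i _ => hm.comp (by fun_prop)
      · exact Finset.measurable_prod _ fun i _ => hm'.comp (by fun_prop)
    · refine hG.comp ?_
      unfold mv
      fun_prop

/-- the exponent of one species: `v` one body, `κ` pair term -/
noncomputable def Th1 {k : ℕ} (v : ℝ → ℝ) (κ : ℝ → ℝ → ℝ) (s : Fin k → ℝ) : ℝ :=
  ∑ i, v (s i) + 1 / 2 * ∑ i, ∑ j, κ (s i) (s j)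

/-- the exponent -/
noncomputable def Th (vX vY : ℝ → ℝ) (κX κY κc : ℝ → ℝ → ℝ) (x : Cfg p n) : ℝ :=
  Th1 vX κX x.1 + Th1 vY κY x.2 + ∑ i, ∑ j, κc (x.1 i) (x.2 j)

/-- the transported weight of one species -/
theorem W1_transport {k : ℕ} {ψ ψ' : ℝ → ℝ} {q κ : ℝ → ℝ → ℝ} {a v : ℝ → ℝ} (s : Fin k → ℝ)
    (hp : ∀ i j, q (ψ (s i)) (ψ (s j)) = q (s i) (s j) * Real.exp (κ (s i) (s j)))
    (hs : ∀ i j, κ (s i) (s j) = κ (s j) (s i))
    (ha : ∀ i, a (ψ (s i)) * ψ' (s i) = a (s i) * Real.exp (v (s i) + 1 / 2 * κ (s i) (s i))) :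
    (∏ i, ψ' (s i)) * W1 q a (fun i => ψ (s i)) = W1 q a s * Real.exp (Th1 v κ s) := by
  have h1 : (∏ i, ψ' (s i)) * ∏ i, a (ψ (s i)) =
      (∏ i, a (s i)) * Real.exp (∑ i, (v (s i) + 1 / 2 * κ (s i) (s i))) := by
    rw [Real.exp_sum, ← Finset.prod_mul_distrib, ← Finset.prod_mul_distrib]
    exact Finset.prod_congr rfl fun i _ => by rw [mul_comm, ha]
  have h2 : ∏ i, ∏ j ∈ Finset.Ioi i, q (ψ (s i)) (ψ (s j)) =
      (∏ i, ∏ j ∈ Finset.Ioi i, q (s i) (s j)) *
        Real.exp (∑ i, ∑ j ∈ Finset.Ioi i, κ (s i) (s j)) := by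
    rw [Real.exp_sum, ← Finset.prod_mul_distrib]
    refine Finset.prod_congr rfl fun i _ => ?_
    rw [Real.exp_sum, ← Finset.prod_mul_distrib]
    exact Finset.prod_congr rfl fun j _ => hp i j
  have h4 : 1 / 2 * ∑ i, ∑ j, κ (s i) (s j) = (∑ i, 1 / 2 * κ (s i) (s i)) +
      ∑ i, ∑ j ∈ Finset.Ioi i, κ (s i) (s j) := by
    have e1 : ∀ i : Fin k, ∑ j, κ (s i) (s j) = κ (s i) (s i) +
        (∑ j ∈ Finset.Ioi i, κ (s i) (s j) + ∑ j ∈ Finset.Iio i, κ (s i) (s j)) := by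
      intro i
      have e2 : (Finset.univ : Finset (Fin k)) = insert i (Finset.Ioi i ∪ Finset.Iio i) := by
        ext j
        simp only [Finset.mem_univ, Finset.mem_insert, Finset.mem_union, Finset.mem_Ioi,
          Finset.mem_Iio, true_iff]
        rcases lt_trichotomy i j with h | h | h
        · exact Or.inr (Or.inl h)
        · exact Or.inl h.symm
        · exact Or.inr (Or.inr h)
      conv_lhs => rw [e2]
      rw [Finset.sum_insert (by simp), Finset.sum_union]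
      rw [Finset.disjoint_left]
      intro j hj hj'
      exact absurd (Finset.mem_Ioi.1 hj) (not_lt.2 (Finset.mem_Iio.1 hj').le)
    have e3 : ∑ i, ∑ j ∈ Finset.Iio i, κ (s i) (s j) = ∑ i, ∑ j ∈ Finset.Ioi i, κ (s i) (s j) := by
      have a1 : ∀ i : Fin k, ∑ j ∈ Finset.Iio i, κ (s i) (s j) = ∑ j, if j < i then κ (s i) (s j) else 0 := by
        intro i
        rw [← Finset.sum_filter]
        congr 1
        ext j
        simp
      have a2 : ∀ i : Fin k, ∑ j ∈ Finset.Ioi i, κ (s i) (s j) = ∑ j, if i < j then κ (s i) (s j) else 0 := by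
        intro i
        rw [← Finset.sum_filter]
        congr 1
        ext j
        simp
      simp_rw [a1, a2]
      rw [Finset.sum_comm]
      refine Finset.sum_congr rfl fun i _ => Finset.sum_congr rfl fun j _ => ?_
      rw [hs]
    simp_rw [e1]
    rw [Finset.sum_add_distrib, Finset.sum_add_distrib, e3, ← Finset.mul_sum]
    ring
  unfold W1 Th1
  rw [h4, ← mul_assoc, h1, h2, Finset.sum_add_distrib]
  simp only [Real.exp_add]
  ring

/-- the relation between pair functions before and after the maps, in the window -/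
def PairRel (R : ℝ) (ψ φ : ℝ → ℝ) (q κ : ℝ → ℝ → ℝ) : Prop :=
  ∀ x y, |x| ≤ R → |y| ≤ R → q (ψ x) (φ y) = q x y * Real.exp (κ x y)

/-- the relation between the one body factors before and after, in the window -/
def OneRel (R : ℝ) (ψ ψ' a v : ℝ → ℝ) (κ : ℝ → ℝ → ℝ) : Prop :=
  ∀ x, |x| ≤ R → a (ψ x) * ψ' x = a x * Real.exp (v x + 1 / 2 * κ x x)

/-- **the transported weight** -/
theorem W_transport {ψ ψ' φ φ' : ℝ → ℝ} {R : ℝ}
    {pX pY pc κX κY κc : ℝ → ℝ → ℝ} {aX aY vX vY : ℝ → ℝ} (hX : PairRel R ψ ψ pX κX)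
    (hY : PairRel R φ φ pY κY) (hc : PairRel R ψ φ pc κc)
    (sX : ∀ x y, |x| ≤ R → |y| ≤ R → κX x y = κX y x) (sY : ∀ x y, |x| ≤ R → |y| ≤ R → κY x y = κY y x)
    (oX : OneRel R ψ ψ' aX vX κX) (oY : OneRel R φ φ' aY vY κY)
    {x : Cfg p n} (hx : x ∈ Bx (p := p) (n := n) R) :
    ((∏ i, ψ' (x.1 i)) * ∏ j, φ' (x.2 j)) * W pX pY pc aX aY (mv ψ φ x) =
      W pX pY pc aX aY x * Real.exp (Th vX vY κX κY κc x) := by
  have e1 := W1_transport (v := vX) x.1 (fun i j => hX _ _ (hx.1 i) (hx.1 j))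
    (fun i j => sX _ _ (hx.1 i) (hx.1 j)) (fun i => oX _ (hx.1 i))
  have e2 := W1_transport (v := vY) x.2 (fun i j => hY _ _ (hx.2 i) (hx.2 j))
    (fun i j => sY _ _ (hx.2 i) (hx.2 j)) (fun i => oY _ (hx.2 i))
  have e3 : ∏ i, ∏ j, pc (ψ (x.1 i)) (φ (x.2 j)) =
      (∏ i, ∏ j, pc (x.1 i) (x.2 j)) * Real.exp (∑ i, ∑ j, κc (x.1 i) (x.2 j)) := by
    rw [Real.exp_sum, ← Finset.prod_mul_distrib]
    refine Finset.prod_congr rfl fun i _ => ?_
    rw [Real.exp_sum, ← Finset.prod_mul_distrib]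
    exact Finset.prod_congr rfl fun j _ => hc _ _ (hx.1 i) (hx.2 j)
  unfold W Th mv
  simp only at e1 e2 ⊢
  rw [e3, Real.exp_add, Real.exp_add]
  calc _ = ((∏ i, ψ' (x.1 i)) * W1 pX aX (fun i => ψ (x.1 i))) *
        ((∏ i, φ' (x.2 i)) * W1 pY aY (fun i => φ (x.2 i))) *
        ((∏ i, ∏ j, pc (x.1 i) (x.2 j)) * Real.exp (∑ i, ∑ j, κc (x.1 i) (x.2 j))) := by ring
    _ = _ := by
        rw [e1, e2]
        ring

lemma W_nonneg {pX pY pc : ℝ → ℝ → ℝ} (hX : ∀ x y, 0 ≤ pX x y) (hY : ∀ x y, 0 ≤ pY x y)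
    (hc : ∀ x y, 0 ≤ pc x y) {aX aY : ℝ → ℝ} (hoX : ∀ x, 0 ≤ aX x) (hoY : ∀ x, 0 ≤ aY x) (x : Cfg p n) :
    0 ≤ W pX pY pc aX aY x := by
  unfold W W1
  have h1 : 0 ≤ ∏ i, ∏ j ∈ Finset.Ioi i, pX (x.1 i) (x.1 j) :=
    Finset.prod_nonneg fun i _ => Finset.prod_nonneg fun j _ => hX _ _
  have h2 : 0 ≤ ∏ i, ∏ j ∈ Finset.Ioi i, pY (x.2 i) (x.2 j) :=
    Finset.prod_nonneg fun i _ => Finset.prod_nonneg fun j _ => hY _ _
  have h3 : 0 ≤ ∏ i, ∏ j, pc (x.1 i) (x.2 j) :=
    Finset.prod_nonneg fun i _ => Finset.prod_nonneg fun j _ => hc _ _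
  have h4 : 0 ≤ ∏ i, aX (x.1 i) := Finset.prod_nonneg fun i _ => hoX _
  have h5 : 0 ≤ ∏ i, aY (x.2 i) := Finset.prod_nonneg fun i _ => hoY _
  positivity

lemma W_meas {pX pY pc : ℝ → ℝ → ℝ} (hX : Measurable fun z : ℝ × ℝ => pX z.1 z.2)
    (hY : Measurable fun z : ℝ × ℝ => pY z.1 z.2) (hc : Measurable fun z : ℝ × ℝ => pc z.1 z.2)
    {aX aY : ℝ → ℝ} (mX : Measurable aX) (mY : Measurable aY) :
    Measurable fun x : Cfg p n => W pX pY pc aX aY x := by
  unfold W W1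
  have a1 : ∀ i, Measurable fun x : Cfg p n => x.1 i := fun i => by fun_prop
  have a2 : ∀ i, Measurable fun x : Cfg p n => x.2 i := fun i => by fun_prop
  refine ((Measurable.mul ?_ ?_).mul (Measurable.mul ?_ ?_)).mul ?_
  · exact Finset.measurable_prod _ fun i _ => mX.comp (a1 i)
  · exact Finset.measurable_prod _ fun i _ => Finset.measurable_prod _ fun j _ =>
      hX.comp ((a1 i).prodMk (a1 j))
  · exact Finset.measurable_prod _ fun i _ => mY.comp (a2 i)
  · exact Finset.measurable_prod _ fun i _ => Finset.measurable_prod _ fun j _ =>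
      hY.comp ((a2 i).prodMk (a2 j))
  · exact Finset.measurable_prod _ fun i _ => Finset.measurable_prod _ fun j _ =>
      hc.comp ((a1 i).prodMk (a2 j))

/-- the measure of the gas in the window -/
noncomputable def mu (R : ℝ) (pX pY pc : ℝ → ℝ → ℝ) (aX aY : ℝ → ℝ) : Measure (Cfg p n) :=
  (volume.restrict (Bx R)).withDensity fun x => ENNReal.ofReal (W pX pY pc aX aY x)

/-- **the transported integral** -/
theorem transport_mu {ψ ψ' φ φ' : ℝ → ℝ} (h : Dif ψ ψ') (h' : Dif φ φ') (hm : Measurable ψ')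
    (hm' : Measurable φ') {R : ℝ} (hR : ∀ x, |ψ x| ≤ R ↔ |x| ≤ R) (hR' : ∀ x, |φ x| ≤ R ↔ |x| ≤ R)
    {pX pY pc κX κY κc : ℝ → ℝ → ℝ} {aX aY vX vY : ℝ → ℝ} (hX : PairRel R ψ ψ pX κX)
    (hY : PairRel R φ φ pY κY) (hc : PairRel R ψ φ pc κc)
    (sX : ∀ x y, |x| ≤ R → |y| ≤ R → κX x y = κX y x) (sY : ∀ x y, |x| ≤ R → |y| ≤ R → κY x y = κY y x)
    (oX : OneRel R ψ ψ' aX vX κX) (oY : OneRel R φ φ' aY vY κY)
    (pX0 : ∀ x y, 0 ≤ pX x y) (pY0 : ∀ x y, 0 ≤ pY x y) (pc0 : ∀ x y, 0 ≤ pc x y)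
    (aX0 : ∀ x, 0 ≤ aX x) (aY0 : ∀ x, 0 ≤ aY x)
    (mX : Measurable fun z : ℝ × ℝ => pX z.1 z.2)
    (mY : Measurable fun z : ℝ × ℝ => pY z.1 z.2) (mc : Measurable fun z : ℝ × ℝ => pc z.1 z.2)
    (maX : Measurable aX) (maY : Measurable aY)
    {G : Cfg p n → ℝ} (hG : Measurable G) (mT : Measurable fun x : Cfg p n => Th vX vY κX κY κc x) :
    ∫⁻ x, ENNReal.ofReal (Real.exp (G x)) ∂(mu R pX pY pc aX aY) =
      ∫⁻ x, ENNReal.ofReal (Real.exp (Th vX vY κX κY κc x + G (mv ψ φ x))) ∂(mu R pX pY pc aX aY) := by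
  have mψ : Measurable ψ := (continuous_iff_continuousAt.2 fun x => (h.der x).continuousAt).measurable
  have mφ : Measurable φ := (continuous_iff_continuousAt.2 fun x => (h'.der x).continuousAt).measurable
  have mmv : Measurable fun x : Cfg p n => mv ψ φ x := by unfold mv; fun_prop
  have mW := W_meas (p := p) (n := n) mX mY mc maX maY
  have hB := measurableSet_Bx (p := p) (n := n) R
  have hmem : ∀ x : Cfg p n, mv ψ φ x ∈ Bx (p := p) (n := n) R ↔ x ∈ Bx (p := p) (n := n) R := by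
    intro x
    simp [mv, Bx, hR, hR']
  unfold mu
  rw [lintegral_withDensity_eq_lintegral_mul _ (by fun_prop) (by fun_prop),
    lintegral_withDensity_eq_lintegral_mul _ (by fun_prop) (by fun_prop),
    ← lintegral_indicator hB, ← lintegral_indicator hB,
    lintegral_transport2 h h' hm hm' (Measurable.indicator (by fun_prop) hB)]
  refine lintegral_congr fun x => ?_
  have hJ : 0 ≤ (∏ i, ψ' (x.1 i)) * ∏ j, φ' (x.2 j) :=
    mul_nonneg (Finset.prod_nonneg fun i _ => (h.pos _).le) (Finset.prod_nonneg fun i _ => (h'.pos _).le)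
  by_cases hx : x ∈ Bx (p := p) (n := n) R
  · rw [indicator_of_mem ((hmem x).2 hx), indicator_of_mem hx]
    simp only [Pi.mul_apply]
    rw [← ENNReal.ofReal_mul (W_nonneg pX0 pY0 pc0 aX0 aY0 _), ← ENNReal.ofReal_mul hJ,
      ← ENNReal.ofReal_mul (W_nonneg pX0 pY0 pc0 aX0 aY0 _)]
    congr 1
    rw [← mul_assoc, W_transport hX hY hc sX sY oX oY hx, Real.exp_add]
    ring
  · rw [indicator_of_notMem (fun h0 => hx ((hmem x).1 h0)), indicator_of_notMem hx, mul_zero]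

/-- Jensen -/
theorem jensen_lower {Ω : Type*} [MeasurableSpace Ω] {μ : Measure Ω} [IsFiniteMeasure μ] {T : Ω → ℝ}
    (hT : Integrable T μ) {a : ℝ} (ha : a * μ.real univ ≤ ∫ x, T x ∂μ) :
    ENNReal.ofReal (μ.real univ * Real.exp a) ≤ ∫⁻ x, ENNReal.ofReal (Real.exp (T x)) ∂μ := by
  have h1 : ∀ x, Real.exp a * (1 + (T x - a)) ≤ Real.exp (T x) := by
    intro x
    have h2 := Real.add_one_le_exp (T x - a)
    have h3 : Real.exp (T x) = Real.exp a * Real.exp (T x - a) := by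
      rw [← Real.exp_add]
      congr 1
      ring
    rw [h3]
    exact mul_le_mul_of_nonneg_left (by linarith) (Real.exp_pos _).le
  have hi : Integrable (fun x => Real.exp a * (1 + (T x - a))) μ :=
    ((integrable_const 1).add (hT.sub (integrable_const a))).const_mul _
  have h4 : μ.real univ * Real.exp a ≤ ∫ x, Real.exp a * (1 + (T x - a)) ∂μ := by
    have e1 : ∫ x, (1 + (T x - a)) ∂μ = μ.real univ + (∫ x, T x ∂μ - μ.real univ * a) := by
      have e2 := integral_add (integrable_const (1:ℝ)) (hT.sub (integrable_const (μ := μ) a))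
      have e3 := integral_sub hT (integrable_const (μ := μ) a)
      simp only [Pi.sub_apply] at e2
      rw [e2, e3, integral_const, integral_const]
      simp only [smul_eq_mul, mul_one]
    rw [integral_const_mul, e1, mul_comm]
    refine mul_le_mul_of_nonneg_left ?_ (Real.exp_pos _).le
    linarith
  refine (ENNReal.ofReal_le_ofReal h4).trans ?_
  refine le_trans ?_ (lintegral_mono fun x => ENNReal.ofReal_le_ofReal (h1 x))
  rw [integral_eq_lintegral_pos_part_sub_lintegral_neg_part hi]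
  refine (ENNReal.ofReal_le_ofReal (sub_le_self _ ENNReal.toReal_nonneg)).trans ?_
  exact ENNReal.ofReal_toReal_le

end NUR2
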