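import Pool.Agent.NU42.Defs
import Pool.Agent.NUR2.Core
import Pool.Agent.NUR2.DispK
import Pool.Agent.NUAct.FE

/-!
The weight `NU42.WO` as an instance of `NUR2.W`, and the pair data of the transport for the
kernels of `NUR2.Kers`.
-/

set_option autoImplicit false

open Complex Set Filter MeasureTheory

namespace NUR2

open NUKer NUOC

/-- own pair function on the displaced line -/
noncomputable def pW (D : ℝ → ℂ) (x y : ℝ) : ℝ := ‖wcx ((x + D x) - (y + D y))‖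

/-- cross pair function on the displaced lines -/
noncomputable def pG (D D' : ℝ → ℂ) (x y : ℝ) : ℝ := ‖gcx ((x + D x) - (y + D' y))‖

/-- `-log w` -/
noncomputable def Uw (u : ℝ) : ℝ := -Real.log (NUMF.w u)

/-- `-log g` -/
noncomputable def Ug (u : ℝ) : ℝ := -Real.log (NUMF.g u)

theorem W_eq {p n : ℕ} (DX DX1 DY DY1 : ℝ → ℂ) (a a' : ℝ → ℝ) (x : Cfg p n) :
    W (pW DX) (pW DY) (pG DX DY) (fun t => ‖1 + DX1 t‖ * a t) (fun t => ‖1 + DY1 t‖ * a' t) x =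
      NU42.WO DX DX1 DY DY1 a a' x.1 x.2 := by
  unfold W W1 NU42.WO NU42.ow NU42.cr NU42.ob pW pG
  ring

theorem pW_nonneg (D : ℝ → ℂ) (x y : ℝ) : 0 ≤ pW D x y := norm_nonneg _

theorem pG_nonneg (D D' : ℝ → ℂ) (x y : ℝ) : 0 ≤ pG D D' x y := norm_nonneg _

theorem pW_meas {D : ℝ → ℂ} (hD : Measurable D) : Measurable fun z : ℝ × ℝ => pW D z.1 z.2 := by
  unfold pW
  have := NU42.wcx_meas
  fun_prop

theorem pG_meas {D D' : ℝ → ℂ} (hD : Measurable D) (hD' : Measurable D') :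
    Measurable fun z : ℝ × ℝ => pG D D' z.1 z.2 := by
  unfold pG
  have := NU42.gcx_meas
  fun_prop

theorem Uw_even (u : ℝ) : Uw (-u) = Uw u := by
  unfold Uw
  rw [NUAct.w_neg]

theorem Ug_even (u : ℝ) : Ug (-u) = Ug u := by
  unfold Ug
  rw [NUAct.g_neg]

theorem Uw_meas : Measurable Uw := by
  unfold Uw NUMF.w
  fun_prop

theorem Ug_meas : Measurable Ug := by
  unfold Ug NUMF.g
  fun_prop

theorem gr_li : LocallyIntegrable (fun u : ℝ => NUAct.gr |u|) := by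
  unfold NUAct.gr
  have h1 : LocallyIntegrable (fun u : ℝ => 1 + |u|) :=
    (by fun_prop : Continuous fun u : ℝ => 1 + |u|).locallyIntegrable
  have h2 : LocallyIntegrable (fun u : ℝ => |Real.log (|u|)|) := by
    have h3 : LocallyIntegrable (fun u : ℝ => Real.log u) := by
      rw [locallyIntegrable_iff]
      intro k hk
      obtain ⟨r, hr⟩ := hk.isBounded.subset_closedBall 0
      rcases le_or_gt r 0 with h0 | h0
      · refine (IntegrableOn.of_measure_zero (s := Metric.closedBall (0:ℝ) r) ?_).mono_set hr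
        rw [Real.closedBall_eq_Icc]
        rw [Real.volume_Icc]
        simp
        linarith
      · have h4 := (intervalIntegral.intervalIntegrable_log' (a := -r) (b := r)).1
        have h5 : IntegrableOn Real.log (Icc (-r) r) := by
          rw [integrableOn_Icc_iff_integrableOn_Ioc]
          exact h4
        refine h5.mono_set ?_
        rw [Real.closedBall_eq_Icc] at hr
        simpa using hr
    have h4 : (fun u : ℝ => |Real.log (|u|)|) = fun u => ‖Real.log u‖ := by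
      funext u
      rw [Real.log_abs, Real.norm_eq_abs]
    rw [h4, locallyIntegrable_iff]
    intro k hk
    exact (h3.integrableOn_isCompact hk).norm
  exact h1.add h2

theorem li_of_gr {f : ℝ → ℝ} (hf : Measurable f) {K : ℝ}
    (h : ∀ u : ℝ, u ≠ 0 → |f u| ≤ K * NUAct.gr |u|) : LocallyIntegrable f := by
  have h1 : LocallyIntegrable (fun u : ℝ => K * NUAct.gr |u|) := gr_li.smul K
  refine h1.mono hf.aestronglyMeasurable ?_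
  have h0 : ∀ᵐ u : ℝ, u ≠ 0 := by simp [ae_iff, measure_singleton]
  filter_upwards [h0] with u hu
  rw [Real.norm_eq_abs]
  exact (h u hu).trans (le_abs_self _)

theorem Uw_li : LocallyIntegrable Uw := by
  obtain ⟨K, hK⟩ := NUAct.ks_bd
  refine li_of_gr Uw_meas (K := K) fun u hu => ?_
  have h1 := hK u hu
  unfold NUAct.ks at h1
  rw [Complex.norm_real, Real.norm_eq_abs] at h1
  exact h1

theorem Ug_li : LocallyIntegrable Ug := by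
  obtain ⟨K, hK⟩ := NUAct.kx_bd
  refine li_of_gr Ug_meas (K := K) fun u hu => ?_
  have h1 := hK u hu
  unfold NUAct.kx at h1
  rw [Complex.norm_real, Real.norm_eq_abs] at h1
  exact h1

theorem w_pos {u : ℝ} (hu : u ≠ 0) : 0 < NUMF.w u := by
  unfold NUMF.w
  have h1 := NUMF.cm_r u
  have h2 := Real.cosh_pos (2 * u)
  have h3 : Real.sinh u ≠ 0 := by
    rw [Ne, Real.sinh_eq_zero]
    exact hu
  positivity

/-- abstract pair identities -/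
theorem pair_rel {R : ℝ} {ψ φ : ℝ → ℝ} {f : ℝ → ℝ} {p k k' : ℝ → ℝ → ℝ}
    (hp : ∀ x y, |x| ≤ R → |y| ≤ R → p x y = f (x - y) * Real.exp (k x y))
    (hψ : ∀ x, |x| ≤ R → |ψ x| ≤ R) (hφ : ∀ x, |x| ≤ R → |φ x| ≤ R)
    (h : ∀ x y, |x| ≤ R → |y| ≤ R → f (ψ x - φ y) * Real.exp (k (ψ x) (φ y)) =
      f (x - y) * Real.exp (k' x y)) :
    PairRel R ψ φ p (fun x y => k' x y - k x y) := by
  intro x y hx hy
  rw [hp _ _ (hψ x hx) (hφ y hy), h x y hx hy, hp x y hx hy, mul_assoc, ← Real.exp_add]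
  congr 2
  ring

theorem pair_log {ψ φ : ℝ → ℝ} {f : ℝ → ℝ} {k k' : ℝ → ℝ → ℝ} {x y : ℝ}
    (h : f (ψ x - φ y) * Real.exp (k (ψ x) (φ y)) = f (x - y) * Real.exp (k' x y))
    (h1 : 0 < f (ψ x - φ y)) (h2 : 0 < f (x - y)) :
    -Real.log (f (ψ x - φ y)) - k (ψ x) (φ y) = -Real.log (f (x - y)) - k' x y := by
  have h3 := congrArg Real.log h
  rw [Real.log_mul h1.ne' (Real.exp_pos _).ne', Real.log_mul h2.ne' (Real.exp_pos _).ne',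
    Real.log_exp, Real.log_exp] at h3
  linarith

/-- one body identity: `a = e^V` without Jacobian, `V = E + I` in the window -/
theorem one_rel {R : ℝ} {ψ ψ' ξ1 η1 a V E I dk : ℝ → ℝ} (hψ' : ∀ x, ψ' x = 1 + ξ1 x)
    (hj : ∀ x, 0 < 1 + ξ1 x) (hR : ∀ x, |x| ≤ R → |ψ x| ≤ R)
    (hd : ∀ x, dk x = 2 * Real.log (1 + ξ1 x) +
      2 * (Real.log ‖1 + iD η1 (ψ x)‖ - Real.log ‖1 + iD η1 x‖))
    (ha : ∀ x, |x| ≤ R → a x = Real.exp (V x)) (hV : ∀ x, |x| ≤ R → V x = E x + I x)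
    {x : ℝ} (hx : |x| ≤ R) :
    (‖1 + iD η1 (ψ x)‖ * a (ψ x)) * ψ' x =
      (‖1 + iD η1 x‖ * a x) * Real.exp (E (ψ x) - E x + (I (ψ x) - I x) + 1 / 2 * dk x) := by
  have h1 : 0 < ‖1 + iD η1 (ψ x)‖ := norm_pos_iff.2 (one_add_iD_ne η1 _)
  have h2 : 0 < ‖1 + iD η1 x‖ := norm_pos_iff.2 (one_add_iD_ne η1 _)
  rw [ha _ (hR x hx), ha x hx, hψ' x, hV _ (hR x hx), hV x hx]
  have e1 : ‖1 + iD η1 (ψ x)‖ = Real.exp (Real.log ‖1 + iD η1 (ψ x)‖) := (Real.exp_log h1).symm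
  have e2 : ‖1 + iD η1 x‖ = Real.exp (Real.log ‖1 + iD η1 x‖) := (Real.exp_log h2).symm
  have e3 : 1 + ξ1 x = Real.exp (Real.log (1 + ξ1 x)) := (Real.exp_log (hj x)).symm
  rw [e1, e2, e3, hd x]
  simp only [← Real.exp_add]
  congr 1
  ring

section

variable {R Λ Λ' : ℝ} {ηX ηX1 ηY ηY1 ξX ξX1 ξY ξY1 : ℝ → ℝ}

theorem Kers.pX_eq (K : Kers R Λ Λ' ηX ηX1 ηY ηY1 ξX ξX1 ξY ξY1) (x y : ℝ) (hx : |x| ≤ R)
    (hy : |y| ≤ R) : pW (iD ηX) x y = NUMF.w (x - y) * Real.exp (kw (iD ηX) (iD ηX1) x y) :=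
  norm_wcx K.sm_X hx hy

theorem Kers.pY_eq (K : Kers R Λ Λ' ηX ηX1 ηY ηY1 ξX ξX1 ξY ξY1) (x y : ℝ) (hx : |x| ≤ R)
    (hy : |y| ≤ R) : pW (iD ηY) x y = NUMF.w (x - y) * Real.exp (kw (iD ηY) (iD ηY1) x y) :=
  norm_wcx K.sm_Y hx hy

theorem Kers.pc_eq (K : Kers R Λ Λ' ηX ηX1 ηY ηY1 ξX ξX1 ξY ξY1) (x y : ℝ) (hx : |x| ≤ R)
    (hy : |y| ≤ R) : pG (iD ηX) (iD ηY) x y = NUMF.g (x - y) * Real.exp (kg (iD ηX) (iD ηY) x y) :=
  norm_gcx K.sm_c hx hy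

variable {ψX ψY : ℝ → ℝ}

theorem Kers.relX (K : Kers R Λ Λ' ηX ηX1 ηY ηY1 ξX ξX1 ξY ξY1) (hψ : ∀ x, ψX x = x + ξX x)
    (hR : ∀ x, |x| ≤ R → |ψX x| ≤ R) :
    PairRel R ψX ψX (pW (iD ηX)) (fun x y => kw (cD ξX (iD ηX)) (cD1 ξX ξX1 (iD ηX1)) x y -
      kw (iD ηX) (iD ηX1) x y) :=
  pair_rel K.pX_eq hR hR fun x y hx hy => by
    rw [hψ, hψ]
    exact K.wX x y hx hy

theorem Kers.relY (K : Kers R Λ Λ' ηX ηX1 ηY ηY1 ξX ξX1 ξY ξY1) (hψ : ∀ x, ψY x = x + ξY x)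
    (hR : ∀ x, |x| ≤ R → |ψY x| ≤ R) :
    PairRel R ψY ψY (pW (iD ηY)) (fun x y => kw (cD ξY (iD ηY)) (cD1 ξY ξY1 (iD ηY1)) x y -
      kw (iD ηY) (iD ηY1) x y) :=
  pair_rel K.pY_eq hR hR fun x y hx hy => by
    rw [hψ, hψ]
    exact K.wY x y hx hy

theorem Kers.relc (K : Kers R Λ Λ' ηX ηX1 ηY ηY1 ξX ξX1 ξY ξY1) (hψX : ∀ x, ψX x = x + ξX x)
    (hψY : ∀ x, ψY x = x + ξY x) (hX : ∀ x, |x| ≤ R → |ψX x| ≤ R) (hY : ∀ x, |x| ≤ R → |ψY x| ≤ R) :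
    PairRel R ψX ψY (pG (iD ηX) (iD ηY)) (fun x y => kg (cD ξX (iD ηX)) (cD ξY (iD ηY)) x y -
      kg (iD ηX) (iD ηY) x y) :=
  pair_rel K.pc_eq hX hY fun x y hx hy => by
    rw [hψX, hψY]
    exact K.gc x y hx hy

/-- injectivity of `id + ξ` from the positive Jacobian -/
theorem ne_of_jac {ξ ξ1 : ℝ → ℝ} (hξ : ∀ x, HasDerivAt ξ (ξ1 x) x) (hj : ∀ x, 0 < 1 + ξ1 x) {x y : ℝ}
    (h : x ≠ y) : x + ξ x ≠ y + ξ y := by
  have hm : StrictMono fun x : ℝ => x + ξ x := by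
    refine strictMono_of_deriv_pos fun x => ?_
    have h1 : HasDerivAt (fun x : ℝ => x + ξ x) (1 + ξ1 x) x := (hasDerivAt_id x).add (hξ x)
    rw [h1.deriv]
    exact hj x
  exact hm.injective.ne h

theorem Kers.logX (K : Kers R Λ Λ' ηX ηX1 ηY ηY1 ξX ξX1 ξY ξY1) (hψ : ∀ x, ψX x = x + ξX x)
    (hξ : ∀ x, HasDerivAt ξX (ξX1 x) x) {x y : ℝ} (hx : |x| ≤ R) (hy : |y| ≤ R) (hne : x ≠ y) :
    Uw (ψX x - ψX y) - kw (iD ηX) (iD ηX1) (ψX x) (ψX y) =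
      Uw (x - y) - kw (cD ξX (iD ηX)) (cD1 ξX ξX1 (iD ηX1)) x y := by
  have h1 : ψX x - ψX y ≠ 0 := by
    rw [hψ, hψ]
    exact sub_ne_zero.2 (ne_of_jac hξ K.jX hne)
  refine pair_log (f := NUMF.w) ?_ (w_pos h1) (w_pos (sub_ne_zero.2 hne))
  rw [hψ, hψ]
  exact K.wX x y hx hy

theorem Kers.logY (K : Kers R Λ Λ' ηX ηX1 ηY ηY1 ξX ξX1 ξY ξY1) (hψ : ∀ x, ψY x = x + ξY x)
    (hξ : ∀ x, HasDerivAt ξY (ξY1 x) x) {x y : ℝ} (hx : |x| ≤ R) (hy : |y| ≤ R) (hne : x ≠ y) :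
    Uw (ψY x - ψY y) - kw (iD ηY) (iD ηY1) (ψY x) (ψY y) =
      Uw (x - y) - kw (cD ξY (iD ηY)) (cD1 ξY ξY1 (iD ηY1)) x y := by
  have h1 : ψY x - ψY y ≠ 0 := by
    rw [hψ, hψ]
    exact sub_ne_zero.2 (ne_of_jac hξ K.jY hne)
  refine pair_log (f := NUMF.w) ?_ (w_pos h1) (w_pos (sub_ne_zero.2 hne))
  rw [hψ, hψ]
  exact K.wY x y hx hy

theorem Kers.logc (K : Kers R Λ Λ' ηX ηX1 ηY ηY1 ξX ξX1 ξY ξY1) (hψX : ∀ x, ψX x = x + ξX x)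
    (hψY : ∀ x, ψY x = x + ξY x) {x y : ℝ} (hx : |x| ≤ R) (hy : |y| ≤ R) :
    Ug (ψX x - ψY y) - kg (iD ηX) (iD ηY) (ψX x) (ψY y) =
      Ug (x - y) - kg (cD ξX (iD ηX)) (cD ξY (iD ηY)) x y := by
  refine pair_log (f := NUMF.g) ?_ (NUMF.g_pos _) (NUMF.g_pos _)
  rw [hψX, hψY]
  exact K.gc x y hx hy

/-- the one body identity of the species `X` -/
theorem Kers.oneX (K : Kers R Λ Λ' ηX ηX1 ηY ηY1 ξX ξX1 ξY ξY1) (hψ : ∀ x, ψX x = x + ξX x)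
    {ψX' a V E I : ℝ → ℝ} (hψ' : ∀ x, ψX' x = 1 + ξX1 x) (hR : ∀ x, |x| ≤ R → |ψX x| ≤ R)
    (ha : ∀ x, |x| ≤ R → a x = Real.exp (V x)) (hV : ∀ x, |x| ≤ R → V x = E x + I x)
    {x : ℝ} (hx : |x| ≤ R) :
    (‖1 + iD ηX1 (ψX x)‖ * a (ψX x)) * ψX' x = (‖1 + iD ηX1 x‖ * a x) *
      Real.exp (E (ψX x) - E x + (I (ψX x) - I x) +
        1 / 2 * (kw (cD ξX (iD ηX)) (cD1 ξX ξX1 (iD ηX1)) x x - kw (iD ηX) (iD ηX1) x x)) :=
  one_rel (dk := fun x => kw (cD ξX (iD ηX)) (cD1 ξX ξX1 (iD ηX1)) x x - kw (iD ηX) (iD ηX1) x x)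
    hψ' K.jX hR (fun x => by rw [hψ]; exact K.dX x) ha hV hx

/-- the one body identity of the species `Y` -/
theorem Kers.oneY (K : Kers R Λ Λ' ηX ηX1 ηY ηY1 ξX ξX1 ξY ξY1) (hψ : ∀ x, ψY x = x + ξY x)
    {ψY' a V E I : ℝ → ℝ} (hψ' : ∀ x, ψY' x = 1 + ξY1 x) (hR : ∀ x, |x| ≤ R → |ψY x| ≤ R)
    (ha : ∀ x, |x| ≤ R → a x = Real.exp (V x)) (hV : ∀ x, |x| ≤ R → V x = E x + I x)
    {x : ℝ} (hx : |x| ≤ R) :
    (‖1 + iD ηY1 (ψY x)‖ * a (ψY x)) * ψY' x = (‖1 + iD ηY1 x‖ * a x) *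
      Real.exp (E (ψY x) - E x + (I (ψY x) - I x) +
        1 / 2 * (kw (cD ξY (iD ηY)) (cD1 ξY ξY1 (iD ηY1)) x x - kw (iD ηY) (iD ηY1) x x)) :=
  one_rel (dk := fun x => kw (cD ξY (iD ηY)) (cD1 ξY ξY1 (iD ηY1)) x x - kw (iD ηY) (iD ηY1) x x)
    hψ' K.jY hR (fun x => by rw [hψ]; exact K.dY x) ha hV hx

end

end NUR2
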