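import Mathlib

/-!
# The action of a transported two component gas, real form (proof/NU_ABS_4 [4.7], helper73)

`m` is the reference measure on the line (Lebesgue on a window), `ρ` the density, `ψ`, `φ` the maps,
`ρ + bX`, `ρ + bY` the densities pulled back: `∫ f(ψ y) (ρ + bX)(y) = ∫ f ρ`.
`K` are the pair potentials before, `Q x y = K (ψ x) (φ y)` after, `κ = K - Q`.
-/

set_option autoImplicit false

open MeasureTheory Set Filter Topology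

namespace NUR2

variable {m : Measure ℝ}

/-- integrable kernels -/
structure Ker (m : Measure ℝ) (Q : ℝ → ℝ → ℝ) : Prop where
  one : ∀ x, Integrable (Q x) m
  one' : ∀ y, Integrable (fun x => Q x y) m
  two : Integrable (fun z : ℝ × ℝ => Q z.1 z.2) (m.prod m)

lemma Ker.symm [SFinite m] {Q : ℝ → ℝ → ℝ} (h : Ker m Q) : Ker m (fun x y => Q y x) :=
  ⟨h.one', h.one, h.two.swap⟩

lemma Ker.sub {Q Q' : ℝ → ℝ → ℝ} (h : Ker m Q) (h' : Ker m Q') : Ker m (fun x y => Q x y - Q' x y) :=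
  ⟨fun x => (h.one x).sub (h'.one x), fun y => (h.one' y).sub (h'.one' y), h.two.sub h'.two⟩

/-- bounded measurable functions -/
structure Bd (m : Measure ℝ) (u : ℝ → ℝ) : Prop where
  meas : AEStronglyMeasurable u m
  bd : ∃ C : ℝ, ∀ x, ‖u x‖ ≤ C

lemma Bd.add {u v : ℝ → ℝ} (hu : Bd m u) (hv : Bd m v) : Bd m (fun x => u x + v x) := by
  obtain ⟨C, hC⟩ := hu.bd
  obtain ⟨D, hD⟩ := hv.bd
  exact ⟨hu.meas.add hv.meas, C + D, fun x => (norm_add_le _ _).trans (add_le_add (hC x) (hD x))⟩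

lemma Ker.int1 {Q : ℝ → ℝ → ℝ} (h : Ker m Q) {v : ℝ → ℝ} (hv : Bd m v) (x : ℝ) :
    Integrable (fun y => Q x y * v y) m := by
  obtain ⟨D, hD⟩ := hv.bd
  exact (h.one x).mul_bdd hv.meas (Eventually.of_forall hD)

lemma Ker.int2 [SFinite m] {Q : ℝ → ℝ → ℝ} (h : Ker m Q) {u v : ℝ → ℝ} (hu : Bd m u) (hv : Bd m v) :
    Integrable (fun z : ℝ × ℝ => u z.1 * (Q z.1 z.2 * v z.2)) (m.prod m) := by
  obtain ⟨D, hD⟩ := hv.bd
  obtain ⟨C, hC⟩ := hu.bd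
  have h1 : Integrable (fun z : ℝ × ℝ => Q z.1 z.2 * v z.2) (m.prod m) :=
    h.two.mul_bdd hv.meas.comp_snd (Eventually.of_forall fun z => hD z.2)
  exact h1.bdd_mul hu.meas.comp_fst (Eventually.of_forall fun z => hC z.1)

/-- the bilinear form -/
noncomputable def TT (m : Measure ℝ) (Q : ℝ → ℝ → ℝ) (u v : ℝ → ℝ) : ℝ :=
  ∫ x, u x * (∫ y, Q x y * v y ∂m) ∂m

lemma Ker.intT [SFinite m] {Q : ℝ → ℝ → ℝ} (h : Ker m Q) {u v : ℝ → ℝ} (hu : Bd m u) (hv : Bd m v) :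
    Integrable (fun x => u x * (∫ y, Q x y * v y ∂m)) m := by
  refine (h.int2 hu hv).integral_prod_left.congr (Eventually.of_forall fun x => ?_)
  simp only
  rw [integral_const_mul]

lemma Ker.TT_eq [SFinite m] {Q : ℝ → ℝ → ℝ} (h : Ker m Q) {u v : ℝ → ℝ} (hu : Bd m u) (hv : Bd m v) :
    TT m Q u v = ∫ z : ℝ × ℝ, u z.1 * (Q z.1 z.2 * v z.2) ∂(m.prod m) := by
  rw [integral_prod _ (h.int2 hu hv)]
  unfold TT
  refine integral_congr_ae (Eventually.of_forall fun x => ?_)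
  simp only
  rw [integral_const_mul]

lemma Ker.TT_symm [SFinite m] {Q : ℝ → ℝ → ℝ} (h : Ker m Q) {u v : ℝ → ℝ} (hu : Bd m u) (hv : Bd m v) :
    TT m Q u v = TT m (fun x y => Q y x) v u := by
  rw [h.TT_eq hu hv, h.symm.TT_eq hv hu, ← integral_prod_swap]
  refine integral_congr_ae (Eventually.of_forall fun z => ?_)
  simp only [Prod.fst_swap, Prod.snd_swap]
  ring

lemma Ker.TT_add_left [SFinite m] {Q : ℝ → ℝ → ℝ} (h : Ker m Q) {u u' v : ℝ → ℝ} (hu : Bd m u)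
    (hu' : Bd m u') (hv : Bd m v) :
    TT m Q (fun x => u x + u' x) v = TT m Q u v + TT m Q u' v := by
  unfold TT
  simp only [add_mul]
  exact integral_add (h.intT hu hv) (h.intT hu' hv)

lemma Ker.TT_add_right [SFinite m] {Q : ℝ → ℝ → ℝ} (h : Ker m Q) {u v v' : ℝ → ℝ} (hu : Bd m u)
    (hv : Bd m v) (hv' : Bd m v') :
    TT m Q u (fun x => v x + v' x) = TT m Q u v + TT m Q u v' := by
  unfold TT
  rw [← integral_add (h.intT hu hv) (h.intT hu hv')]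
  refine integral_congr_ae (Eventually.of_forall fun x => ?_)
  simp only [mul_add]
  rw [integral_add (h.int1 hv x) (h.int1 hv' x)]
  ring

lemma Ker.TT_sub [SFinite m] {Q Q' : ℝ → ℝ → ℝ} (h : Ker m Q) (h' : Ker m Q') {u v : ℝ → ℝ} (hu : Bd m u)
    (hv : Bd m v) : TT m (fun x y => Q x y - Q' x y) u v = TT m Q u v - TT m Q' u v := by
  unfold TT
  rw [← integral_sub (h.intT hu hv) (h'.intT hu hv)]
  refine integral_congr_ae (Eventually.of_forall fun x => ?_)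
  simp only [sub_mul]
  rw [integral_sub (h.int1 hv x) (h'.int1 hv x)]
  ring

/-- the setting of one pair of species: maps `ψ` (first), `φ` (second); `A` is the window -/
structure Pair (m : Measure ℝ) (A : Set ℝ) (ψ φ ρ b c : ℝ → ℝ) (K Q : ℝ → ℝ → ℝ) : Prop where
  mem : ∀ᵐ x ∂m, x ∈ A
  hK : Ker m K
  hQ : Ker m Q
  cov : ∀ f : ℝ → ℝ, ∫ y, f (ψ y) * (ρ y + b y) ∂m = ∫ y, f y * ρ y ∂m
  cov' : ∀ f : ℝ → ℝ, ∫ y, f (φ y) * (ρ y + c y) ∂m = ∫ y, f y * ρ y ∂m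
  eq : ∀ x ∈ A, ∀ᵐ y ∂m, K (ψ x) (φ y) = Q x y
  eq' : ∀ y ∈ A, ∀ᵐ x ∂m, K (ψ x) (φ y) = Q x y
  bρ : Bd m ρ
  bb : Bd m b
  bc : Bd m c

variable {ψ φ ρ b c : ℝ → ℝ} {K Q : ℝ → ℝ → ℝ} {A : Set ℝ}

lemma Pair.conv (P : Pair m A ψ φ ρ b c K Q) {x : ℝ} (hx : x ∈ A) :
    ∫ y, K (ψ x) y * ρ y ∂m = (∫ y, Q x y * ρ y ∂m) + ∫ y, Q x y * c y ∂m := by
  rw [← P.cov' (fun y => K (ψ x) y), ← integral_add (P.hQ.int1 P.bρ x) (P.hQ.int1 P.bc x)]
  refine integral_congr_ae ?_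
  filter_upwards [P.eq x hx] with y hy
  rw [hy]
  ring

lemma Pair.conv' (P : Pair m A ψ φ ρ b c K Q) {y : ℝ} (hy0 : y ∈ A) :
    ∫ x, K x (φ y) * ρ x ∂m = (∫ x, Q x y * ρ x ∂m) + ∫ x, Q x y * b x ∂m := by
  have h1 : Integrable (fun x => Q x y * ρ x) m := by
    obtain ⟨D, hD⟩ := P.bρ.bd
    exact (P.hQ.one' y).mul_bdd P.bρ.meas (Eventually.of_forall hD)
  have h2 : Integrable (fun x => Q x y * b x) m := by
    obtain ⟨D, hD⟩ := P.bb.bd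
    exact (P.hQ.one' y).mul_bdd P.bb.meas (Eventually.of_forall hD)
  rw [← P.cov (fun x => K x (φ y)), ← integral_add h1 h2]
  refine integral_congr_ae ?_
  filter_upwards [P.eq' y hy0] with x hx
  rw [hx]
  ring

/-- the double integral of `κ = K - Q` against `ρ ρ` -/
theorem Pair.double [SFinite m] (P : Pair m A ψ φ ρ b c K Q) :
    TT m (fun x y => K x y - Q x y) ρ ρ = TT m Q ρ c + TT m Q b ρ + TT m Q b c := by
  have h1 : TT m K ρ ρ = TT m Q (fun x => ρ x + b x) (fun x => ρ x + c x) := by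
    unfold TT
    have e1 := P.cov (fun x => ∫ y, K x y * ρ y ∂m)
    have e2 : ∫ x, ρ x * (∫ y, K x y * ρ y ∂m) ∂m = ∫ x, (∫ y, K x y * ρ y ∂m) * ρ x ∂m :=
      integral_congr_ae (Eventually.of_forall fun x => mul_comm _ _)
    rw [e2, ← e1]
    refine integral_congr_ae ?_
    filter_upwards [P.mem] with x hx
    rw [P.conv hx, mul_comm]
    congr 1
    rw [← integral_add (P.hQ.int1 P.bρ x) (P.hQ.int1 P.bc x)]
    refine integral_congr_ae (Eventually.of_forall fun y => ?_)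
    simp only
    ring
  rw [P.hK.TT_sub P.hQ P.bρ P.bρ, h1, P.hQ.TT_add_left P.bρ P.bb (P.bρ.add P.bc),
    P.hQ.TT_add_right P.bρ P.bρ P.bc, P.hQ.TT_add_right P.bb P.bρ P.bc]
  ring

/-- the linear term, first species -/
noncomputable def Lin (m : Measure ℝ) (V ψ ρ : ℝ → ℝ) (κ κc : ℝ → ℝ → ℝ) (x : ℝ) : ℝ :=
  V (ψ x) - V x + (∫ y, κ x y * ρ y ∂m) + ∫ y, κc x y * ρ y ∂m

/-- **linear term** -/
theorem lin_eq {ψX ψY bX bY : ℝ → ℝ} {KX QX Kc Qc : ℝ → ℝ → ℝ} (PX : Pair m A ψX ψX ρ bX bX KX QX)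
    (Pc : Pair m A ψX ψY ρ bX bY Kc Qc) {V E : ℝ → ℝ} {x : ℝ} (hx : x ∈ A)
    (h1 : V x = E x + (∫ y, KX x y * ρ y ∂m) + ∫ y, Kc x y * ρ y ∂m)
    (h2 : V (ψX x) = E (ψX x) + (∫ y, KX (ψX x) y * ρ y ∂m) + ∫ y, Kc (ψX x) y * ρ y ∂m) :
    Lin m V ψX ρ (fun x y => KX x y - QX x y) (fun x y => Kc x y - Qc x y) x =
      E (ψX x) - E x + (∫ y, QX x y * bX y ∂m) + ∫ y, Qc x y * bY y ∂m := by
  unfold Lin
  rw [h1, h2, PX.conv hx, Pc.conv hx]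
  have e1 : ∫ y, (KX x y - QX x y) * ρ y ∂m = (∫ y, KX x y * ρ y ∂m) - ∫ y, QX x y * ρ y ∂m := by
    rw [← integral_sub (PX.hK.int1 PX.bρ x) (PX.hQ.int1 PX.bρ x)]
    refine integral_congr_ae (Eventually.of_forall fun y => ?_)
    simp only
    ring
  have e2 : ∫ y, (Kc x y - Qc x y) * ρ y ∂m = (∫ y, Kc x y * ρ y ∂m) - ∫ y, Qc x y * ρ y ∂m := by
    rw [← integral_sub (Pc.hK.int1 Pc.bρ x) (Pc.hQ.int1 Pc.bρ x)]
    refine integral_congr_ae (Eventually.of_forall fun y => ?_)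
    simp only
    ring
  rw [e1, e2]
  ring

lemma Pair.flip [SFinite m] (P : Pair m A ψ φ ρ b c K Q) :
    Pair m A φ ψ ρ c b (fun x y => K y x) (fun x y => Q y x) :=
  ⟨P.mem, P.hK.symm, P.hQ.symm, P.cov', P.cov, P.eq', P.eq, P.bρ, P.bc, P.bb⟩

/-- **constant term**: `LX`, `LY` are the linear terms -/
theorem const_eq [SFinite m] {ψX ψY bX bY : ℝ → ℝ} {KX QX KY QY Kc Qc : ℝ → ℝ → ℝ}
    (PX : Pair m A ψX ψX ρ bX bX KX QX) (PY : Pair m A ψY ψY ρ bY bY KY QY)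
    (Pc : Pair m A ψX ψY ρ bX bY Kc Qc) (sX : ∀ x y, QX x y = QX y x) (sY : ∀ x y, QY x y = QY y x)
    {LX LY eX eY : ℝ → ℝ}
    (hLX : ∀ᵐ x ∂m, LX x = eX x + (∫ y, QX x y * bX y ∂m) + ∫ y, Qc x y * bY y ∂m)
    (hLY : ∀ᵐ x ∂m, LY x = eY x + (∫ y, QY x y * bY y ∂m) + ∫ y, Qc y x * bX y ∂m)
    (ieX : Integrable (fun x => ρ x * eX x) m) (ieY : Integrable (fun x => ρ x * eY x) m) :
    (∫ x, ρ x * LX x ∂m) + (∫ x, ρ x * LY x ∂m) - 1 / 2 * TT m (fun x y => KX x y - QX x y) ρ ρ -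
      1 / 2 * TT m (fun x y => KY x y - QY x y) ρ ρ - TT m (fun x y => Kc x y - Qc x y) ρ ρ =
    (∫ x, ρ x * eX x ∂m) + (∫ x, ρ x * eY x ∂m) - 1 / 2 * TT m QX bX bX - 1 / 2 * TT m QY bY bY -
      TT m Qc bX bY := by
  have e1 : ∫ x, ρ x * LX x ∂m = (∫ x, ρ x * eX x ∂m) + TT m QX ρ bX + TT m Qc ρ bY := by
    have h1 : ∫ x, ρ x * LX x ∂m = ∫ x, ((ρ x * eX x + ρ x * ∫ y, QX x y * bX y ∂m) +
        ρ x * ∫ y, Qc x y * bY y ∂m) ∂m := by
      refine integral_congr_ae ?_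
      filter_upwards [hLX] with x hx
      rw [hx]
      ring
    have a1 := integral_add (ieX.add (PX.hQ.intT PX.bρ PX.bb)) (Pc.hQ.intT Pc.bρ Pc.bc)
    have a2 := integral_add ieX (PX.hQ.intT PX.bρ PX.bb)
    simp only [Pi.add_apply] at a1
    rw [h1, a1, a2]
    rfl
  have e2 : ∫ x, ρ x * LY x ∂m = (∫ x, ρ x * eY x ∂m) + TT m QY ρ bY + TT m (fun x y => Qc y x) ρ bX := by
    have h1 : ∫ x, ρ x * LY x ∂m = ∫ x, ((ρ x * eY x + ρ x * ∫ y, QY x y * bY y ∂m) +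
        ρ x * ∫ y, Qc y x * bX y ∂m) ∂m := by
      refine integral_congr_ae ?_
      filter_upwards [hLY] with x hx
      rw [hx]
      ring
    have a1 := integral_add (ieY.add (PY.hQ.intT PY.bρ PY.bb)) (Pc.hQ.symm.intT Pc.bρ Pc.bb)
    have a2 := integral_add ieY (PY.hQ.intT PY.bρ PY.bb)
    simp only [Pi.add_apply] at a1
    rw [h1, a1, a2]
    rfl
  have s1 : TT m QX bX ρ = TT m QX ρ bX := by
    rw [PX.hQ.TT_symm PX.bb PX.bρ]
    congr 1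
    funext x y
    exact sX _ _
  have s2 : TT m QY bY ρ = TT m QY ρ bY := by
    rw [PY.hQ.TT_symm PY.bb PY.bρ]
    congr 1
    funext x y
    exact sY _ _
  have s3 : TT m (fun x y => Qc y x) ρ bX = TT m Qc bX ρ := by
    rw [Pc.hQ.TT_symm Pc.bb Pc.bρ]
  rw [e1, e2, PX.double, PY.double, Pc.double, s1, s2, s3]
  ring

end NUR2
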