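import Pool.Agent.NUR2.Main

/-!
# R2: assembly (helper73)
-/

set_option autoImplicit false

open MeasureTheory Set Filter Topology NUKer NUTr

namespace NUR2

variable {p n : ℕ} {R Λ l1 l2 S N1 : ℝ} {ρ F' ψX ψX' ψY ψY' Us Uc aX aY EX EY χ : ℝ → ℝ}
  {qX qY qc kX kX' kY kY' kc kc' : ℝ → ℝ → ℝ}

/-- all hypotheses, continuous symmetric kernels -/
structure Hyp (p n : ℕ) (R Λ l1 l2 S : ℝ) (ρ F' ψX ψX' ψY ψY' Us Uc aX aY EX EY χ : ℝ → ℝ)
    (qX qY qc kX kX' kY kY' kc kc' : ℝ → ℝ → ℝ) : Prop where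
  T : Tr R ρ F' ψX ψX' ψY ψY'
  PX : Pk R Λ ψX ψX Us qX kX kX'
  PY : Pk R Λ ψY ψY Us qY kY kY'
  Pc : Pk R Λ ψX ψY Uc qc kc kc'
  sX : ∀ x y, |x| ≤ R → |y| ≤ R → kX x y = kX y x
  sX' : ∀ x y, |x| ≤ R → |y| ≤ R → kX' x y = kX' y x
  sY : ∀ x y, |x| ≤ R → |y| ≤ R → kY x y = kY y x
  sY' : ∀ x y, |x| ≤ R → |y| ≤ R → kY' x y = kY' y x
  OX : OB R l1 ψX ψX' aX EX (IX R ρ Us Uc kX kc) kX kX'
  OY : OB R l1 ψY ψY' aY EY (IY R ρ Us Uc kY kc) kY kY'
  cχ : Continuous χ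
  χX : KC R l2 (fun x _ => ((χ (ψX x) - χ x : ℝ) : ℂ))
  χY : KC R l2 (fun x _ => ((χ (ψY x) - χ x : ℝ) : ℂ))
  fin : IsFiniteMeasure (mu (p := p) (n := n) R qX qY qc aX aY)
  rig : Rig (mu (p := p) (n := n) R qX qY qc aX aY) R ρ S

/-- the odd part -/
noncomputable def ell (μ : Measure (Cfg p n)) (R : ℝ) (ρ F' Us Uc EX EY χ : ℝ → ℝ) : ℝ :=
  ((∫ y, F' y * EY y ∂(mW R)) - ∫ y, F' y * EX y ∂(mW R)) +
    ((∫ x, nu R ρ x.1 (Lf R Us Uc F' χ) ∂μ) - ∫ x, nu R ρ x.2 (Lf R Us Uc F' χ) ∂μ) / μ.real univ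

/-- the error -/
noncomputable def err (Λ l1 l2 S N : ℝ) : ℝ :=
  2 * S * (l1 + l2 + 2 * Λ * N) + 4 * S * Λ + 2 * (l1 + l2) * N + 2 * Λ * N ^ 2

lemma abs_le_sub {a b : ℝ} (h : |a| ≤ b) : -b ≤ a ∧ a ≤ b := abs_le.1 h

set_option maxHeartbeats 2000000 in
theorem r2core0 (H : Hyp p n R Λ l1 l2 S ρ F' ψX ψX' ψY ψY' Us Uc aX aY EX EY χ qX qY qc kX kX' kY kY' kc kc')
    (cX : Continuous fun z : ℝ × ℝ => kX z.1 z.2) (cX' : Continuous fun z : ℝ × ℝ => kX' z.1 z.2)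
    (cY : Continuous fun z : ℝ × ℝ => kY z.1 z.2) (cY' : Continuous fun z : ℝ × ℝ => kY' z.1 z.2)
    (cc : Continuous fun z : ℝ × ℝ => kc z.1 z.2) (cc' : Continuous fun z : ℝ × ℝ => kc' z.1 z.2)
    (sX : ∀ x y, kX x y = kX y x) (sX' : ∀ x y, kX' x y = kX' y x)
    (sY : ∀ x y, kY x y = kY y x) (sY' : ∀ x y, kY' x y = kY' y x) :
    ENNReal.ofReal ((mu (p := p) (n := n) R qX qY qc aX aY).real univ *
      Real.exp ((-2 * (∫ y, F' y * χ y ∂(mW R)) - TT (mW R) (fun x y => Us (x - y) - Uc (x - y)) F' F') +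
        ell (mu (p := p) (n := n) R qX qY qc aX aY) R ρ F' Us Uc EX EY χ -
        err Λ l1 l2 S (∫ y, |F' y| ∂(mW R)))) ≤
    ∫⁻ x, ENNReal.ofReal (Real.exp (∑ i, χ (x.1 i) - ∑ j, χ (x.2 j)))
      ∂(mu (p := p) (n := n) R qX qY qc aX aY) := by
  obtain ⟨T, PX, PY, Pc, -, -, -, -, OX, OY, cχ, hχX, hχY, hfin, rig⟩ := H
  have hR := T.R0.le
  have cρ := T.cρ
  set μ : Measure (Cfg p n) := mu (p := p) (n := n) R qX qY qc aX aY with hμ
  set N : ℝ := ∫ y, |F' y| ∂(mW R) with hN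
  have cψX : Continuous ψX := continuous_iff_continuousAt.2 fun x => (T.dX.der x).continuousAt
  have cψY : Continuous ψY := continuous_iff_continuousAt.2 fun x => (T.dY.der x).continuousAt
  -- kernels
  set κX : ℝ → ℝ → ℝ := fun x y => kX' x y - kX x y with hκX
  set κY : ℝ → ℝ → ℝ := fun x y => kY' x y - kY x y with hκY
  set κc : ℝ → ℝ → ℝ := fun x y => kc' x y - kc x y with hκc
  have cκX : Continuous fun z : ℝ × ℝ => κX z.1 z.2 := cX'.sub cX
  have cκY : Continuous fun z : ℝ × ℝ => κY z.1 z.2 := cY'.sub cY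
  have cκc : Continuous fun z : ℝ × ℝ => κc z.1 z.2 := cc'.sub cc
  have sκX : ∀ x y, κX x y = κX y x := fun x y => by simp only [hκX]; rw [sX, sX']
  have sκY : ∀ x y, κY x y = κY y x := fun x y => by simp only [hκY]; rw [sY, sY']
  have KκX : KC R (2 * Λ) (fun t t' => (κX t t' : ℂ)) :=
    ((PX.kc'.sub PX.kc).mono (le_of_eq (by ring))).congr fun t t' _ _ => by simp only [hκX]; push_cast; ring
  have KκY : KC R (2 * Λ) (fun t t' => (κY t t' : ℂ)) :=
    ((PY.kc'.sub PY.kc).mono (le_of_eq (by ring))).congr fun t t' _ _ => by simp only [hκY]; push_cast; ring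
  have Kκc : KC R (2 * Λ) (fun t t' => (κc t t' : ℂ)) :=
    ((Pc.kc'.sub Pc.kc).mono (le_of_eq (by ring))).congr fun t t' _ _ => by simp only [hκc]; push_cast; ring
  -- one body functions
  set v1 := vX R ρ F' ψX Us Uc EX kX kX' kc kc' with hv1
  set v2 := vY R ρ F' ψY Us Uc EY kY kY' kc kc' with hv2
  have cUs := conv_cont PX.li T.cF T.sF
  have cUc := conv_cont Pc.li T.cF T.sF
  have cEψX : Continuous fun y => EX (ψX y) := OX.cE.comp cψX
  have cEψY : Continuous fun y => EY (ψY y) := OY.cE.comp cψY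
  have cχX : Continuous fun y => χ (ψX y) := cχ.comp cψX
  have cχY : Continuous fun y => χ (ψY y) := cχ.comp cψY
  have cgX := cont_mW (F' := F') hR cX' T.cF
  have cgY := cont_mW (F' := F') hR cY' T.cF
  have cgc := cont_mW (F' := F') hR cc' T.cF
  have cgc' := cont_mW' (F' := F') hR cc' T.cF
  have cv1 : Continuous v1 := by
    rw [hv1]
    exact (((((cEψX.sub OX.cE).add (cUs.sub cUc)).sub cgX).add cgc).sub (cont_conv cκX cρ)).sub
      (cont_conv cκc cρ)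
  have cv2 : Continuous v2 := by
    rw [hv2]
    exact (((((cEψY.sub OY.cE).sub (cUs.sub cUc)).add cgY).sub cgc').sub (cont_conv cκY cρ)).sub
      (cont_conv' cκc cρ)
  have oX : OneRel R ψX ψX' aX v1 κX := by
    intro x hx
    rw [OX.rel x hx, hv1, vX_eq T PX Pc cX cX' cc cc' hx]
  have oY : OneRel R ψY ψY' aY v2 κY := by
    intro x hx
    rw [OY.rel x hx, hv2, vY_eq T PY Pc cY cY' cc cc' hx]
  -- the transported integral
  set G : Cfg p n → ℝ := fun x => ∑ i, χ (x.1 i) - ∑ j, χ (x.2 j) with hG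
  have cTh : Continuous fun x : Cfg p n => Th v1 v2 κX κY κc x := by
    unfold Th Th1
    refine Continuous.add (Continuous.add (Continuous.add ?_ (continuous_const.mul ?_))
      (Continuous.add ?_ (continuous_const.mul ?_))) ?_
    · exact continuous_finsetSum _ fun i _ => cv1.comp (by fun_prop)
    · exact continuous_finsetSum _ fun i _ => continuous_finsetSum _ fun j _ =>
        cκX.comp (by fun_prop : Continuous fun x : Cfg p n => (x.1 i, x.1 j))
    · exact continuous_finsetSum _ fun i _ => cv2.comp (by fun_prop)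
    · exact continuous_finsetSum _ fun i _ => continuous_finsetSum _ fun j _ =>
        cκY.comp (by fun_prop : Continuous fun x : Cfg p n => (x.2 i, x.2 j))
    · exact continuous_finsetSum _ fun i _ => continuous_finsetSum _ fun j _ =>
        cκc.comp (by fun_prop : Continuous fun x : Cfg p n => (x.1 i, x.2 j))
  have cG : Continuous G := by
    rw [hG]
    fun_prop
  have cmv : Continuous fun x : Cfg p n => mv ψX ψY x := by
    unfold mv
    fun_prop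
  have htr := transport_mu (p := p) (n := n) (κX := κX) (κY := κY) (κc := κc) (G := G) T.dX T.dY T.mX T.mY T.bX T.bY PX.rel PY.rel Pc.rel
    (fun x y _ _ => sκX x y) (fun x y _ _ => sκY x y) oX oY PX.q0 PY.q0 Pc.q0 OX.a0 OY.a0
    PX.qm PY.qm Pc.qm OX.am OY.am cG.measurable cTh.measurable
  refine le_trans ?_ (le_of_eq htr.symm)
  -- decomposition
  set f1 := LX R ρ v1 κX κc with hf1
  set f2 := LX R ρ v2 κY (fun y x => κc x y) with hf2
  have cf1 : Continuous f1 := by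
    rw [hf1]
    exact (cv1.add (cont_conv cκX cρ)).add (cont_conv cκc cρ)
  have cf2 : Continuous f2 := by
    rw [hf2]
    exact (cv2.add (cont_conv cκY cρ)).add (cont_conv' cκc cρ)
  set L := Lf R Us Uc F' χ with hL
  have cL : Continuous L := by
    rw [hL]
    exact cχ.add (cUs.sub cUc)
  set r1 : ℝ → ℝ := fun x => (EX (ψX x) - EX x) + (χ (ψX x) - χ x) -
    (∫ y, kX' x y * F' y ∂(mW R)) + (∫ y, kc' x y * F' y ∂(mW R)) with hr1
  set r2 : ℝ → ℝ := fun y => (EY (ψY y) - EY y) - (χ (ψY y) - χ y) +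
    (∫ z, kY' y z * F' z ∂(mW R)) - (∫ x, kc' x y * F' x ∂(mW R)) with hr2
  have cr1 : Continuous r1 := (((cEψX.sub OX.cE).add (cχX.sub cχ)).sub cgX).add cgc
  have cr2 : Continuous r2 := (((cEψY.sub OY.cE).sub (cχY.sub cχ)).add cgY).sub cgc'
  have d1 : ∀ x, f1 x + χ (ψX x) = L x + r1 x := by
    intro x
    rw [hf1, hv1, hκX, hκc, LX_eq]
    simp only [hL, Lf, hr1]
    ring
  have d2 : ∀ x, f2 x - χ (ψY x) = r2 x - L x := by
    intro x
    rw [hf2, hv2, hκY, hκc, LY_eq]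
    simp only [hL, Lf, hr2]
    ring
  set S0 : ℝ := ((∫ y in (-R)..R, f1 y * ρ y) + (∫ y in (-R)..R, f2 y * ρ y) -
      1 / 2 * (∫ y in (-R)..R, (∫ x in (-R)..R, κX x y * ρ x) * ρ y) -
      1 / 2 * (∫ y in (-R)..R, (∫ x in (-R)..R, κY x y * ρ x) * ρ y) -
      ∫ x in (-R)..R, (∫ y in (-R)..R, κc x y * ρ y) * ρ x) +
      ((∫ y in (-R)..R, χ (ψX y) * ρ y) - ∫ y in (-R)..R, χ (ψY y) * ρ y) with hS0
  have hdec : ∀ x : Cfg p n, Th v1 v2 κX κY κc x + G (mv ψX ψY x) =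
      ((nu R ρ x.1 L - nu R ρ x.2 L) + (nu R ρ x.1 r1 + nu R ρ x.2 r2)) +
      (1 / 2 * nu2 R ρ ρ x.1 x.1 κX + 1 / 2 * nu2 R ρ ρ x.2 x.2 κY + nu2 R ρ ρ x.1 x.2 κc) + S0 := by
    intro x
    have e1 := Th_split (p := p) (n := n) (R := R) cρ cv1 cv2 cκX cκY cκc sκX sκY x
    rw [← hf1, ← hf2] at e1
    have e2 : G (mv ψX ψY x) = (nu R ρ x.1 (fun t => χ (ψX t)) + ∫ y in (-R)..R, χ (ψX y) * ρ y) -
        (nu R ρ x.2 (fun t => χ (ψY t)) + ∫ y in (-R)..R, χ (ψY y) * ρ y) := by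
      simp only [hG, mv, nu]
      ring
    have e3 : nu R ρ x.1 f1 + nu R ρ x.1 (fun t => χ (ψX t)) = nu R ρ x.1 L + nu R ρ x.1 r1 := by
      rw [← nu_add cρ cf1 cχX, ← nu_add cρ cL cr1]
      congr 1
      funext t
      exact d1 t
    have e4 : nu R ρ x.2 f2 - nu R ρ x.2 (fun t => χ (ψY t)) = nu R ρ x.2 r2 - nu R ρ x.2 L := by
      rw [← nu_sub cρ cf2 cχY, ← nu_sub cρ cr2 cL]
      congr 1
      funext t
      exact d2 t
    rw [e1, e2, hS0]
    linarith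
  simp only [hdec]
  -- integrals
  have : IsFiniteMeasure μ := hfin
  set Z : ℝ := μ.real univ with hZ
  have hZ0 : 0 ≤ Z := measureReal_nonneg
  have i1 : Integrable (fun x : Cfg p n => nu R ρ x.1 L) μ := int_mu (nu_contX cL)
  have i2 : Integrable (fun x : Cfg p n => nu R ρ x.2 L) μ := int_mu (nu_contY cL)
  have i3 : Integrable (fun x : Cfg p n => nu R ρ x.1 r1) μ := int_mu (nu_contX cr1)
  have i4 : Integrable (fun x : Cfg p n => nu R ρ x.2 r2) μ := int_mu (nu_contY cr2)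
  have i5 : Integrable (fun x : Cfg p n => nu2 R ρ ρ x.1 x.1 κX) μ := int_mu (nu2_contXX cρ cκX)
  have i6 : Integrable (fun x : Cfg p n => nu2 R ρ ρ x.2 x.2 κY) μ := int_mu (nu2_contYY cρ cκY)
  have i7 : Integrable (fun x : Cfg p n => nu2 R ρ ρ x.1 x.2 κc) μ := int_mu (nu2_contXY cρ cκc)
  have iT : Integrable (fun x : Cfg p n => ((nu R ρ x.1 L - nu R ρ x.2 L) + (nu R ρ x.1 r1 + nu R ρ x.2 r2)) +
      (1 / 2 * nu2 R ρ ρ x.1 x.1 κX + 1 / 2 * nu2 R ρ ρ x.2 x.2 κY + nu2 R ρ ρ x.1 x.2 κc) + S0) μ :=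
    (((i1.sub i2).add (i3.add i4)).add (((i5.const_mul _).add (i6.const_mul _)).add i7)).add
      (integrable_const _)
  have hint : ∫ x : Cfg p n, ((nu R ρ x.1 L - nu R ρ x.2 L) + (nu R ρ x.1 r1 + nu R ρ x.2 r2)) +
      (1 / 2 * nu2 R ρ ρ x.1 x.1 κX + 1 / 2 * nu2 R ρ ρ x.2 x.2 κY + nu2 R ρ ρ x.1 x.2 κc) + S0 ∂μ =
      ((∫ x, nu R ρ x.1 L ∂μ) - ∫ x, nu R ρ x.2 L ∂μ) +
      ((∫ x, nu R ρ x.1 r1 ∂μ) + ∫ x, nu R ρ x.2 r2 ∂μ) +
      (1 / 2 * (∫ x, nu2 R ρ ρ x.1 x.1 κX ∂μ) + 1 / 2 * (∫ x, nu2 R ρ ρ x.2 x.2 κY ∂μ) +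
        ∫ x, nu2 R ρ ρ x.1 x.2 κc ∂μ) + S0 * Z := by
    have a1 := integral_add (((i1.sub i2).add (i3.add i4)).add (((i5.const_mul (1/2)).add (i6.const_mul (1/2))).add i7))
      (integrable_const (μ := μ) S0)
    have a2 := integral_add ((i1.sub i2).add (i3.add i4)) (((i5.const_mul (1/2)).add (i6.const_mul (1/2))).add i7)
    have a3 := integral_add (i1.sub i2) (i3.add i4)
    have a4 := integral_sub i1 i2
    have a5 := integral_add i3 i4
    have a6 := integral_add ((i5.const_mul (1/2)).add (i6.const_mul (1/2))) i7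
    have a7 := integral_add (i5.const_mul (1/2)) (i6.const_mul (1/2))
    simp only [Pi.add_apply, Pi.sub_apply] at a1 a2 a3 a4 a5 a6 a7
    rw [a1, a2, a3, a4, a5, a6, a7, integral_const_mul, integral_const_mul, integral_const, smul_eq_mul,
      mul_comm S0]
  -- the value of `S0`
  have hS := S0_eq (EX := EX) (EY := EY) (χ := χ) T PX PY Pc cX cX' cY cY' cc cc' sX sX' sY sY' OX.cE OY.cE cχ
  rw [← hv1, ← hv2] at hS
  have hS' : S0 = _ := hS
  -- bounds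
  have hΛ := PX.kc.nonneg
  have hN0 : 0 ≤ N := integral_nonneg fun y => abs_nonneg _
  have kgX := kc_int hR cX' PX.kc' T.cF
  have kgY := kc_int hR cY' PY.kc' T.cF
  have kgc := kc_int hR cc' Pc.kc' T.cF
  have kgc' : KC R (Λ * N) (fun y _ => ((∫ x, kc' x y * F' x ∂(mW R) : ℝ) : ℂ)) := by
    have c3 : Continuous fun z : ℝ × ℝ => (fun y x => kc' x y) z.1 z.2 := cc'.comp continuous_swap
    have h3 : KC R Λ (fun t t' => (((fun y x => kc' x y) t t' : ℝ) : ℂ)) := by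
      intro ε hε
      obtain ⟨ι, hι, c, a, b, h1, h2⟩ := Pc.kc' ε hε
      refine ⟨ι, hι, c, b, a, ?_, fun t t' ht ht' => ?_⟩
      · refine le_trans (le_of_eq (Finset.sum_congr rfl fun i _ => ?_)) h1
        ring
      · have := h2 t' t ht' ht
        refine le_trans (le_of_eq ?_) this
        congr 2
        refine Finset.sum_congr rfl fun i _ => ?_
        rw [add_comm (b i * t)]
    exact kc_int hR c3 h3 T.cF
  have kr1 : KC R (l1 + l2 + 2 * Λ * N) (fun t _ => (r1 t : ℂ)) := by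
    refine (((OX.small.add hχX).sub kgX).add kgc |>.mono (le_of_eq ?_)).congr fun t t' _ _ => ?_
    · rw [← hN]
      ring
    · simp only [hr1]
      push_cast
      ring
  have kr2 : KC R (l1 + l2 + 2 * Λ * N) (fun t _ => (r2 t : ℂ)) := by
    refine (((OY.small.sub hχY).add kgY).sub kgc' |>.mono (le_of_eq ?_)).congr fun t t' _ _ => ?_
    · rw [← hN]
      ring
    · simp only [hr2]
      push_cast
      ring
  have b1 := (abs_le.1 (rig.X r1 _ cr1 kr1)).1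
  have b2 := (abs_le.1 (rig.Y r2 _ cr2 kr2)).1
  have b3 := (abs_le.1 (rig.XX κX _ cκX KκX)).1
  have b4 := (abs_le.1 (rig.YY κY _ cκY KκY)).1
  have b5 := (abs_le.1 (rig.XY κc _ cκc Kκc)).1
  rw [← hZ] at b1 b2 b3 b4 b5
  have q1 := (abs_le.1 (int_small hR OX.small T.cF)).2
  have q2 := (abs_le.1 (int_small hR OY.small T.cF)).1
  have q3 := (abs_le.1 (int_small hR hχX T.cF)).2
  have q4 := (abs_le.1 (int_small hR hχY T.cF)).2
  have q5 := (abs_le.1 (TT_small hR cX' PX.kc' T.cF)).1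
  have q6 := (abs_le.1 (TT_small hR cY' PY.kc' T.cF)).1
  have q7 := (abs_le.1 (TT_small hR cc' Pc.kc' T.cF)).2
  rw [← hN] at q1 q2 q3 q4 q5 q6 q7
  refine jensen_lower iT ?_
  rw [hint, ← hZ]
  -- final inequality
  set A1 : ℝ := ∫ x, nu R ρ x.1 L ∂μ with hA1
  set A2 : ℝ := ∫ x, nu R ρ x.2 L ∂μ with hA2
  set M0 : ℝ := -2 * (∫ y, F' y * χ y ∂(mW R)) - TT (mW R) (fun x y => Us (x - y) - Uc (x - y)) F' F' with hM0
  set O1 : ℝ := (∫ y, F' y * EY y ∂(mW R)) - ∫ y, F' y * EX y ∂(mW R) with hO1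
  have hell : ell μ R ρ F' Us Uc EX EY χ = O1 + (A1 - A2) / Z := rfl
  have hS0' : M0 + O1 - (2 * (l1 + l2) * N + 2 * Λ * N ^ 2) ≤ S0 := by
    rw [hS']
    linarith
  have hellZ : (M0 + ell μ R ρ F' Us Uc EX EY χ - err Λ l1 l2 S N) * Z ≤
      (M0 + O1 - err Λ l1 l2 S N) * Z + (A1 - A2) := by
    rw [hell]
    rcases eq_or_lt_of_le hZ0 with h0 | h0
    · -- the measure vanishes
      have hμ0 : μ = 0 := by
        rw [← Measure.measure_univ_eq_zero]
        have : μ.real univ = 0 := by rw [← hZ]; exact h0.symm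
        rw [measureReal_def, ENNReal.toReal_eq_zero_iff] at this
        rcases this with h | h
        · exact h
        · exact absurd h (measure_ne_top μ _)
      have e1 : A1 = 0 := by rw [hA1, hμ0]; simp
      have e2 : A2 = 0 := by rw [hA2, hμ0]; simp
      rw [e1, e2, ← h0]
      simp
    · have : (A1 - A2) / Z * Z = A1 - A2 := div_mul_cancel₀ _ h0.ne'
      nlinarith
  refine hellZ.trans ?_
  have hm := mul_le_mul_of_nonneg_right hS0' hZ0
  unfold err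
  nlinarith [hm]

end NUR2
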