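import Pool.Agent.NUR2.OC
import Pool.Agent.NUE.PsiD

/-!
# Smooth potentials in the bulk

`Ext j b M f`: on `|x| ≤ b` the function `f` agrees with a function with `j` derivatives bounded by `M`.
`ext_anal`: real parts of analytic functions on the path `x + i η x`.
`ext_delta`: `f (x + ξ x) - f x` is small with its derivatives.
-/

set_option autoImplicit false

open Set Filter Topology NUOC

namespace NUR2

noncomputable section

/-! ### from `iteratedDeriv` to the recursive class -/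

lemma O_of_BD (j : ℕ) : ∀ {C : ℝ} {f : ℝ → ℝ}, NUE.BD j C f → O j C f := by
  induction j with
  | zero =>
    intro C f h
    exact ⟨h.1.continuous, fun x => by simpa using h.2 0 (le_refl _) x⟩
  | succ j ih =>
    intro C f h
    refine ⟨fun x => by simpa using h.2 0 (Nat.zero_le _) x, deriv f, fun x => h.hasDeriv x, ih ⟨?_, ?_⟩⟩
    · exact (contDiff_infty_iff_deriv.1 h.1).2
    · intro i hi t
      rw [← iteratedDeriv_succ']
      exact h.2 (i + 1) (by omega) t

/-! ### local complex class -/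

/-- local class, complex valued -/
def OZ (S : Set ℝ) : ℕ → ℝ → (ℝ → ℂ) → Prop
  | 0, a, f => ContinuousOn f S ∧ ∀ x ∈ S, ‖f x‖ ≤ a
  | (j + 1), a, f => (∀ x ∈ S, ‖f x‖ ≤ a) ∧ ∃ f' : ℝ → ℂ, (∀ x ∈ S, HasDerivAt f (f' x) x) ∧ OZ S j a f'

variable {S : Set ℝ}

lemma OZ.le {j : ℕ} {a : ℝ} {f : ℝ → ℂ} (h : OZ S j a f) {x : ℝ} (hx : x ∈ S) : ‖f x‖ ≤ a := by
  cases j with
  | zero => exact h.2 x hx
  | succ j => exact h.1 x hx

lemma OZ.cont {j : ℕ} {a : ℝ} {f : ℝ → ℂ} (h : OZ S j a f) : ContinuousOn f S := by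
  cases j with
  | zero => exact h.1
  | succ j =>
    obtain ⟨_, f', hf, _⟩ := h
    exact fun x hx => (hf x hx).continuousAt.continuousWithinAt

lemma OZ.mono {j : ℕ} : ∀ {a b : ℝ} {f : ℝ → ℂ}, OZ S j a f → a ≤ b → OZ S j b f := by
  induction j with
  | zero => intro a b f h hab; exact ⟨h.1, fun x hx => (h.2 x hx).trans hab⟩
  | succ j ih =>
    rintro a b f ⟨h1, f', h2, h3⟩ hab
    exact ⟨fun x hx => (h1 x hx).trans hab, f', h2, ih h3 hab⟩

lemma OZ.lower {j : ℕ} : ∀ {a : ℝ} {f : ℝ → ℂ}, OZ S (j + 1) a f → OZ S j a f := by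
  induction j with
  | zero => intro a f h; exact ⟨h.cont, h.1⟩
  | succ j ih =>
    rintro a f ⟨h1, f', h2, h3⟩
    exact ⟨h1, f', h2, ih h3⟩

lemma OZ.const (j : ℕ) {a : ℝ} {c : ℂ} (hc : ‖c‖ ≤ a) : OZ S j a fun _ => c := by
  induction j generalizing c with
  | zero => exact ⟨continuousOn_const, fun _ _ => hc⟩
  | succ j ih =>
    exact ⟨fun _ _ => hc, fun _ => 0, fun x _ => hasDerivAt_const x c,
      ih (by rw [norm_zero]; exact (norm_nonneg _).trans hc)⟩

lemma OZ.add {j : ℕ} : ∀ {a b : ℝ} {f g : ℝ → ℂ}, OZ S j a f → OZ S j b g →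
    OZ S j (a + b) fun x => f x + g x := by
  induction j with
  | zero =>
    intro a b f g h h'
    exact ⟨h.1.add h'.1, fun x hx => (norm_add_le _ _).trans (add_le_add (h.2 x hx) (h'.2 x hx))⟩
  | succ j ih =>
    rintro a b f g ⟨h1, f', h2, h3⟩ ⟨k1, g', k2, k3⟩
    exact ⟨fun x hx => (norm_add_le _ _).trans (add_le_add (h1 x hx) (k1 x hx)), _,
      fun x hx => (h2 x hx).add (k2 x hx), ih h3 k3⟩

lemma OZ.mul {j : ℕ} : ∀ {a b : ℝ} {f g : ℝ → ℂ}, 0 ≤ a → 0 ≤ b → OZ S j a f → OZ S j b g →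
    OZ S j (2 ^ j * (a * b)) fun x => f x * g x := by
  induction j with
  | zero =>
    intro a b f g ha hb h h'
    refine ⟨h.1.mul h'.1, fun x hx => ?_⟩
    rw [norm_mul, pow_zero, one_mul]
    exact mul_le_mul (h.2 x hx) (h'.2 x hx) (norm_nonneg _) ha
  | succ j ih =>
    intro a b f g ha hb h h'
    have hf := h.lower
    have hg := h'.lower
    obtain ⟨h1, f', h2, h3⟩ := h
    obtain ⟨k1, g', k2, k3⟩ := h'
    refine ⟨fun x hx => ?_, fun x => f' x * g x + f x * g' x, fun x hx => (h2 x hx).mul (k2 x hx), ?_⟩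
    · rw [norm_mul]
      have e1 : ‖f x‖ * ‖g x‖ ≤ a * b := mul_le_mul (h1 x hx) (k1 x hx) (norm_nonneg _) ha
      have e2 : (1:ℝ) ≤ 2 ^ (j + 1) := one_le_pow₀ (by norm_num)
      have e3 : 0 ≤ a * b := mul_nonneg ha hb
      nlinarith
    · have := (ih ha hb h3 hg).add (ih ha hb hf k3)
      refine this.mono (le_of_eq ?_)
      ring

/-- purely imaginary multiples of real functions -/
lemma OZ.of_O {j : ℕ} : ∀ {a : ℝ} {f : ℝ → ℝ}, O j a f → OZ S j a fun x => (f x : ℂ) * Complex.I := by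
  induction j with
  | zero =>
    intro a f h
    refine ⟨((Complex.continuous_ofReal.comp h.1).mul continuous_const).continuousOn, fun x _ => ?_⟩
    rw [norm_mul, Complex.norm_I, mul_one, Complex.norm_real]
    exact h.2 x
  | succ j ih =>
    rintro a f ⟨h1, f', h2, h3⟩
    refine ⟨fun x _ => ?_, fun x => (f' x : ℂ) * Complex.I, fun x _ => (h2 x).ofReal_comp.mul_const _, ih h3⟩
    rw [norm_mul, Complex.norm_I, mul_one, Complex.norm_real]
    exact h1 x

/-- **analytic functions along a path** -/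
theorem OZ.canal (j : ℕ) : ∃ C : ℝ, 1 ≤ C ∧ ∀ {S : Set ℝ} {Ω : Set ℂ} {A : ℝ} {G : ℕ → ℂ → ℂ} {D : ℝ → ℂ}
    (i : ℕ), 0 ≤ A → (∀ k, ∀ z ∈ Ω, HasDerivAt (G k) (G (k + 1) z) z) → (∀ k ≤ i + j, ∀ z ∈ Ω, ‖G k z‖ ≤ A) →
    (∀ x ∈ S, (x : ℂ) + D x ∈ Ω) → OZ S j 1 D → OZ S j (C * A) fun x => G i (x + D x) := by
  induction j with
  | zero =>
    refine ⟨1, le_refl _, fun {S Ω A G D} i hA h1 h2 h3 h4 => ⟨?_, fun x hx => ?_⟩⟩
    · intro x hx
      have e1 : ContinuousAt (G i) ((x : ℂ) + D x) := (h1 i _ (h3 x hx)).continuousAt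
      have e2 : ContinuousWithinAt (fun x : ℝ => (x : ℂ) + D x) S x :=
        Complex.continuous_ofReal.continuousWithinAt.add (h4.1 x hx)
      exact ContinuousAt.comp_continuousWithinAt (g := G i) (f := fun x : ℝ => (x : ℂ) + D x) e1 e2
    · rw [one_mul]
      exact h2 i (by omega) _ (h3 x hx)
  | succ j ih =>
    obtain ⟨C, hC1, hC⟩ := ih
    have hp : (1:ℝ) ≤ 2 ^ j := one_le_pow₀ (by norm_num)
    refine ⟨2 ^ j * (C * 2), by nlinarith, fun {S Ω A G D} i hA h1 h2 h3 h4 => ?_⟩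
    have hDl := h4.lower
    obtain ⟨k1, D', k2, k3⟩ := h4
    refine ⟨fun x hx => ?_, fun x => G (i + 1) (x + D x) * (1 + D' x), fun x hx => ?_, ?_⟩
    · refine (h2 i (by omega) _ (h3 x hx)).trans ?_
      have : (1:ℝ) ≤ 2 ^ j * (C * 2) := by nlinarith
      nlinarith
    · have e1 : HasDerivAt (fun x : ℝ => (x : ℂ) + D x) (1 + D' x) x := by
        have e0 : HasDerivAt (fun x : ℝ => (x : ℂ)) 1 x := by
          simpa using (hasDerivAt_id x).ofReal_comp
        exact e0.add (k2 x hx)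
      exact HasDerivAt.comp (h₂ := G i) (h := fun x : ℝ => (x : ℂ) + D x) x (h1 i _ (h3 x hx)) e1
    · have e1 := hC (i + 1) hA h1 (fun k hk => h2 k (by omega)) h3 hDl
      have e2 : OZ S j (1 + 1) fun x => 1 + D' x := (OZ.const j (by simp)).add k3
      refine (e1.mul (by positivity) (by norm_num) e2).mono (le_of_eq ?_)
      ring

/-- cut off real part -/
theorem OZ.cut (j : ℕ) : ∀ {B b a h : ℝ} {f : ℝ → ℂ} {H : ℝ → ℝ}, b < B → 0 ≤ a →
    OZ {x : ℝ | |x| < B} j a f → O j h H → (∀ x, b < |x| → H x = 0) →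
    O j (2 ^ j * (h * a)) fun x => H x * (f x).re := by
  induction j with
  | zero =>
    intro B b a h f H hbB ha h1 h2 h3
    have hh := h2.nonneg
    refine ⟨continuous_iff_continuousAt.2 fun x => ?_, fun x => ?_⟩
    · rcases lt_or_ge |x| B with hx | hx
      · have e1 : ContinuousAt f x := h1.1.continuousAt ((isOpen_lt continuous_abs continuous_const).mem_nhds hx)
        exact h2.1.continuousAt.mul (Complex.continuous_re.continuousAt.comp e1)
      · have e : (fun x => H x * (f x).re) =ᶠ[𝓝 x] fun _ => 0 := by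
          filter_upwards [(continuous_abs.tendsto x).eventually (lt_mem_nhds (hbB.trans_le hx))] with y hy
          rw [h3 y hy, zero_mul]
        exact continuousAt_const.congr e.symm
    · rcases lt_or_ge |x| B with hx | hx
      · rw [abs_mul, pow_zero, one_mul]
        exact mul_le_mul (h2.2 x) ((Complex.abs_re_le_norm _).trans (h1.2 x hx)) (abs_nonneg _) hh
      · beta_reduce
        rw [h3 x (hbB.trans_le hx), zero_mul, abs_zero]
        positivity
  | succ j ih =>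
    intro B b a h f H hbB ha h1 h2 h3
    have hh := h2.nonneg
    have h1l := h1.lower
    have h2l := h2.lower
    obtain ⟨k1, f', k2, k3⟩ := h1
    obtain ⟨l1, H', l2, l3⟩ := h2
    have hH' : ∀ x, b < |x| → H' x = 0 := by
      intro x hx
      have e : H =ᶠ[𝓝 x] fun _ => 0 := by
        filter_upwards [(continuous_abs.tendsto x).eventually (lt_mem_nhds hx)] with y hy
        exact h3 y hy
      exact (l2 x).unique ((hasDerivAt_const x (0:ℝ)).congr_of_eventuallyEq e)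
    refine ⟨fun x => ?_, fun x => H' x * (f x).re + H x * (f' x).re, fun x => ?_, ?_⟩
    · have e2 : (1:ℝ) ≤ 2 ^ (j + 1) := one_le_pow₀ (by norm_num)
      have e3 : 0 ≤ h * a := mul_nonneg hh ha
      rcases lt_or_ge |x| B with hx | hx
      · rw [abs_mul]
        have e1 : |H x| * |(f x).re| ≤ h * a :=
          mul_le_mul (l1 x) ((Complex.abs_re_le_norm _).trans (k1 x hx)) (abs_nonneg _) hh
        nlinarith
      · beta_reduce
        rw [h3 x (hbB.trans_le hx), zero_mul, abs_zero]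
        positivity
    · rcases lt_or_ge |x| B with hx | hx
      · have e1 : HasDerivAt (fun x => (f x).re) (f' x).re x := by
          have := (Complex.reCLM.hasFDerivAt (x := f x)).comp_hasDerivAt x (k2 x hx)
          exact this
        exact (l2 x).mul e1
      · have hb := hbB.trans_le hx
        beta_reduce
        rw [h3 x hb, hH' x hb]
        have e : (fun x => H x * (f x).re) =ᶠ[𝓝 x] fun _ => 0 := by
          filter_upwards [(continuous_abs.tendsto x).eventually (lt_mem_nhds hb)] with y hy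
          rw [h3 y hy, zero_mul]
        have e2 := (hasDerivAt_const x (0:ℝ)).congr_of_eventuallyEq e
        simpa using e2
    · have e1 := (ih hbB ha h1l l3 hH').add (ih hbB ha k3 h2l h3)
      refine e1.mono (le_of_eq ?_)
      ring

/-! ### the class `Ext` -/

/-- on `|x| ≤ b` equal to a function with `j` derivatives bounded by `M` -/
def Ext (j : ℕ) (b M : ℝ) (f : ℝ → ℝ) : Prop := ∃ u : ℝ → ℝ, O j M u ∧ ∀ x, |x| ≤ b → u x = f x

variable {j : ℕ} {b M M' : ℝ} {f g : ℝ → ℝ}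

lemma Ext.of_O (h : O j M f) : Ext j b M f := ⟨f, h, fun _ _ => rfl⟩

lemma Ext.nonneg (h : Ext j b M f) : 0 ≤ M := by
  obtain ⟨u, hu, _⟩ := h
  exact hu.nonneg

lemma Ext.mono (h : Ext j b M f) (hM : M ≤ M') : Ext j b M' f := by
  obtain ⟨u, hu, hf⟩ := h
  exact ⟨u, hu.mono hM, hf⟩

lemma Ext.congr (h : Ext j b M f) (hfg : ∀ x, |x| ≤ b → f x = g x) : Ext j b M g := by
  obtain ⟨u, hu, hf⟩ := h
  exact ⟨u, hu, fun x hx => (hf x hx).trans (hfg x hx)⟩

lemma Ext.add (h : Ext j b M f) (h' : Ext j b M' g) : Ext j b (M + M') fun x => f x + g x := by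
  obtain ⟨u, hu, hf⟩ := h
  obtain ⟨v, hv, hg⟩ := h'
  exact ⟨_, hu.add hv, fun x hx => by rw [hf x hx, hg x hx]⟩

lemma Ext.sub (h : Ext j b M f) (h' : Ext j b M' g) : Ext j b (M + M') fun x => f x - g x := by
  obtain ⟨u, hu, hf⟩ := h
  obtain ⟨v, hv, hg⟩ := h'
  exact ⟨_, hu.sub hv, fun x hx => by rw [hf x hx, hg x hx]⟩

lemma Ext.smul (c : ℝ) (h : Ext j b M f) : Ext j b (|c| * M) fun x => c * f x := by
  obtain ⟨u, hu, hf⟩ := h
  exact ⟨_, hu.smul c, fun x hx => by rw [hf x hx]⟩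

lemma Ext.neg (h : Ext j b M f) : Ext j b M fun x => - f x := by
  obtain ⟨u, hu, hf⟩ := h
  exact ⟨_, hu.neg, fun x hx => by rw [hf x hx]⟩

lemma Ext.le (h : Ext j b M f) {x : ℝ} (hx : |x| ≤ b) : |f x| ≤ M := by
  obtain ⟨u, hu, hf⟩ := h
  rw [← hf x hx]
  exact hu.le x

lemma Ext.sum {ι : Type*} (s : Finset ι) {M : ι → ℝ} {f : ι → ℝ → ℝ} (h : ∀ i ∈ s, Ext j b (M i) (f i)) :
    Ext j b (∑ i ∈ s, M i) fun x => ∑ i ∈ s, f i x := by
  classical
  induction s using Finset.induction_on with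
  | empty => simpa using Ext.of_O (O.const j (a := 0) (c := 0) (by simp))
  | insert i s hi ih =>
    simp only [Finset.sum_insert hi]
    exact (h i (Finset.mem_insert_self _ _)).add (ih fun k hk => h k (Finset.mem_insert_of_mem hk))

/-- **real parts of analytic functions on a path are in the class** -/
theorem ext_anal (j : ℕ) {κ : ℝ} (hκ : 0 < κ) (hκ1 : κ ≤ 1) : ∃ C : ℝ, 1 ≤ C ∧
    ∀ {b A : ℝ} {F : ℂ → ℂ} {η : ℝ → ℝ}, 0 ≤ A →
      DifferentiableOn ℂ F {z | |z.re| < b + 2 ∧ |z.im| < κ} →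
      (∀ z : ℂ, |z.re| < b + 2 → |z.im| < κ → ‖F z‖ ≤ A) → O j 1 η → (∀ x, |η x| ≤ κ / 2) →
      Ext j b (C * A) fun x => (F (x + η x * Complex.I)).re := by
  obtain ⟨C1, hC1, H1⟩ := OZ.canal j
  obtain ⟨C2, hC2⟩ := NUE.BD_Hc j
  have hC20 : 0 ≤ C2 := (hC2 0).nonneg
  set r : ℝ := κ / 4 with hr
  have hr0 : 0 < r := by positivity
  have hr1 : r ≤ 1 := by rw [hr]; linarith
  refine ⟨1 + 2 ^ j * (C2 * (C1 * ((j.factorial : ℝ) / r ^ j))), ?_, fun {b A F η} hA hF hFA hη hη2 => ?_⟩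
  · have : 0 ≤ 2 ^ j * (C2 * (C1 * ((j.factorial : ℝ) / r ^ j))) := by positivity
    linarith
  set Ω1 : Set ℂ := {z | |z.re| < b + 2 ∧ |z.im| < κ} with hΩ1
  set Ω : Set ℂ := {z | |z.re| < b + 3 / 2 ∧ |z.im| ≤ κ / 2} with hΩ
  have hr4 : r ≤ 1 / 4 := by rw [hr]; linarith
  have hop : IsOpen Ω1 := (isOpen_lt (continuous_abs.comp Complex.continuous_re) continuous_const).inter
    (isOpen_lt (continuous_abs.comp Complex.continuous_im) continuous_const)
  have hball : ∀ z ∈ Ω, Metric.closedBall z r ⊆ Ω1 := by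
    intro z hz w hw
    rw [Metric.mem_closedBall, dist_eq_norm] at hw
    have e1 : |w.re - z.re| ≤ r := by
      rw [← Complex.sub_re]; exact (Complex.abs_re_le_norm _).trans hw
    have e2 : |w.im - z.im| ≤ r := by
      rw [← Complex.sub_im]; exact (Complex.abs_im_le_norm _).trans hw
    have e3 : |w.re| ≤ |z.re| + r := by
      have := abs_add_le (w.re - z.re) z.re
      rw [sub_add_cancel] at this
      linarith
    have e4 : |w.im| ≤ |z.im| + r := by
      have := abs_add_le (w.im - z.im) z.im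
      rw [sub_add_cancel] at this
      linarith
    refine ⟨?_, ?_⟩
    · linarith [hz.1]
    · have := hz.2
      rw [hr] at e4
      linarith
  have hsub : Ω ⊆ Ω1 := fun z hz => hball z hz (Metric.mem_closedBall_self hr0.le)
  have hder : ∀ k, ∀ z ∈ Ω1, HasDerivAt (iteratedDeriv k F) (iteratedDeriv (k + 1) F z) z := by
    intro k z hz
    have h1 : AnalyticAt ℂ F z := hF.analyticAt (hop.mem_nhds hz)
    have h2 : AnalyticAt ℂ (iteratedDeriv k F) z := by
      rw [iteratedDeriv_eq_iterate]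
      exact h1.iterated_deriv k
    rw [iteratedDeriv_succ]
    exact h2.differentiableAt.hasDerivAt
  have hbd : ∀ k ≤ 0 + j, ∀ z ∈ Ω, ‖iteratedDeriv k F z‖ ≤ (j.factorial : ℝ) / r ^ j * A := by
    intro k hk z hz
    have h1 := Complex.norm_iteratedDeriv_le_of_forall_mem_sphere_norm_le (n := k) (c := z) (R := r) (C := A)
      (f := F) hr0 ?_ ?_
    · refine h1.trans ?_
      have e1 : (k.factorial : ℝ) ≤ j.factorial := by exact_mod_cast Nat.factorial_le (by omega)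
      have e2 : r ^ j ≤ r ^ k := pow_le_pow_of_le_one hr0.le hr1 (by omega)
      have e3 : 0 < r ^ j := by positivity
      rw [mul_div_assoc, div_mul_eq_mul_div, mul_div_assoc]
      have e4 : A / r ^ k ≤ A / r ^ j := div_le_div_of_nonneg_left hA e3 e2
      exact mul_le_mul e1 e4 (by positivity) (by positivity)
    · refine ⟨?_, ?_⟩
      · exact hF.mono (Metric.ball_subset_closedBall.trans (hball z hz))
      · have := (hF.mono (hball z hz)).continuousOn
        exact this.mono (closure_minimal Metric.ball_subset_closedBall Metric.isClosed_closedBall)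
    · intro w hw
      have := hball z hz (Metric.sphere_subset_closedBall hw)
      exact hFA w this.1 this.2
  have h3 : OZ {x : ℝ | |x| < b + 3 / 2} j 1 fun x => (η x : ℂ) * Complex.I := OZ.of_O hη
  have h4 : OZ {x : ℝ | |x| < b + 3 / 2} j (C1 * ((j.factorial : ℝ) / r ^ j * A)) fun x : ℝ =>
      iteratedDeriv 0 F ((x : ℂ) + (η x : ℂ) * Complex.I) := by
    refine H1 (Ω := Ω) (G := fun k => iteratedDeriv k F) 0 (by positivity)
      (fun k z hz => hder k z (hsub hz)) hbd (fun x hx => ?_) h3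
    have e1 : ((x : ℂ) + (η x : ℂ) * Complex.I).re = x := by simp
    have e2 : ((x : ℂ) + (η x : ℂ) * Complex.I).im = η x := by simp
    rw [hΩ, mem_setOf_eq, e1, e2]
    exact ⟨hx, hη2 x⟩
  have h5 := OZ.cut j (b := b + 1) (B := b + 3 / 2) (H := NUE.Hc b) (by linarith) (by positivity) h4
    (O_of_BD j (hC2 b)) (fun x hx => NUE.Hc_zero hx.le)
  refine ⟨_, h5.mono ?_, fun x hx => ?_⟩
  · have e : 2 ^ j * (C2 * (C1 * ((j.factorial : ℝ) / r ^ j * A))) =
        (2 ^ j * (C2 * (C1 * ((j.factorial : ℝ) / r ^ j)))) * A := by ring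
    rw [e]
    nlinarith
  · rw [NUE.Hc_one hx, one_mul, iteratedDeriv_zero]

/-- **the difference along a small displacement** -/
theorem ext_delta (j : ℕ) : ∃ C : ℝ, 1 ≤ C ∧ ∀ {b M lam : ℝ} {f ξ : ℝ → ℝ}, Ext (j + 1) b M f →
    O j lam ξ → lam ≤ 1 → (∀ x, b ≤ |x| → ξ x = 0) → (∀ x, |x| ≤ b → |x + ξ x| ≤ b) →
    O j (C * (M * lam)) fun x => f (x + ξ x) - f x := by
  obtain ⟨C, hC1, hC⟩ := O.delta j
  refine ⟨C, hC1, fun {b M lam f ξ} hf hξ hl h0 hin => ?_⟩
  obtain ⟨u, hu, huf⟩ := hf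
  obtain ⟨_, u', h2, h3⟩ := hu
  refine (hC h2 h3 hξ hl).congr fun x => ?_
  rcases le_or_gt |x| b with hx | hx
  · rw [huf x hx, huf _ (hin x hx)]
  · rw [h0 x hx.le, add_zero, sub_self, sub_self]

/-- **analytic potentials: the difference along a small displacement** (form of helper53) -/
theorem an_delta (j : ℕ) : ∃ C : ℝ, 1 ≤ C ∧ ∀ {b A lam lam0 : ℝ} {G : ℂ → ℂ} {η ξ : ℝ → ℝ},
    lam ≤ 1 / 20 → lam0 ≤ 1 →
    (∀ z : ℂ, |z.re| ≤ b + 2 → |z.im| ≤ 1 / 10 → DifferentiableAt ℂ G z ∧ ‖G z‖ ≤ A) →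
    0 ≤ A → O (j + 1) lam η → O j lam0 ξ → (∀ x, b ≤ |x| → ξ x = 0) → (∀ x, |x| ≤ b → |x + ξ x| ≤ b) →
    O j (C * A * lam0) fun x => (G ((x + ξ x : ℝ) + (η (x + ξ x) : ℝ) * Complex.I)).re -
      (G ((x : ℝ) + (η x : ℝ) * Complex.I)).re := by
  obtain ⟨C1, hC1, H1⟩ := ext_anal (j + 1) (κ := 1 / 10) (by norm_num) (by norm_num)
  obtain ⟨C2, hC2, H2⟩ := ext_delta j
  refine ⟨C2 * C1, by nlinarith, fun {b A lam lam0 G η ξ} hl hl0 hG hA hη hξ h0 hin => ?_⟩
  have e1 := H1 (b := b) (F := G) hA (fun z hz => (hG z hz.1.le hz.2.le).1.differentiableWithinAt)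
    (fun z h1 h2 => (hG z h1.le h2.le).2) (hη.mono (by linarith)) (fun x => (hη.le x).trans (by linarith))
  have e2 := H2 e1 hξ hl0 h0 hin
  exact e2.mono (le_of_eq (by ring))

/-- the same in a strip of arbitrary width `κ` -/
theorem an_deltaK (j : ℕ) {κ : ℝ} (hκ : 0 < κ) (hκ1 : κ ≤ 1) : ∃ C : ℝ, 1 ≤ C ∧
    ∀ {b A lam lam0 : ℝ} {G : ℂ → ℂ} {η ξ : ℝ → ℝ}, lam ≤ κ / 2 → lam0 ≤ 1 →
    (∀ z : ℂ, |z.re| ≤ b + 2 → |z.im| < κ → DifferentiableAt ℂ G z ∧ ‖G z‖ ≤ A) →
    0 ≤ A → O (j + 1) lam η → O j lam0 ξ → (∀ x, b ≤ |x| → ξ x = 0) → (∀ x, |x| ≤ b → |x + ξ x| ≤ b) →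
    O j (C * A * lam0) fun x => (G ((x + ξ x : ℝ) + (η (x + ξ x) : ℝ) * Complex.I)).re -
      (G ((x : ℝ) + (η x : ℝ) * Complex.I)).re := by
  obtain ⟨C1, hC1, H1⟩ := ext_anal (j + 1) hκ hκ1
  obtain ⟨C2, hC2, H2⟩ := ext_delta j
  refine ⟨C2 * C1, by nlinarith, fun {b A lam lam0 G η ξ} hl hl0 hG hA hη hξ h0 hin => ?_⟩
  have e1 := H1 (b := b) (F := G) hA (fun z hz => (hG z hz.1.le hz.2).1.differentiableWithinAt)
    (fun z h1 h2 => (hG z h1.le h2).2) (hη.mono (by linarith)) (fun x => (hη.le x).trans hl)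
  have e2 := H2 e1 hξ hl0 h0 hin
  exact e2.mono (le_of_eq (by ring))

end

end NUR2
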