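import Pool.Agent.NUR2.Core2

/-!
# R2: the theorem without continuity hypotheses on the kernels (helper73)
-/

set_option autoImplicit false

open MeasureTheory Set Filter Topology NUKer NUTr

namespace NUR2

variable {p n : ℕ} {R Λ l1 l2 S : ℝ} {ρ F' ψX ψX' ψY ψY' Us Uc aX aY EX EY χ : ℝ → ℝ}
  {qX qY qc kX kX' kY kY' kc kc' : ℝ → ℝ → ℝ}

/-- the clamped kernel -/
noncomputable def clk (R : ℝ) (k : ℝ → ℝ → ℝ) (x y : ℝ) : ℝ := k (cl R x) (cl R y)

lemma clk_eq {k : ℝ → ℝ → ℝ} {x y : ℝ} (hx : |x| ≤ R) (hy : |y| ≤ R) : clk R k x y = k x y := by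
  unfold clk
  rw [cl_eq hx, cl_eq hy]

lemma clk_symm (hR : 0 ≤ R) {k : ℝ → ℝ → ℝ} (h : ∀ x y, |x| ≤ R → |y| ≤ R → k x y = k y x) (x y : ℝ) :
    clk R k x y = clk R k y x := h _ _ (cl_abs hR x) (cl_abs hR y)

lemma IX_clk {x : ℝ} (hx : |x| ≤ R) :
    IX R ρ Us Uc (clk R kX) (clk R kc) x = IX R ρ Us Uc kX kc x := by
  unfold IX
  congr 1
  · refine integral_congr_ae ?_
    filter_upwards [mem_mW] with y hy
    rw [clk_eq hx hy]
  · refine integral_congr_ae ?_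
    filter_upwards [mem_mW] with y hy
    rw [clk_eq hx hy]

lemma IY_clk {y : ℝ} (hy : |y| ≤ R) :
    IY R ρ Us Uc (clk R kY) (clk R kc) y = IY R ρ Us Uc kY kc y := by
  unfold IY
  congr 1
  · refine integral_congr_ae ?_
    filter_upwards [mem_mW] with z hz
    rw [clk_eq hy hz]
  · refine integral_congr_ae ?_
    filter_upwards [mem_mW] with x hx
    rw [clk_eq hx hy]

lemma Pk.clk {ψ φ U : ℝ → ℝ} {q k k' : ℝ → ℝ → ℝ} (hR : 0 ≤ R) (P : Pk R Λ ψ φ U q k k')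
    (hψ : ∀ x, |ψ x| ≤ R ↔ |x| ≤ R) (hφ : ∀ x, |φ x| ≤ R ↔ |x| ≤ R) :
    Pk R Λ ψ φ U q (NUR2.clk R k) (NUR2.clk R k') where
  li := P.li
  ev := P.ev
  kc := (P.kc.clamp hR).2
  kc' := (P.kc'.clamp hR).2
  rel := by
    intro x y hx hy
    show q (ψ x) (φ y) = q x y * Real.exp (NUR2.clk R k' x y - NUR2.clk R k x y)
    rw [clk_eq hx hy, clk_eq hx hy]
    exact P.rel x y hx hy
  log := by
    intro x y hx hy hne
    rw [clk_eq ((hψ x).2 hx) ((hφ y).2 hy), clk_eq hx hy]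
    exact P.log x y hx hy hne
  q0 := P.q0
  qm := P.qm

/-- **R2** (proof/NU_ABS_4 [4.7]): lower bound of the exponential moment of the charge statistics -/
theorem r2core (H : Hyp p n R Λ l1 l2 S ρ F' ψX ψX' ψY ψY' Us Uc aX aY EX EY χ qX qY qc kX kX' kY kY' kc kc') :
    ENNReal.ofReal ((mu (p := p) (n := n) R qX qY qc aX aY).real univ *
      Real.exp ((-2 * (∫ y, F' y * χ y ∂(mW R)) - TT (mW R) (fun x y => Us (x - y) - Uc (x - y)) F' F') +
        ell (mu (p := p) (n := n) R qX qY qc aX aY) R ρ F' Us Uc EX EY χ -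
        err Λ l1 l2 S (∫ y, |F' y| ∂(mW R)))) ≤
    ∫⁻ x, ENNReal.ofReal (Real.exp (∑ i, χ (x.1 i) - ∑ j, χ (x.2 j)))
      ∂(mu (p := p) (n := n) R qX qY qc aX aY) := by
  have hR := H.T.R0.le
  have HX := H.PX.kc.clamp hR
  have HX' := H.PX.kc'.clamp hR
  have HY := H.PY.kc.clamp hR
  have HY' := H.PY.kc'.clamp hR
  have Hc := H.Pc.kc.clamp hR
  have Hc' := H.Pc.kc'.clamp hR
  have H' : Hyp p n R Λ l1 l2 S ρ F' ψX ψX' ψY ψY' Us Uc aX aY EX EY χ qX qY qc (clk R kX) (clk R kX')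
      (clk R kY) (clk R kY') (clk R kc) (clk R kc') := by
    refine ⟨H.T, H.PX.clk hR H.T.bX H.T.bX, H.PY.clk hR H.T.bY H.T.bY, H.Pc.clk hR H.T.bX H.T.bY,
      fun x y _ _ => clk_symm hR H.sX x y, fun x y _ _ => clk_symm hR H.sX' x y,
      fun x y _ _ => clk_symm hR H.sY x y, fun x y _ _ => clk_symm hR H.sY' x y, ?_, ?_, H.cχ, H.χX, H.χY,
      H.fin, H.rig⟩
    · refine ⟨H.OX.a0, H.OX.am, H.OX.cE, fun x hx => ?_, H.OX.small⟩
      rw [IX_clk hx, IX_clk ((H.T.bX x).2 hx), clk_eq hx hx, clk_eq hx hx]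
      exact H.OX.rel x hx
    · refine ⟨H.OY.a0, H.OY.am, H.OY.cE, fun x hx => ?_, H.OY.small⟩
      rw [IY_clk hx, IY_clk ((H.T.bY x).2 hx), clk_eq hx hx, clk_eq hx hx]
      exact H.OY.rel x hx
  exact r2core0 H' HX.1 HX'.1 HY.1 HY'.1 Hc.1 Hc'.1 (clk_symm hR H.sX) (clk_symm hR H.sX')
    (clk_symm hR H.sY) (clk_symm hR H.sY')

/-- the quadratic form as a double integral over the line -/
lemma TT_full {U : ℝ → ℝ} (hs : ∀ x, R ≤ |x| → F' x = 0) :
    TT (mW R) (fun x y => U (x - y)) F' F' = ∫ x, F' x * ∫ y, U (x - y) * F' y := by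
  unfold TT mW
  have h1 : ∀ x, ∫ y in Icc (-R) R, U (x - y) * F' y = ∫ y, U (x - y) * F' y := by
    intro x
    refine setIntegral_eq_integral_of_forall_compl_eq_zero fun y hy => ?_
    rw [hs y, mul_zero]
    by_contra h2
    exact hy (abs_le.1 (not_le.1 h2).le)
  simp only [h1]
  refine setIntegral_eq_integral_of_forall_compl_eq_zero fun y hy => ?_
  rw [hs y, zero_mul]
  by_contra h2
  exact hy (abs_le.1 (not_le.1 h2).le)

/-- window integrals of functions vanishing outside -/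
lemma int_full {f : ℝ → ℝ} (hs : ∀ x, R ≤ |x| → f x = 0) : ∫ x, f x ∂(mW R) = ∫ x, f x := by
  unfold mW
  refine setIntegral_eq_integral_of_forall_compl_eq_zero fun y hy => ?_
  rw [hs y]
  by_contra h2
  exact hy (abs_le.1 (not_le.1 h2).le)

end NUR2
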