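import Pool.Agent.NUAct.CK
import Pool.Agent.NUAct.One

/-!
# The tail of the mean field beyond the window

`Tl s R z = ∫_{u > R} s P(u) (Uc (u - z) + Uc (u + z)) du` is analytic and `O(s e^{-2R})` on
`|Re z| ≤ R - 1`, `|Im z| ≤ 1/10`; on the path it is the mean field of the quanta beyond the window.
-/

set_option autoImplicit false

open MeasureTheory Set Filter Topology Complex NUMF NUAct

namespace NUR2

noncomputable section

/-- the tail -/
def Tl (s R : ℝ) (z : ℂ) : ℂ := ∫ u in Ioi R, ((s * P u : ℝ) : ℂ) * (Uc (u - z) + Uc (u + z))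

lemma Ty_meas (y : ℝ) : Measurable (Ty y) := by
  unfold Ty
  fun_prop

lemma Ud_meas : Measurable Ud := by
  unfold Ud
  have := Ty_meas
  fun_prop

lemma gr_le' {x : ℝ} (h : 1 / 2 ≤ x) : gr x ≤ 2 + 2 * x := by
  have hx : 0 < x := by linarith
  unfold gr
  have h1 : |Real.log x| ≤ 1 + x := by
    rw [abs_le]
    constructor
    · have := Real.one_sub_inv_le_log_of_pos hx
      have h3 : x⁻¹ ≤ 2 := by
        rw [inv_le_comm₀ hx (by norm_num)]
        linarith
      linarith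
    · have := Real.log_le_sub_one_of_pos hx
      linarith
  linarith

lemma exp_int_Ioi (R : ℝ) : IntegrableOn (fun u : ℝ => Real.exp (-2 * u)) (Ioi R) ∧
    ∫ u in Ioi R, Real.exp (-2 * u) = Real.exp (-2 * R) / 2 := by
  refine ⟨integrableOn_exp_mul_Ioi (by norm_num) R, ?_⟩
  rw [integral_exp_mul_Ioi (by norm_num)]
  ring

theorem exists_tail : ∃ C : ℝ, 0 < C ∧ ∀ s R : ℝ, 0 ≤ s → 1 ≤ R → ∀ z : ℂ, |z.re| ≤ R - 1 → |z.im| ≤ 1 / 10 →
    IntegrableOn (fun u : ℝ => ((s * P u : ℝ) : ℂ) * (Uc (u - z) + Uc (u + z))) (Ioi R) ∧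
    DifferentiableAt ℂ (Tl s R) z ∧ ‖Tl s R z‖ ≤ C * s * Real.exp (-2 * R) := by
  obtain ⟨K, hK, hU⟩ := Uc_bound
  obtain ⟨K', hK', hU'⟩ := Ud_bound
  have hl := l_pos
  have hl4 : 1 / 5 ≤ l := by
    unfold l
    have := Real.pi_gt_three
    linarith
  have hl5 : (3:ℝ) / 20 ≤ l / 2 := by
    unfold l
    have := Real.pi_gt_three
    linarith
  have hs3 := sq3_pos
  have hpi := Real.pi_pos
  set Cp : ℝ := 32 / (3 * √3 * Real.pi) with hCp
  have hCp0 : 0 < Cp := by positivity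
  -- pointwise
  have key : ∀ R : ℝ, 1 ≤ R → ∀ w : ℂ, |w.re| ≤ R - 19 / 20 → |w.im| ≤ 3 / 20 → ∀ u : ℝ, R < u →
      (1 / 2 ≤ ((u : ℂ) - w).re ∧ |((u : ℂ) - w).im| ≤ l / 2 ∧ ((u : ℂ) - w).re ≤ 2 * u) ∧
      (1 / 2 ≤ ((u : ℂ) + w).re ∧ |((u : ℂ) + w).im| ≤ l / 2 ∧ ((u : ℂ) + w).re ≤ 2 * u) := by
    intro R hR w h1 h2 u hu
    have e1 := abs_le.1 h1
    simp only [Complex.sub_re, Complex.ofReal_re, Complex.sub_im, Complex.ofReal_im, Complex.add_re,
      Complex.add_im, zero_sub, zero_add, abs_neg]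
    refine ⟨⟨by linarith, by linarith, by linarith⟩, by linarith, by linarith, by linarith⟩
  have hP : ∀ u : ℝ, 0 < u → P u * (2 + 4 * u) ≤ Cp * 8 * Real.exp (-2 * u) := by
    intro u hu
    have h1 := P_le u
    rw [abs_of_pos hu] at h1
    have h2 := Real.add_one_le_exp (2 / 3 * u)
    have h3 : 2 + 4 * u ≤ 8 * Real.exp (2 / 3 * u) := by
      have := Real.exp_pos (2 / 3 * u)
      linarith
    have h4 : Real.exp (-2 * u) = Real.exp (-(8 / 3) * u) * Real.exp (2 / 3 * u) := by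
      rw [← Real.exp_add]; congr 1; ring
    rw [h4]
    have h5 := P_pos u
    calc P u * (2 + 4 * u) ≤ (Cp * Real.exp (-(8 / 3) * u)) * (8 * Real.exp (2 / 3 * u)) :=
          mul_le_mul h1 h3 (by positivity) (by positivity)
      _ = _ := by ring
  have hPd : ∀ u : ℝ, 0 < u → P u ≤ Cp * 8 * Real.exp (-2 * u) := by
    intro u hu
    have := hP u hu
    have h5 := P_pos u
    nlinarith
  have bdF : ∀ s R : ℝ, 0 ≤ s → 1 ≤ R → ∀ w : ℂ, |w.re| ≤ R - 19 / 20 → |w.im| ≤ 3 / 20 → ∀ u : ℝ, R < u →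
      ‖((s * P u : ℝ) : ℂ) * (Uc (u - w) + Uc (u + w))‖ ≤ s * (16 * K * Cp) * Real.exp (-2 * u) := by
    intro s R hs hR w h1 h2 u hu
    obtain ⟨⟨a1, a2, a3⟩, b1, b2, b3⟩ := key R hR w h1 h2 u hu
    have hu0 : 0 < u := by linarith
    have n1 := (hU _ (by linarith) a2).trans (mul_le_mul_of_nonneg_left (gr_le' a1) hK.le)
    have n2 := (hU _ (by linarith) b2).trans (mul_le_mul_of_nonneg_left (gr_le' b1) hK.le)
    have n3 : ‖Uc ((u : ℂ) - w) + Uc ((u : ℂ) + w)‖ ≤ 2 * K * (2 + 4 * u) := by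
      refine (norm_add_le _ _).trans ?_
      nlinarith
    have h5 := P_pos u
    rw [norm_mul, Complex.norm_real, Real.norm_of_nonneg (by positivity)]
    calc s * P u * ‖Uc ((u : ℂ) - w) + Uc ((u : ℂ) + w)‖ ≤ s * P u * (2 * K * (2 + 4 * u)) :=
          mul_le_mul_of_nonneg_left n3 (by positivity)
      _ = s * (2 * K) * (P u * (2 + 4 * u)) := by ring
      _ ≤ s * (2 * K) * (Cp * 8 * Real.exp (-2 * u)) := mul_le_mul_of_nonneg_left (hP u hu0) (by positivity)
      _ = _ := by ring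
  have bdF' : ∀ s R : ℝ, 0 ≤ s → 1 ≤ R → ∀ w : ℂ, |w.re| ≤ R - 19 / 20 → |w.im| ≤ 3 / 20 → ∀ u : ℝ, R < u →
      ‖((s * P u : ℝ) : ℂ) * (-Ud (u - w) + Ud (u + w))‖ ≤ s * (48 * K' * Cp) * Real.exp (-2 * u) := by
    intro s R hs hR w h1 h2 u hu
    obtain ⟨⟨a1, a2, a3⟩, b1, b2, b3⟩ := key R hR w h1 h2 u hu
    have hu0 : 0 < u := by linarith
    have inv2 : ∀ x : ℝ, 1 / 2 ≤ x → 1 + 1 / x ≤ 3 := by
      intro x hx
      have : 1 / x ≤ 2 := by
        rw [div_le_iff₀ (by linarith)]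
        linarith
      linarith
    have n1 := (hU' _ (by linarith) a2).trans (mul_le_mul_of_nonneg_left (inv2 _ a1) hK'.le)
    have n2 := (hU' _ (by linarith) b2).trans (mul_le_mul_of_nonneg_left (inv2 _ b1) hK'.le)
    have n3 : ‖-Ud ((u : ℂ) - w) + Ud ((u : ℂ) + w)‖ ≤ 6 * K' := by
      refine (norm_add_le _ _).trans ?_
      rw [norm_neg]
      linarith
    have h5 := P_pos u
    rw [norm_mul, Complex.norm_real, Real.norm_of_nonneg (by positivity)]
    calc s * P u * ‖-Ud ((u : ℂ) - w) + Ud ((u : ℂ) + w)‖ ≤ s * P u * (6 * K') :=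
          mul_le_mul_of_nonneg_left n3 (by positivity)
      _ = s * (6 * K') * P u := by ring
      _ ≤ s * (6 * K') * (Cp * 8 * Real.exp (-2 * u)) := mul_le_mul_of_nonneg_left (hPd u hu0) (by positivity)
      _ = _ := by ring
  refine ⟨8 * K * Cp, by positivity, fun s R hs hR z h1 h2 => ?_⟩
  obtain ⟨hei, hev⟩ := exp_int_Ioi R
  have hmeas : ∀ w : ℂ, Measurable fun u : ℝ => ((s * P u : ℝ) : ℂ) * (Uc (u - w) + Uc (u + w)) := by
    intro w
    have hPm : Measurable fun u : ℝ => ((s * P u : ℝ) : ℂ) :=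
      Complex.measurable_ofReal.comp (measurable_const.mul P_cont.measurable)
    have m1 : Measurable fun u : ℝ => Uc (u - w) := Uc_meas.comp (by fun_prop)
    have m2 : Measurable fun u : ℝ => Uc (u + w) := Uc_meas.comp (by fun_prop)
    exact hPm.mul (m1.add m2)
  have hmeas' : Measurable fun u : ℝ => ((s * P u : ℝ) : ℂ) * (-Ud (u - z) + Ud (u + z)) := by
    have hPm : Measurable fun u : ℝ => ((s * P u : ℝ) : ℂ) :=
      Complex.measurable_ofReal.comp (measurable_const.mul P_cont.measurable)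
    have m1 : Measurable fun u : ℝ => Ud (u - z) := Ud_meas.comp (by fun_prop)
    have m2 : Measurable fun u : ℝ => Ud (u + z) := Ud_meas.comp (by fun_prop)
    exact hPm.mul (m1.neg.add m2)
  have hint : IntegrableOn (fun u : ℝ => ((s * P u : ℝ) : ℂ) * (Uc (u - z) + Uc (u + z))) (Ioi R) := by
    refine Integrable.mono' (hei.const_mul (s * (16 * K * Cp))) (hmeas z).aestronglyMeasurable ?_
    refine (ae_restrict_mem measurableSet_Ioi).mono fun u hu => ?_
    exact bdF s R hs hR z (by linarith) (by linarith) u hu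
  refine ⟨hint, ?_, ?_⟩
  · have hball : ∀ w ∈ Metric.ball z (1 / 20), |w.re| ≤ R - 19 / 20 ∧ |w.im| ≤ 3 / 20 := by
      intro w hw
      rw [Metric.mem_ball, dist_eq_norm] at hw
      have e1 : |w.re - z.re| ≤ 1 / 20 := by
        rw [← Complex.sub_re]; exact (Complex.abs_re_le_norm _).trans hw.le
      have e2 : |w.im - z.im| ≤ 1 / 20 := by
        rw [← Complex.sub_im]; exact (Complex.abs_im_le_norm _).trans hw.le
      have e3 := abs_add_le (w.re - z.re) z.re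
      have e4 := abs_add_le (w.im - z.im) z.im
      rw [sub_add_cancel] at e3 e4
      constructor <;> linarith
    have := hasDerivAt_integral_of_dominated_loc_of_deriv_le (μ := volume.restrict (Ioi R))
      (F := fun (w : ℂ) (u : ℝ) => ((s * P u : ℝ) : ℂ) * (Uc (u - w) + Uc (u + w)))
      (F' := fun (w : ℂ) (u : ℝ) => ((s * P u : ℝ) : ℂ) * (-Ud (u - w) + Ud (u + w)))
      (x₀ := z) (s := Metric.ball z (1 / 20)) (bound := fun u => s * (48 * K' * Cp) * Real.exp (-2 * u))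
      (Metric.ball_mem_nhds z (by norm_num)) (Eventually.of_forall fun w => (hmeas w).aestronglyMeasurable)
      hint hmeas'.aestronglyMeasurable
      ((ae_restrict_mem measurableSet_Ioi).mono fun u hu w hw =>
        bdF' s R hs hR w (hball w hw).1 (hball w hw).2 u hu)
      (hei.const_mul _)
      ((ae_restrict_mem measurableSet_Ioi).mono fun u hu w hw => by
        obtain ⟨c1, c2⟩ := hball w hw
        obtain ⟨⟨a1, a2, a3⟩, b1, b2, b3⟩ := key R hR w c1 c2 u hu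
        have d1 := hasDerivAt_Uc (z := (u : ℂ) - w) (by linarith) (lt_of_le_of_lt a2 (by linarith))
        have d2 := hasDerivAt_Uc (z := (u : ℂ) + w) (by linarith) (lt_of_le_of_lt b2 (by linarith))
        have g1 : HasDerivAt (fun w : ℂ => (u : ℂ) - w) (-1) w := by
          simpa using (hasDerivAt_id w).const_sub (u : ℂ)
        have g2 : HasDerivAt (fun w : ℂ => (u : ℂ) + w) 1 w := by
          simpa using (hasDerivAt_id w).const_add (u : ℂ)
        have k1 := HasDerivAt.comp w d1 g1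
        have k2 := HasDerivAt.comp w d2 g2
        have k3 := (k1.add k2).const_mul ((s * P u : ℝ) : ℂ)
        refine HasDerivAt.congr_deriv k3 ?_
        ring)
    exact this.2.differentiableAt
  · unfold Tl
    refine (norm_integral_le_of_norm_le (hei.const_mul (s * (16 * K * Cp))) ?_).trans ?_
    · refine (ae_restrict_mem measurableSet_Ioi).mono fun u hu => ?_
      exact bdF s R hs hR z (by linarith) (by linarith) u hu
    · rw [integral_const_mul, hev]
      exact le_of_eq (by ring)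

/-! ### the mean field beyond the window -/

variable {b c B : ℝ} {ζ ζ' : Bool → ℝ → ℂ} {Fe : Bool → ℂ → ℂ}

lemma two_sum_K (s : ℝ) (a : Bool) (x y : ℝ) : ∑ b', (two s ζ ζ' Fe).K a b' x y =
    Up Us (ζ a) x y + Ux (ζ a x - ζ (!a) y) := by
  cases a <;> simp [two_K, Fintype.sum_bool, add_comm]

lemma sum_K_right (s : ℝ) (a : Bool) {R x u : ℝ} (hid : ∀ a y, R ≤ |y| → ζ a y = y) (hR : 0 ≤ R)
    (hx : |x| ≤ R) (hu : R < u) : ∑ b', (two s ζ ζ' Fe).K a b' x u = Uc (u - ζ a x) := by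
  have h0 : R ≤ |u| := hu.le.trans (le_abs_self u)
  have h1 : x ≤ u := ((le_abs_self x).trans hx).trans hu.le
  rw [two_sum_K, Up_of_le h1, hid a u h0, hid (!a) u h0, Uc_eq, ← Ux_neg (u - ζ a x), neg_sub]

lemma sum_K_left (s : ℝ) (a : Bool) {R x u : ℝ} (hid : ∀ a y, R ≤ |y| → ζ a y = y) (hR : 0 ≤ R)
    (hx : |x| ≤ R) (hu : R < u) : ∑ b', (two s ζ ζ' Fe).K a b' x (-u) = Uc (u + ζ a x) := by
  have h0 : R ≤ |(-u)| := by rw [abs_neg]; exact hu.le.trans (le_abs_self u)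
  have h1 : -u < x := by linarith [neg_abs_le x]
  rw [two_sum_K, Up_of_lt h1, hid a _ h0, hid (!a) _ h0, Uc_eq]
  push_cast
  rw [sub_neg_eq_add, add_comm (ζ a x)]

lemma K_int (s : ℝ) (hb : b ≤ l / 4) (P' : ∀ a, Path b c B (ζ a) (ζ' a)) (a b' : Bool) (x : ℝ) :
    Integrable fun y => (two s ζ ζ' Fe).K a b' x y * ((s * P y : ℝ) : ℂ) :=
  two_i1 (Fe := Fe) s hb P' a b' x

theorem tail_id (s : ℝ) (hb : b ≤ l / 4) (P' : ∀ a, Path b c B (ζ a) (ζ' a)) {R : ℝ}
    (hid : ∀ a y, R ≤ |y| → ζ a y = y) (hR : 0 ≤ R) (a : Bool) {x : ℝ} (hx : |x| ≤ R) :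
    ∑ b', ∫ y in (Icc (-R) R)ᶜ, (two s ζ ζ' Fe).K a b' x y * ((s * P y : ℝ) : ℂ) = Tl s R (ζ a x) := by
  have hi := fun b' => (K_int (Fe := Fe) s hb P' a b' x).integrableOn (s := (Icc (-R) R)ᶜ)
  rw [← integral_finsetSum _ fun b' _ => hi b']
  have hs : (Icc (-R) R)ᶜ = Iio (-R) ∪ Ioi R := by
    ext y
    simp only [mem_compl_iff, mem_Icc, not_and_or, not_le, mem_union, mem_Iio, mem_Ioi]
  have hd : Disjoint (Iio (-R)) (Ioi R) := by
    rw [Set.disjoint_left]
    intro y h1 h2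
    rw [mem_Iio] at h1
    rw [mem_Ioi] at h2
    linarith
  have hI : Integrable fun y => ∑ b', (two s ζ ζ' Fe).K a b' x y * ((s * P y : ℝ) : ℂ) :=
    integrable_finsetSum _ fun b' _ => K_int (Fe := Fe) s hb P' a b' x
  rw [hs, setIntegral_union hd measurableSet_Ioi hI.integrableOn hI.integrableOn]
  have e1 : ∫ y in Iio (-R), ∑ b', (two s ζ ζ' Fe).K a b' x y * ((s * P y : ℝ) : ℂ) =
      ∫ u in Ioi R, ((s * P u : ℝ) : ℂ) * Uc (u + ζ a x) := by
    rw [← integral_Iic_eq_integral_Iio]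
    have h1 := integral_comp_neg_Ioi R (fun y => ∑ b', (two s ζ ζ' Fe).K a b' x y * ((s * P y : ℝ) : ℂ))
    rw [← h1]
    refine setIntegral_congr_fun measurableSet_Ioi fun u hu => ?_
    beta_reduce
    rw [← Finset.sum_mul, sum_K_left s a hid hR hx hu, P_neg, mul_comm]
  have e2 : ∫ y in Ioi R, ∑ b', (two s ζ ζ' Fe).K a b' x y * ((s * P y : ℝ) : ℂ) =
      ∫ u in Ioi R, ((s * P u : ℝ) : ℂ) * Uc (u - ζ a x) := by
    refine setIntegral_congr_fun measurableSet_Ioi fun u hu => ?_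
    beta_reduce
    rw [← Finset.sum_mul, sum_K_right s a hid hR hx hu, mul_comm]
  have i2 : IntegrableOn (fun u : ℝ => ((s * P u : ℝ) : ℂ) * Uc (u - ζ a x)) (Ioi R) := by
    refine (hI.integrableOn (s := Ioi R)).congr_fun (fun u hu => ?_) measurableSet_Ioi
    beta_reduce
    rw [← Finset.sum_mul, sum_K_right s a hid hR hx hu, mul_comm]
  have i1 : IntegrableOn (fun u : ℝ => ((s * P u : ℝ) : ℂ) * Uc (u + ζ a x)) (Ioi R) := by
    refine ((hI.comp_neg).integrableOn (s := Ioi R)).congr_fun (fun u hu => ?_) measurableSet_Ioi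
    beta_reduce
    rw [← Finset.sum_mul, sum_K_left s a hid hR hx hu, P_neg, mul_comm]
  rw [e1, e2, ← integral_add i1 i2]
  unfold Tl
  refine setIntegral_congr_fun measurableSet_Ioi fun u _ => ?_
  beta_reduce
  ring

/-- **the field on the window**: `s vc(ζ x) - ∑ ∫_W K ρ = K B + tail` -/
theorem window_field (s : ℝ) (hb : b ≤ l / 4) (P' : ∀ a, Path b c B (ζ a) (ζ' a)) {R : ℝ}
    (hid : ∀ a y, R ≤ |y| → ζ a y = y) (hR : 0 ≤ R) (a : Bool) {x : ℝ} (hx : |x| ≤ R) :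
    s * NUAct.vc (ζ a x) - ∑ b', ∫ y in Icc (-R) R, (two s ζ ζ' Fe).K a b' x y * ((s * P y : ℝ) : ℂ) =
      ∑ b', (two s ζ ζ' Fe).KB a b' x + Tl s R (ζ a x) := by
  have h1 := two_fe (Fe := Fe) s hb P' a x
  rw [← h1, ← tail_id (Fe := Fe) s hb P' hid hR a hx]
  have h2 : ∀ b', ∫ y in (Icc (-R) R)ᶜ, (two s ζ ζ' Fe).K a b' x y * ((s * P y : ℝ) : ℂ) =
      (∫ y, (two s ζ ζ' Fe).K a b' x y * ((s * P y : ℝ) : ℂ)) -
        ∫ y in Icc (-R) R, (two s ζ ζ' Fe).K a b' x y * ((s * P y : ℝ) : ℂ) := by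
    intro b'
    have := integral_add_compl (measurableSet_Icc (a := -R) (b := R)) (K_int (Fe := Fe) s hb P' a b' x)
    rw [← this]
    ring
  have h3 : ∀ b', (two s ζ ζ' Fe).KB a b' x = (∫ y, (two s ζ ζ' Fe).K a b' x y * (two s ζ ζ' Fe).ρh b' y) -
      ∫ y, (two s ζ ζ' Fe).K a b' x y * ((s * P y : ℝ) : ℂ) := by
    intro b'
    rw [← integral_sub (two_i2 s hb P' a b' x) (K_int (Fe := Fe) s hb P' a b' x)]
    unfold Gas.KB
    refine integral_congr_ae (Eventually.of_forall fun y => ?_)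
    simp only [Gas.B, two_rhoh, two_rho]
    ring
  simp only [h2, h3, Fintype.sum_bool]
  ring

end

end NUR2
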