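import Pool.Agent.NUR2.Ext
import Pool.Agent.NUR2.Tail
import Pool.Agent.NUR2.Wo
import Pool.Agent.NUR2.R2core
import Pool.Agent.NUAct.Qfin

/-!
# The one body data of R2

For one body factors `exp (s Re vc(ζ) + Re F(ζ) + Er)` on `|x| ≤ b`, `ζ = x + i η x`, `F` analytic, `Er` real:
`V = E + I`, `I` = field of the reference density on the window, and `E ∘ ψ - E` is small in the class `KC`.
-/

set_option autoImplicit false

open MeasureTheory Set Filter Topology NUMF NUKer NUOC NUAct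

namespace NUR2

noncomputable section

/-- the gas on the curves `t + i η_a t` (`true` = `X`) -/
abbrev gs (s : ℝ) (η η1 : Bool → ℝ → ℝ) (F : Bool → ℂ → ℂ) : Gas Bool :=
  two s (fun a => zt (iD (η a))) (fun a => zd (iD (η1 a))) F

/-- field of the reference density on the window -/
def Iref (R s : ℝ) (η η1 : Bool → ℝ → ℝ) (a : Bool) : ℝ → ℝ :=
  if a then IX R (fun t => s * P t) Uw Ug (kw (iD (η true)) (iD (η1 true))) (kg (iD (η true)) (iD (η false)))
  else IY R (fun t => s * P t) Uw Ug (kw (iD (η false)) (iD (η1 false))) (kg (iD (η true)) (iD (η false)))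

/-- remaining one body potential, on the window -/
def E0 (s R : ℝ) (η η1 : Bool → ℝ → ℝ) (F : Bool → ℂ → ℂ) (Er : Bool → ℝ → ℝ) (a : Bool) (x : ℝ) : ℝ :=
  (∑ d, (gs s η η1 F).KB a d x).re + (F a (zt (iD (η a)) x) + Tl s R (zt (iD (η a)) x)).re + Er a x

/-- remaining one body potential, clamped -/
def Ef (s R b : ℝ) (η η1 : Bool → ℝ → ℝ) (F : Bool → ℂ → ℂ) (Er : Bool → ℝ → ℝ) (a : Bool) (x : ℝ) : ℝ :=
  E0 s R η η1 F Er a (cl b x)

variable {s ε M b lam : ℝ} {e η η1 : Bool → ℝ → ℝ} {F : Bool → ℂ → ℂ} {Er : Bool → ℝ → ℝ}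

lemma eta_zero (hc : ∀ a, Cur s ε M b (e a) (η a)) (a : Bool) {y : ℝ} (hy : b < |y|) : η a y = 0 := by
  have h1 := (hc a).oc.le y
  rw [(hc a).supp y hy] at h1
  have h2 := norm_le_zero_iff.1 h1
  unfold iD at h2
  have h3 := mul_eq_zero.1 h2
  rcases h3 with h3 | h3
  · exact_mod_cast h3
  · exact absurd h3 Complex.I_ne_zero

lemma eta_le (hc : ∀ a, Cur s ε M b (e a) (η a)) (a : Bool) (y : ℝ) : |η a y| ≤ ε :=
  (hc a).O4.le y

lemma paths (hs : 0 ≤ s) (hε : ε ≤ 1 / 20) (hc : ∀ a, Cur s ε M b (e a) (η a))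
    (hη : ∀ a t, HasDerivAt (η a) (η1 a t) t) (a : Bool) :
    Path (l / 4) (1 / 2) 2 (zt (iD (η a))) (zd (iD (η1 a))) := by
  obtain ⟨η2, h1, _⟩ := (hc a).disp' hs (hη a)
  exact h1.path hε

lemma zt_id (hc : ∀ a, Cur s ε M b (e a) (η a)) (a : Bool) {y : ℝ} (hy : b < |y|) :
    zt (iD (η a)) y = y := by
  unfold zt iD
  rw [eta_zero hc a hy]
  simp

/-- the field of the reference density is the real part of the complex one -/
theorem exists_Iref : ∃ K : ℝ, 1 ≤ K ∧ ∀ {s ε M b : ℝ} {e η η1 : Bool → ℝ → ℝ} {F : Bool → ℂ → ℂ} (R : ℝ),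
    1 ≤ R → 0 ≤ s → ε ≤ 1 / 20 → (∀ a, Cur s ε M b (e a) (η a)) → (∀ a t, HasDerivAt (η a) (η1 a t) t) →
    K * R ^ 7 * ε ≤ 1 → ∀ (a : Bool) (x : ℝ), |x| ≤ R →
    Iref R s η η1 a x = (∑ d, ∫ y in Icc (-R) R, (gs s η η1 F).K a d x y * ((s * P y : ℝ) : ℂ)).re := by
  obtain ⟨K1, hK1, H1⟩ := exists_own
  obtain ⟨K2, hK2, H2⟩ := exists_cross
  refine ⟨K1 + K2, by linarith, fun {s ε M b e η η1 F} R hR hs hε hc hη hsm a x hx => ?_⟩
  have hR0 : (0:ℝ) ≤ R := by linarith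
  have hε0 := (hc true).ε0
  have hR7 : 0 ≤ R ^ 7 * ε := by positivity
  have h67 : R ^ 6 ≤ R ^ 7 := pow_le_pow_right₀ hR (by norm_num)
  have s1 : K1 * R ^ 7 * ε ≤ 1 := by nlinarith
  have s2 : K2 * R ^ 6 * ε ≤ 1 := by
    have : K2 * R ^ 6 * ε ≤ K2 * R ^ 7 * ε := by gcongr
    nlinarith
  have P' := paths hs hε hc hη
  have hD := fun a => (hc a).disp (hη a) R
  have own := fun a => (H1 R hR ε _ _ (hD a) s1).2.2
  have crs := (H2 R hR ε _ _ _ _ (hD true) (hD false) s2).2.2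
  have hi : ∀ d, IntegrableOn (fun y => (gs s η η1 F).K a d x y * ((s * P y : ℝ) : ℂ)) (Icc (-R) R) :=
    fun d => (K_int (Fe := F) s (le_refl _) P' a d x).integrableOn
  rw [Complex.re_sum]
  have hre : ∀ d, (∫ y in Icc (-R) R, (gs s η η1 F).K a d x y * ((s * P y : ℝ) : ℂ)).re =
      ∫ y in Icc (-R) R, ((gs s η η1 F).K a d x y).re * (s * P y) := by
    intro d
    have h1 : (∫ y in Icc (-R) R, (gs s η η1 F).K a d x y * ((s * P y : ℝ) : ℂ)).re =
        ∫ y in Icc (-R) R, ((gs s η η1 F).K a d x y * ((s * P y : ℝ) : ℂ)).re :=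
      (integral_re (hi d)).symm
    rw [h1]
    refine integral_congr_ae (Eventually.of_forall fun y => ?_)
    beta_reduce
    rw [mul_comm ((gs s η η1 F).K a d x y) _, Complex.re_ofReal_mul, mul_comm]
  simp only [hre, Fintype.sum_bool]
  have hne : ∀ᵐ y ∂(mW R), y ≠ x := by
    refine ae_restrict_of_ae ?_
    simp [ae_iff, measure_singleton]
  have hown : ∀ a, ∫ y, (Uw (x - y) - kw (iD (η a)) (iD (η1 a)) x y) * (s * P y) ∂(mW R) =
      ∫ y in Icc (-R) R, ((gs s η η1 F).K a a x y).re * (s * P y) := by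
    intro a
    refine integral_congr_ae ?_
    filter_upwards [hne, mem_mW (R := R)] with y hy hyR
    rw [two_K, if_pos rfl, own a x y hx hyR (Ne.symm hy), Complex.sub_re, NUAct.Lw_re, Complex.ofReal_re]
    rfl
  unfold Iref
  cases a
  · simp only [Bool.false_eq_true, if_false]
    unfold IY
    rw [hown false, add_comm]
    congr 1
    refine integral_congr_ae ?_
    filter_upwards [mem_mW (R := R)] with y hyR
    have e1 : (gs s η η1 F).K false true x y = Ux (zt (iD (η true)) y - zt (iD (η false)) x) := by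
      rw [two_K, if_neg (by decide), ← Ux_neg, neg_sub]
    rw [e1, crs y x hyR hx, Complex.sub_re, NUAct.Lg_re, Complex.ofReal_re]
    rfl
  · simp only [if_true]
    unfold IX
    rw [hown true]
    congr 1
    refine integral_congr_ae ?_
    filter_upwards [mem_mW (R := R)] with y hyR
    have e1 : (gs s η η1 F).K true false x y = Ux (zt (iD (η true)) x - zt (iD (η false)) y) := by
      rw [two_K, if_neg (by decide)]
    rw [e1, crs x y hx hyR, Complex.sub_re, NUAct.Lg_re, Complex.ofReal_re]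
    rfl

/-- `V = E + I` -/
theorem V_eq (hs : 0 ≤ s) (hε : ε ≤ 1 / 20) (hc : ∀ a, Cur s ε M b (e a) (η a))
    (hη : ∀ a t, HasDerivAt (η a) (η1 a t) t) {R : ℝ} (hR : 0 ≤ R) (hbR : b < R)
    (hI : ∀ (a : Bool) (x : ℝ), |x| ≤ R →
      Iref R s η η1 a x = (∑ d, ∫ y in Icc (-R) R, (gs s η η1 F).K a d x y * ((s * P y : ℝ) : ℂ)).re)
    (a : Bool) {x : ℝ} (hx : |x| ≤ R) :
    s * (NUAct.vc (zt (iD (η a)) x)).re + (F a (zt (iD (η a)) x)).re + Er a x =
      E0 s R η η1 F Er a x + Iref R s η η1 a x := by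
  have P' := paths hs hε hc hη
  have h1 := window_field (Fe := F) s (le_refl _) P' (fun a y hy => zt_id hc a (lt_of_lt_of_le hbR hy)) hR a hx
  have h2 := congrArg Complex.re h1
  rw [Complex.sub_re, Complex.re_ofReal_mul, Complex.add_re] at h2
  rw [hI a x hx]
  unfold E0
  rw [Complex.add_re]
  linarith

/-- continuity of the clamped potential -/
lemma Ef_cont (hb0 : 0 ≤ b) (hc : ∀ a, Cur s ε M b (e a) (η a)) {R : ℝ} (hR : 1 ≤ R) (hbR : b ≤ R) {Λ A Ar : ℝ}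
    (hQ : ∀ a d, KC1 R Λ (fun t => (((gs s η η1 F).KB a d t).re : ℂ)))
    {κ : ℝ} (hG : ∀ (a : Bool) (z : ℂ), |z.re| ≤ b + 2 → |z.im| < κ →
      DifferentiableAt ℂ (fun z => F a z + Tl s R z) z ∧ ‖F a z + Tl s R z‖ ≤ A)
    (hκ : 0 < κ) (hε : ε ≤ κ / 2) (hE : ∀ a, Ext 4 b Ar (Er a)) (a : Bool) : Continuous (Ef s R b η η1 F Er a) := by
  have hR0 : (0:ℝ) ≤ R := by linarith
  have hcl := cl_cont b
  have hclR : ∀ x, cl R (cl b x) = cl b x := fun x => cl_eq ((cl_abs hb0 x).trans hbR)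
  have h1 : ∀ d, Continuous fun x => ((gs s η η1 F).KB a d (cl b x)).re := by
    intro d
    have h := ((hQ a d).left.clamp hR0).1
    have h2 := h.comp (hcl.prodMk (continuous_const (y := (0:ℝ))))
    refine h2.congr fun x => ?_
    simp only [Function.comp]
    rw [hclR]
  have h2 : Continuous fun x => (F a (zt (iD (η a)) (cl b x)) + Tl s R (zt (iD (η a)) (cl b x))).re := by
    have hz : Continuous fun x => zt (iD (η a)) (cl b x) := by
      have : Continuous (η a) := (hc a).O4.cont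
      unfold zt iD
      fun_prop
    refine Complex.continuous_re.comp (continuous_iff_continuousAt.2 fun x => ?_)
    have e1 : (zt (iD (η a)) (cl b x)).re = cl b x := by simp [zt, iD]
    have e2 : (zt (iD (η a)) (cl b x)).im = η a (cl b x) := by simp [zt, iD]
    have h3 := (hG a (zt (iD (η a)) (cl b x)) (by rw [e1]; linarith [cl_abs hb0 x])
      (by rw [e2]; linarith [eta_le hc a (cl b x)])).1.continuousAt
    exact ContinuousAt.comp (g := fun z => F a z + Tl s R z) (f := fun x => zt (iD (η a)) (cl b x)) h3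
      hz.continuousAt
  have h3 : Continuous fun x => Er a (cl b x) := by
    obtain ⟨u, hu, huE⟩ := hE a
    refine (hu.cont.comp hcl).congr fun x => ?_
    exact huE _ (cl_abs hb0 x)
  unfold Ef E0
  have h4 : (fun x => (∑ d, (gs s η η1 F).KB a d (cl b x)).re +
      (F a (zt (iD (η a)) (cl b x)) + Tl s R (zt (iD (η a)) (cl b x))).re + Er a (cl b x)) =
      fun x => ((gs s η η1 F).KB a true (cl b x)).re + ((gs s η η1 F).KB a false (cl b x)).re +
        (F a (zt (iD (η a)) (cl b x)) + Tl s R (zt (iD (η a)) (cl b x))).re + Er a (cl b x) := by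
    funext x
    rw [Fintype.sum_bool, Complex.add_re]
  rw [h4]
  exact (((h1 true).add (h1 false)).add h2).add h3

/-- **the one body data of the two species** -/
theorem exists_fieldK {κ : ℝ} (hκ : 0 < κ) (hκ1 : κ ≤ 1 / 10) : ∃ K : ℝ, 1 ≤ K ∧ ∀ {s ε M b lam A Ar : ℝ} {e η η1 : Bool → ℝ → ℝ}
    {F : Bool → ℂ → ℂ} {Er ab : Bool → ℝ → ℝ} (R : ℝ), 1 ≤ R → b + 3 ≤ R → 0 ≤ s →
    (∀ a, Cur s ε M b (e a) (η a)) → (∀ a t, HasDerivAt (η a) (η1 a t) t) →
    K * R ^ 7 * (ε + lam) ≤ 1 → 0 ≤ A →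
    (∀ (a : Bool) (z : ℂ), |z.re| ≤ b + 2 → |z.im| < κ → DifferentiableAt ℂ (F a) z ∧ ‖F a z‖ ≤ A) →
    (∀ a, Ext 4 b Ar (Er a)) → (∀ a x, 0 ≤ ab a x) → (∀ a, Measurable (ab a)) →
    (∀ a x, |x| ≤ b → ab a x = Real.exp (s * (NUAct.vc (zt (iD (η a)) x)).re +
      (F a (zt (iD (η a)) x)).re + Er a x)) →
    ∀ (ψ ψ' : Bool → ℝ → ℝ), (∀ a, Xi lam b (fun t => ψ a t - t) (fun t => ψ' a t - 1)) → ∀ a,
    OB R (K * (R ^ 8 * (M * (ε + lam)) + R ^ 3 * ((A + s * Real.exp (-2 * R) + Ar) * lam)))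
      (ψ a) (ψ' a) (fun t => ‖1 + iD (η1 a) t‖ * ab a t) (Ef s R b η η1 F Er a) (Iref R s η η1 a)
      (kw (iD (η a)) (iD (η1 a)))
      (kw (cD (fun t => ψ a t - t) (iD (η a))) (cD1 (fun t => ψ a t - t) (fun t => ψ' a t - 1) (iD (η1 a)))) := by
  obtain ⟨K1, hK1, H1⟩ := exists_Iref
  obtain ⟨K2, hK2, H2⟩ := exists_Qd
  obtain ⟨Ct, hCt, H3⟩ := exists_tail
  obtain ⟨C4, hC4, H4⟩ := an_deltaK 3 hκ (by linarith)
  obtain ⟨C5, hC5, H5⟩ := ext_delta 3
  obtain ⟨C6, hC6, H6⟩ := exists_KC1_of_O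
  have hκi : 0 < 2 / κ := by positivity
  refine ⟨(20 + 2 / κ) * (K1 + K2) + 4 * K2 + C6 * (C4 * (1 + Ct) + C5), ?_, ?_⟩
  · have h1 : 0 ≤ C6 * (C4 * (1 + Ct) + C5) := by positivity
    have h2 : 0 ≤ 2 / κ * (K1 + K2) := by positivity
    linarith
  intro s ε M b lam A Ar e η η1 F Er ab R hR hbR hs hc hη hsm hA hF hE ha0 ham hab ψ ψ' hψ a
  have hR0 : (0:ℝ) ≤ R := by linarith
  have hb0 := (hψ true).b0
  have hε0 := (hc true).ε0
  have hM0 := (hc true).M0 hs
  have hlam0 := (hψ true).lam0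
  have hlam1 := (hψ true).lam1
  have hAr0 := (hE true).nonneg
  have hR7 : (1:ℝ) ≤ R ^ 7 := one_le_pow₀ hR
  have hX0 : 0 ≤ R ^ 7 * ε := by positivity
  have hX1 : 0 ≤ R ^ 7 * lam := by positivity
  have hY0 : 0 ≤ C6 * (C4 * (1 + Ct) + C5) := by positivity
  have hsm' : ((20 + 2 / κ) * (K1 + K2) + 4 * K2 + C6 * (C4 * (1 + Ct) + C5)) *
      (R ^ 7 * ε + R ^ 7 * lam) ≤ 1 := by
    refine le_trans (le_of_eq ?_) hsm
    ring
  have hsum0 : 0 ≤ R ^ 7 * ε + R ^ 7 * lam := by linarith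
  have s0 : 20 * (K1 + K2) * (R ^ 7 * ε + R ^ 7 * lam) ≤ 1 := by
    refine le_trans ?_ hsm'
    refine mul_le_mul_of_nonneg_right ?_ hsum0
    have : 0 ≤ 2 / κ * (K1 + K2) := by positivity
    linarith
  have s0κ : 2 / κ * (R ^ 7 * ε) ≤ 1 := by
    refine le_trans ?_ hsm'
    have h1 : 2 / κ ≤ (20 + 2 / κ) * (K1 + K2) + 4 * K2 + C6 * (C4 * (1 + Ct) + C5) := by
      have h2 : 2 / κ * 1 ≤ 2 / κ * (K1 + K2) := mul_le_mul_of_nonneg_left (by linarith) hκi.le
      have h3 : 0 ≤ 20 * (K1 + K2) := by positivity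
      linarith
    exact mul_le_mul h1 (by linarith) hX0 (by positivity)
  have w1 : 0 ≤ K1 * (R ^ 7 * ε) := by positivity
  have w2 : 0 ≤ K2 * (R ^ 7 * ε) := by positivity
  have w3 : 0 ≤ K1 * (R ^ 7 * lam) := by positivity
  have w4 : 0 ≤ K2 * (R ^ 7 * lam) := by positivity
  have s0' : 20 * (K1 * (R ^ 7 * ε)) + 20 * (K2 * (R ^ 7 * ε)) + 20 * (K1 * (R ^ 7 * lam)) +
      20 * (K2 * (R ^ 7 * lam)) ≤ 1 := by
    refine le_trans (le_of_eq ?_) s0
    ring
  have s1 : K1 * R ^ 7 * ε ≤ 1 := by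
    have : K1 * R ^ 7 * ε = K1 * (R ^ 7 * ε) := by ring
    linarith
  have s2 : K2 * R ^ 7 * (ε + lam) ≤ 1 := by
    have : K2 * R ^ 7 * (ε + lam) = K2 * (R ^ 7 * ε) + K2 * (R ^ 7 * lam) := by ring
    linarith
  have hε : ε ≤ 1 / 20 := by
    have h1 : ε ≤ R ^ 7 * ε := le_mul_of_one_le_left hε0 hR7
    have h2 : R ^ 7 * ε ≤ K1 * (R ^ 7 * ε) := le_mul_of_one_le_left hX0 hK1
    linarith
  have hεκ : ε ≤ κ / 2 := by
    have h1 : ε ≤ R ^ 7 * ε := le_mul_of_one_le_left hε0 hR7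
    have h2 : 2 / κ * ε ≤ 1 := (mul_le_mul_of_nonneg_left h1 hκi.le).trans s0κ
    rw [div_mul_eq_mul_div, div_le_one hκ] at h2
    linarith
  have hI := fun a x hx => H1 (F := F) R hR hs hε hc hη s1 a x hx
  have hQ := fun a d => H2 R hR (by linarith : b ≤ R) hs hc hη hψ s2 F a d
  have hG : ∀ (a : Bool) (z : ℂ), |z.re| ≤ b + 2 → |z.im| < κ →
      DifferentiableAt ℂ (fun z => F a z + Tl s R z) z ∧
      ‖F a z + Tl s R z‖ ≤ A + Ct * s * Real.exp (-2 * R) := by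
    intro a z h1 h2
    obtain ⟨f1, f2⟩ := hF a z h1 h2
    obtain ⟨_, t1, t2⟩ := H3 s R hs hR z (by linarith) (by linarith)
    exact ⟨f1.add t1, (norm_add_le _ _).trans (add_le_add f2 t2)⟩
  have hA' : 0 ≤ A + Ct * s * Real.exp (-2 * R) := by positivity
  have hψ1 : ∀ t, t + (ψ a t - t) = ψ a t := fun t => by ring
  have hψin : ∀ {t : ℝ}, |t| ≤ b → |ψ a t| ≤ b := by
    intro t ht
    have := (hψ a).maps ht
    rwa [hψ1] at this
  have hψout : ∀ {t : ℝ}, b < |t| → ψ a t = t := by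
    intro t ht
    have := (hψ a).zero t ht
    linarith
  have hd : ∀ x, kw (cD (fun t => ψ a t - t) (iD (η a))) (cD1 (fun t => ψ a t - t) (fun t => ψ' a t - 1)
      (iD (η1 a))) x x - kw (iD (η a)) (iD (η1 a)) x x = 2 * Real.log (1 + (ψ' a x - 1)) +
      2 * (Real.log ‖1 + iD (η1 a) (ψ a x)‖ - Real.log ‖1 + iD (η1 a) x‖) := by
    intro x
    have h0 := comp_diag (ξ := fun t => ψ a t - t) (D := iD (η a)) (hψ a).pos (one_add_iD_ne (η1 a)) x
    simp only [hψ1] at h0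
    exact h0
  -- `ξ` vanishes at the boundary
  have hξb : ∀ x, b ≤ |x| → ψ a x - x = 0 := by
    intro x hx
    rcases hx.lt_or_eq with h | h
    · exact (hψ a).zero x h
    · -- continuity at the boundary
      have hcx : Continuous fun t => ψ a t - t := (hψ a).o.cont
      by_contra hne
      have hopen : ∀ᶠ y in 𝓝 x, ψ a y - y ≠ 0 := hcx.continuousAt.eventually_ne hne
      have hfr : ∃ᶠ y in 𝓝 x, b < |y| := by
        rcases le_or_gt 0 x with h0 | h0
        · have hx' : x = b := by rw [h, abs_of_nonneg h0]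
          have h5 : ∃ᶠ y in 𝓝[>] x, b < |y| := by
            apply Eventually.frequently
            filter_upwards [self_mem_nhdsWithin] with y hy
            rw [mem_Ioi, hx'] at hy
            exact lt_of_lt_of_le hy (le_abs_self y)
          exact h5.filter_mono nhdsWithin_le_nhds
        · have hx' : -x = b := by rw [h, abs_of_neg h0]
          have h5 : ∃ᶠ y in 𝓝[<] x, b < |y| := by
            apply Eventually.frequently
            filter_upwards [self_mem_nhdsWithin] with y hy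
            rw [mem_Iio] at hy
            have := neg_abs_le y
            linarith
          exact h5.filter_mono nhdsWithin_le_nhds
      obtain ⟨y, hy1, hy2⟩ := (hfr.and_eventually hopen).exists
      exact hy2 ((hψ a).zero y hy1)
  refine ⟨fun x => mul_nonneg (norm_nonneg _) (ha0 a x), ?_, ?_, fun x hx => ?_, ?_⟩
  · have hm : Measurable fun t => iD (η1 a) t := by
      obtain ⟨η1', q1, q2⟩ : ∃ f, (∀ t, HasDerivAt (η a) (f t) t) ∧ Continuous f := by
        obtain ⟨_, f', w1, w2⟩ := (hc a).O4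
        exact ⟨f', w1, w2.cont⟩
      have q3 : η1' = η1 a := funext fun t => (q1 t).unique (hη a t)
      rw [q3] at q2
      unfold iD
      exact ((Complex.continuous_ofReal.comp q2).mul continuous_const).measurable
    exact ((measurable_const.add hm).norm).mul (ham a)
  · exact Ef_cont hb0 hc hR (by linarith) (fun a d => (hQ a d).1) hG hκ hεκ hE a
  · rcases le_or_gt |x| b with hxb | hxb
    · exact one_rel (R := b) (ψ := ψ a) (ψ' := ψ' a) (ξ1 := fun t => ψ' a t - 1) (η1 := η1 a) (a := ab a)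
        (V := fun x => s * (NUAct.vc (zt (iD (η a)) x)).re + (F a (zt (iD (η a)) x)).re + Er a x)
        (E := Ef s R b η η1 F Er a) (I := Iref R s η η1 a)
        (dk := fun x => kw (cD (fun t => ψ a t - t) (iD (η a))) (cD1 (fun t => ψ a t - t)
          (fun t => ψ' a t - 1) (iD (η1 a))) x x - kw (iD (η a)) (iD (η1 a)) x x)
        (fun x => by ring) (hψ a).pos (fun x hx => hψin hx) hd (hab a)
        (fun x hx => by
          unfold Ef
          rw [cl_eq hx]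
          exact V_eq hs hε hc hη hR0 (by linarith) hI a (by linarith)) hxb
    · have hz := hψout hxb
      have hz1 : ψ' a x = 1 := by
        have e1 : (fun t => ψ a t - t) =ᶠ[𝓝 x] fun _ => 0 := by
          filter_upwards [(continuous_abs.tendsto x).eventually (lt_mem_nhds hxb)] with y hy
          exact (hψ a).zero y hy
        have e2 := ((hψ a).d x).unique ((hasDerivAt_const x (0:ℝ)).congr_of_eventuallyEq e1)
        linarith
      have h2 := hd x
      rw [hz, hz1] at h2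
      simp only [sub_self, add_zero, Real.log_one, mul_zero] at h2
      rw [h2, hz, hz1, sub_self, sub_self, mul_zero, add_zero, add_zero, Real.exp_zero]
  · -- smallness
    have e0 : ∀ x, Ef s R b η η1 F Er a (ψ a x) - Ef s R b η η1 F Er a x =
        E0 s R η η1 F Er a (ψ a x) - E0 s R η η1 F Er a x := by
      intro x
      rcases le_or_gt |x| b with hxb | hxb
      · unfold Ef
        rw [cl_eq hxb, cl_eq (hψin hxb)]
      · rw [hψout hxb, sub_self, sub_self]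
    have q1 := H4 (b := b) (lam := ε) (lam0 := lam) (G := fun z => F a z + Tl s R z) (η := η a)
      (ξ := fun t => ψ a t - t) hεκ (by linarith) (hG a) hA' (hc a).O4 (hψ a).o.lower
      hξb (fun x hx => (hψ a).maps hx)
    have q2 := H5 (b := b) (hE a) (hψ a).o.lower (by linarith) hξb (fun x hx => (hψ a).maps hx)
    have k1 := (H6 R hR _ _ (q1.add q2)).left
    have k2 := ((hQ a true).2.left.sub (hQ a true).1.left).add ((hQ a false).2.left.sub (hQ a false).1.left)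
    have k3 := k1.add k2
    refine (k3.mono ?_).congr fun x y hx hy => ?_
    · have m1 : M * ε ≤ M * (ε + lam) := mul_le_mul_of_nonneg_left (by linarith) hM0
      have m0 : 0 ≤ M * (ε + lam) := mul_nonneg hM0 (by linarith)
      have r8 : 0 ≤ R ^ 8 := by positivity
      have z1 : K2 * R ^ 8 * (M * (ε + lam)) + K2 * R ^ 8 * (M * ε) +
          (K2 * R ^ 8 * (M * (ε + lam)) + K2 * R ^ 8 * (M * ε)) ≤ 4 * K2 * (R ^ 8 * (M * (ε + lam))) := by
        have : K2 * R ^ 8 * (M * ε) ≤ K2 * R ^ 8 * (M * (ε + lam)) :=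
          mul_le_mul_of_nonneg_left m1 (by positivity)
        linarith
      have hexp : 0 ≤ s * Real.exp (-2 * R) := by positivity
      have z2 : C6 * R ^ 3 * (C4 * (A + Ct * s * Real.exp (-2 * R)) * lam + C5 * (Ar * lam)) ≤
          C6 * (C4 * (1 + Ct) + C5) * (R ^ 3 * ((A + s * Real.exp (-2 * R) + Ar) * lam)) := by
        have h1 : C4 * (A + Ct * s * Real.exp (-2 * R)) ≤ C4 * (1 + Ct) * (A + s * Real.exp (-2 * R)) := by
          have : 0 ≤ C4 * (Ct * A + s * Real.exp (-2 * R)) := by positivity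
          nlinarith
        have h2 : C4 * (1 + Ct) * (A + s * Real.exp (-2 * R)) + C5 * Ar ≤
            (C4 * (1 + Ct) + C5) * (A + s * Real.exp (-2 * R) + Ar) := by
          have h3 : 0 ≤ C4 * (1 + Ct) * Ar := by positivity
          have h4 : 0 ≤ C5 * (A + s * Real.exp (-2 * R)) := by positivity
          nlinarith
        calc C6 * R ^ 3 * (C4 * (A + Ct * s * Real.exp (-2 * R)) * lam + C5 * (Ar * lam)) =
              C6 * R ^ 3 * ((C4 * (A + Ct * s * Real.exp (-2 * R)) + C5 * Ar) * lam) := by ring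
          _ ≤ C6 * R ^ 3 * ((C4 * (1 + Ct) + C5) * (A + s * Real.exp (-2 * R) + Ar) * lam) := by
              gcongr
              linarith
          _ = _ := by ring
      have z3 : 0 ≤ ((20 + 2 / κ) * (K1 + K2)) * (R ^ 8 * (M * (ε + lam)) +
          R ^ 3 * ((A + s * Real.exp (-2 * R) + Ar) * lam)) := by positivity
      have z4 : 0 ≤ 4 * K2 * (R ^ 3 * ((A + s * Real.exp (-2 * R) + Ar) * lam)) := by positivity
      have z5 : 0 ≤ C6 * (C4 * (1 + Ct) + C5) * (R ^ 8 * (M * (ε + lam))) := by positivity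
      linarith
    · rw [e0]
      unfold E0
      simp only [Fintype.sum_bool, Complex.add_re, hψ1]
      have e3 : ∀ t : ℝ, ((t : ℝ) : ℂ) + (η a t : ℂ) * Complex.I = zt (iD (η a)) t := fun t => rfl
      simp only [e3]
      push_cast
      ring

/-- **the one body data, literal form**: the potentials `EX`, `EY` do not depend on the transports -/
theorem exists_OBK {κ : ℝ} (hκ : 0 < κ) (hκ1 : κ ≤ 1 / 10) : ∃ K : ℝ, 1 ≤ K ∧ ∀ {s ε M b A Ar : ℝ} {eX eY ηX ηX1 ηY ηY1 ErX ErY aX aY : ℝ → ℝ}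
    {FX FY : ℂ → ℂ} (R : ℝ), 1 ≤ R → b + 3 ≤ R → 0 ≤ s →
    Cur s ε M b eX ηX → Cur s ε M b eY ηY → (∀ t, HasDerivAt ηX (ηX1 t) t) →
    (∀ t, HasDerivAt ηY (ηY1 t) t) → 0 ≤ A →
    (∀ z : ℂ, |z.re| ≤ b + 2 → |z.im| < κ → DifferentiableAt ℂ FX z ∧ ‖FX z‖ ≤ A) →
    (∀ z : ℂ, |z.re| ≤ b + 2 → |z.im| < κ → DifferentiableAt ℂ FY z ∧ ‖FY z‖ ≤ A) →
    Ext 4 b Ar ErX → Ext 4 b Ar ErY → (∀ x, 0 ≤ aX x) → (∀ x, 0 ≤ aY x) → Measurable aX → Measurable aY →
    (∀ x, |x| ≤ b → aX x = Real.exp (s * (NUAct.vc (zt (iD ηX) x)).re + (FX (zt (iD ηX) x)).re + ErX x)) →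
    (∀ x, |x| ≤ b → aY x = Real.exp (s * (NUAct.vc (zt (iD ηY) x)).re + (FY (zt (iD ηY) x)).re + ErY x)) →
    ∃ EX EY : ℝ → ℝ, ∀ (lam : ℝ) (ψX ψX' ψY ψY' : ℝ → ℝ), K * R ^ 7 * (ε + lam) ≤ 1 →
      Xi lam b (fun t => ψX t - t) (fun t => ψX' t - 1) →
      Xi lam b (fun t => ψY t - t) (fun t => ψY' t - 1) →
      OB R (K * (R ^ 8 * (M * (ε + lam)) + R ^ 3 * ((A + s * Real.exp (-2 * R) + Ar) * lam)))
        ψX ψX' (fun t => ‖1 + iD ηX1 t‖ * aX t) EX
        (IX R (fun t => s * P t) Uw Ug (kw (iD ηX) (iD ηX1)) (kg (iD ηX) (iD ηY)))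
        (kw (iD ηX) (iD ηX1))
        (kw (cD (fun t => ψX t - t) (iD ηX)) (cD1 (fun t => ψX t - t) (fun t => ψX' t - 1) (iD ηX1))) ∧
      OB R (K * (R ^ 8 * (M * (ε + lam)) + R ^ 3 * ((A + s * Real.exp (-2 * R) + Ar) * lam)))
        ψY ψY' (fun t => ‖1 + iD ηY1 t‖ * aY t) EY
        (IY R (fun t => s * P t) Uw Ug (kw (iD ηY) (iD ηY1)) (kg (iD ηX) (iD ηY)))
        (kw (iD ηY) (iD ηY1))
        (kw (cD (fun t => ψY t - t) (iD ηY)) (cD1 (fun t => ψY t - t) (fun t => ψY' t - 1) (iD ηY1))) := by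
  obtain ⟨K, hK, H⟩ := exists_fieldK hκ hκ1
  refine ⟨K, hK, ?_⟩
  intro s ε M b A Ar eX eY ηX ηX1 ηY ηY1 ErX ErY aX aY FX FY R hR hbR hs hcX hcY hX hY hA hFX hFY hEX hEY
    aX0 aY0 aXm aYm haX haY
  refine ⟨Ef s R b (fun a => cond a ηX ηY) (fun a => cond a ηX1 ηY1) (fun a => cond a FX FY)
    (fun a => cond a ErX ErY) true, Ef s R b (fun a => cond a ηX ηY) (fun a => cond a ηX1 ηY1)
    (fun a => cond a FX FY) (fun a => cond a ErX ErY) false, fun lam ψX ψX' ψY ψY' hsm hψX hψY => ?_⟩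
  have key := H (e := fun a => cond a eX eY) (η := fun a => cond a ηX ηY) (η1 := fun a => cond a ηX1 ηY1)
    (F := fun a => cond a FX FY) (Er := fun a => cond a ErX ErY) (ab := fun a => cond a aX aY) (lam := lam)
    (A := A) (Ar := Ar) R hR hbR hs
    (fun a => by cases a; exacts [hcY, hcX]) (fun a => by cases a; exacts [hY, hX]) hsm hA
    (fun a => by cases a; exacts [hFY, hFX]) (fun a => by cases a; exacts [hEY, hEX])
    (fun a => by cases a; exacts [aY0, aX0]) (fun a => by cases a; exacts [aYm, aXm])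
    (fun a => by cases a; exacts [haY, haX]) (fun a => cond a ψX ψY) (fun a => cond a ψX' ψY')
    (fun a => by cases a; exacts [hψY, hψX])
  exact ⟨key true, key false⟩

/-- strip of width `1/10` -/
theorem exists_OB : ∃ K : ℝ, 1 ≤ K ∧ ∀ {s ε M b A Ar : ℝ} {eX eY ηX ηX1 ηY ηY1 ErX ErY aX aY : ℝ → ℝ}
    {FX FY : ℂ → ℂ} (R : ℝ), 1 ≤ R → b + 3 ≤ R → 0 ≤ s →
    Cur s ε M b eX ηX → Cur s ε M b eY ηY → (∀ t, HasDerivAt ηX (ηX1 t) t) →
    (∀ t, HasDerivAt ηY (ηY1 t) t) → 0 ≤ A →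
    (∀ z : ℂ, |z.re| ≤ b + 2 → |z.im| ≤ 1 / 10 → DifferentiableAt ℂ FX z ∧ ‖FX z‖ ≤ A) →
    (∀ z : ℂ, |z.re| ≤ b + 2 → |z.im| ≤ 1 / 10 → DifferentiableAt ℂ FY z ∧ ‖FY z‖ ≤ A) →
    Ext 4 b Ar ErX → Ext 4 b Ar ErY → (∀ x, 0 ≤ aX x) → (∀ x, 0 ≤ aY x) → Measurable aX → Measurable aY →
    (∀ x, |x| ≤ b → aX x = Real.exp (s * (NUAct.vc (zt (iD ηX) x)).re + (FX (zt (iD ηX) x)).re + ErX x)) →
    (∀ x, |x| ≤ b → aY x = Real.exp (s * (NUAct.vc (zt (iD ηY) x)).re + (FY (zt (iD ηY) x)).re + ErY x)) →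
    ∃ EX EY : ℝ → ℝ, ∀ (lam : ℝ) (ψX ψX' ψY ψY' : ℝ → ℝ), K * R ^ 7 * (ε + lam) ≤ 1 →
      Xi lam b (fun t => ψX t - t) (fun t => ψX' t - 1) →
      Xi lam b (fun t => ψY t - t) (fun t => ψY' t - 1) →
      OB R (K * (R ^ 8 * (M * (ε + lam)) + R ^ 3 * ((A + s * Real.exp (-2 * R) + Ar) * lam)))
        ψX ψX' (fun t => ‖1 + iD ηX1 t‖ * aX t) EX
        (IX R (fun t => s * P t) Uw Ug (kw (iD ηX) (iD ηX1)) (kg (iD ηX) (iD ηY)))
        (kw (iD ηX) (iD ηX1))
        (kw (cD (fun t => ψX t - t) (iD ηX)) (cD1 (fun t => ψX t - t) (fun t => ψX' t - 1) (iD ηX1))) ∧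
      OB R (K * (R ^ 8 * (M * (ε + lam)) + R ^ 3 * ((A + s * Real.exp (-2 * R) + Ar) * lam)))
        ψY ψY' (fun t => ‖1 + iD ηY1 t‖ * aY t) EY
        (IY R (fun t => s * P t) Uw Ug (kw (iD ηY) (iD ηY1)) (kg (iD ηX) (iD ηY)))
        (kw (iD ηY) (iD ηY1))
        (kw (cD (fun t => ψY t - t) (iD ηY)) (cD1 (fun t => ψY t - t) (fun t => ψY' t - 1) (iD ηY1))) := by
  obtain ⟨K, hK, H⟩ := exists_OBK (κ := 1 / 10) (by norm_num) (le_refl _)
  refine ⟨K, hK, ?_⟩
  intro s ε M b A Ar eX eY ηX ηX1 ηY ηY1 ErX ErY aX aY FX FY R hR hbR hs hcX hcY hX hY hA hFX hFY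
  exact H R hR hbR hs hcX hcY hX hY hA (fun z h1 h2 => hFX z h1 h2.le) (fun z h1 h2 => hFY z h1 h2.le)

end

end NUR2
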