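import Pool.Agent.NUR2.R2core
import Pool.Agent.NUR2.Wo
import Pool.Agent.NUDi.Rig

/-!
# R2: instances (helper73)

The three `Pk` from helper32's `Kers`; `Rig` from helper93's `RigB`; the odd part under the swap.
-/

set_option autoImplicit false

open MeasureTheory Set Filter Topology NUKer NUTr NUOC

namespace NUR2

section

variable {R Λ Λ' Λ₀ : ℝ} {ηX ηX1 ηY ηY1 ξX ξX1 ξY ξY1 ψX ψY : ℝ → ℝ}

theorem Kers.PkX (K : Kers R Λ Λ' ηX ηX1 ηY ηY1 ξX ξX1 ξY ξY1) (hψ : ∀ x, ψX x = x + ξX x)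
    (hξ : ∀ x, HasDerivAt ξX (ξX1 x) x) (hR : ∀ x, |x| ≤ R → |ψX x| ≤ R)
    (hη : Continuous ηX) (h1 : Λ ≤ Λ₀) (h2 : Λ' ≤ Λ₀) :
    Pk R Λ₀ ψX ψX Uw (pW (iD ηX)) (kw (iD ηX) (iD ηX1))
      (kw (cD ξX (iD ηX)) (cD1 ξX ξX1 (iD ηX1))) where
  li := Uw_li
  ev := Uw_even
  kc := K.kX.mono h1
  kc' := K.kX'.mono h2
  rel := K.relX hψ hR
  log := fun _ _ hx hy hne => K.logX hψ hξ hx hy hne
  q0 := pW_nonneg _
  qm := pW_meas (by unfold iD; fun_prop)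

theorem Kers.PkY (K : Kers R Λ Λ' ηX ηX1 ηY ηY1 ξX ξX1 ξY ξY1) (hψ : ∀ x, ψY x = x + ξY x)
    (hξ : ∀ x, HasDerivAt ξY (ξY1 x) x) (hR : ∀ x, |x| ≤ R → |ψY x| ≤ R)
    (hη : Continuous ηY) (h1 : Λ ≤ Λ₀) (h2 : Λ' ≤ Λ₀) :
    Pk R Λ₀ ψY ψY Uw (pW (iD ηY)) (kw (iD ηY) (iD ηY1))
      (kw (cD ξY (iD ηY)) (cD1 ξY ξY1 (iD ηY1))) where
  li := Uw_li
  ev := Uw_even
  kc := K.kY.mono h1
  kc' := K.kY'.mono h2
  rel := K.relY hψ hR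
  log := fun _ _ hx hy hne => K.logY hψ hξ hx hy hne
  q0 := pW_nonneg _
  qm := pW_meas (by unfold iD; fun_prop)

theorem Kers.Pkc (K : Kers R Λ Λ' ηX ηX1 ηY ηY1 ξX ξX1 ξY ξY1) (hψX : ∀ x, ψX x = x + ξX x)
    (hψY : ∀ x, ψY x = x + ξY x) (hX : ∀ x, |x| ≤ R → |ψX x| ≤ R) (hY : ∀ x, |x| ≤ R → |ψY x| ≤ R)
    (hηX : Continuous ηX) (hηY : Continuous ηY) (h1 : Λ ≤ Λ₀) (h2 : Λ' ≤ Λ₀) :
    Pk R Λ₀ ψX ψY Ug (pG (iD ηX) (iD ηY)) (kg (iD ηX) (iD ηY))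
      (kg (cD ξX (iD ηX)) (cD ξY (iD ηY))) where
  li := Ug_li
  ev := Ug_even
  kc := K.kc.mono h1
  kc' := K.kc'.mono h2
  rel := K.relc hψX hψY hX hY
  log := fun _ _ hx hy _ => K.logc hψX hψY hx hy
  q0 := pG_nonneg _ _
  qm := pG_meas (by unfold iD; fun_prop) (by unfold iD; fun_prop)

end

section

variable {p n : ℕ} {R S : ℝ} {ρ : ℝ → ℝ}

theorem rig_of_rigB {μ : Measure (Cfg p n)} (h : NUDi.RigB μ R ρ S) : Rig μ R ρ S where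
  X := fun f Λ _ hf => h.linX f Λ hf
  Y := fun f Λ _ hf => h.linY f Λ hf
  XX := fun κ Λ _ hκ => h.XX κ Λ hκ
  YY := fun κ Λ _ hκ => h.YY κ Λ hκ
  XY := fun κ Λ _ hκ => h.XY κ Λ hκ

theorem mu_eq_mWin (qX qY qc : ℝ → ℝ → ℝ) (aX aY : ℝ → ℝ) :
    mu (p := p) (n := n) R qX qY qc aX aY =
      NUDi.mWin R (fun x => ENNReal.ofReal (W qX qY qc aX aY x)) := rfl

lemma Lf_neg (R : ℝ) (Us Uc F' χ : ℝ → ℝ) :
    Lf R Us Uc (fun x => - F' x) (fun x => - χ x) = fun x => - Lf R Us Uc F' χ x := by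
  funext x
  unfold Lf
  simp only [mul_neg, integral_neg]
  ring

lemma nu_neg {q : ℕ} (R : ℝ) (ρ : ℝ → ℝ) (t : Fin q → ℝ) (f : ℝ → ℝ) :
    nu R ρ t (fun x => - f x) = - nu R ρ t f := by
  unfold nu
  simp only [Finset.sum_neg_distrib, neg_mul, intervalIntegral.integral_neg]
  ring

/-- the odd part is odd in the field -/
theorem ell_neg (μ : Measure (Cfg p n)) (R : ℝ) (ρ F' Us Uc EX EY χ : ℝ → ℝ) :
    ell μ R ρ (fun x => - F' x) Us Uc EX EY (fun x => - χ x) = - ell μ R ρ F' Us Uc EX EY χ := by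
  unfold ell
  rw [Lf_neg]
  simp only [neg_mul, integral_neg, nu_neg]
  ring

end

end NUR2
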