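import Pool.Agent.NUR2.Prep

/-!
# R2: the lower bound of the exponential moment by transport (proof/NU_ABS_4 [4.7], helper73)
-/

set_option autoImplicit false

open MeasureTheory Set Filter Topology NUKer NUTr

namespace NUR2

variable {p n : ℕ}

/-- expectations of linear and quadratic statistics -/
structure Rig (μ : Measure (Cfg p n)) (R : ℝ) (ρ : ℝ → ℝ) (S : ℝ) : Prop where
  X : ∀ (f : ℝ → ℝ) (Λ : ℝ), Continuous f → KC R Λ (fun t _ => (f t : ℂ)) →
    |∫ x, nu R ρ x.1 f ∂μ| ≤ S * Λ * μ.real univ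
  Y : ∀ (f : ℝ → ℝ) (Λ : ℝ), Continuous f → KC R Λ (fun t _ => (f t : ℂ)) →
    |∫ x, nu R ρ x.2 f ∂μ| ≤ S * Λ * μ.real univ
  XX : ∀ (κ : ℝ → ℝ → ℝ) (Λ : ℝ), (Continuous fun p : ℝ × ℝ => κ p.1 p.2) →
    KC R Λ (fun t t' => (κ t t' : ℂ)) → |∫ x, nu2 R ρ ρ x.1 x.1 κ ∂μ| ≤ S * Λ * μ.real univ
  YY : ∀ (κ : ℝ → ℝ → ℝ) (Λ : ℝ), (Continuous fun p : ℝ × ℝ => κ p.1 p.2) →
    KC R Λ (fun t t' => (κ t t' : ℂ)) → |∫ x, nu2 R ρ ρ x.2 x.2 κ ∂μ| ≤ S * Λ * μ.real univ
  XY : ∀ (κ : ℝ → ℝ → ℝ) (Λ : ℝ), (Continuous fun p : ℝ × ℝ => κ p.1 p.2) →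
    KC R Λ (fun t t' => (κ t t' : ℂ)) → |∫ x, nu2 R ρ ρ x.1 x.2 κ ∂μ| ≤ S * Λ * μ.real univ

/-- the two transports -/
structure Tr (R : ℝ) (ρ F' ψX ψX' ψY ψY' : ℝ → ℝ) : Prop where
  R0 : 0 < R
  cρ : Continuous ρ
  bρ : ∃ C, ∀ x, |ρ x| ≤ C
  cF : Continuous F'
  sF : ∀ x, R ≤ |x| → F' x = 0
  dX : Dif ψX ψX'
  dY : Dif ψY ψY'
  mX : Measurable ψX'
  mY : Measurable ψY'
  bX : ∀ x, |ψX x| ≤ R ↔ |x| ≤ R
  bY : ∀ x, |ψY x| ≤ R ↔ |x| ≤ R
  massX : ∀ x, |x| ≤ R → ρ (ψX x) * ψX' x = ρ x + F' x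
  massY : ∀ x, |x| ≤ R → ρ (ψY x) * ψY' x = ρ x - F' x

/-- one pair of species: potential `U (x - y) - k x y` before, `U (x - y) - k' x y` after -/
structure Pk (R Λ : ℝ) (ψ φ U : ℝ → ℝ) (q k k' : ℝ → ℝ → ℝ) : Prop where
  li : LocallyIntegrable U
  ev : ∀ u, U (-u) = U u
  kc : KC R Λ (fun t t' => (k t t' : ℂ))
  kc' : KC R Λ (fun t t' => (k' t t' : ℂ))
  rel : PairRel R ψ φ q (fun x y => k' x y - k x y)
  log : ∀ x y, |x| ≤ R → |y| ≤ R → x ≠ y → U (ψ x - φ y) - k (ψ x) (φ y) = U (x - y) - k' x y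
  q0 : ∀ x y, 0 ≤ q x y
  qm : Measurable fun z : ℝ × ℝ => q z.1 z.2

/-- potential of the reference density, species `X` -/
noncomputable def IX (R : ℝ) (ρ Us Uc : ℝ → ℝ) (kX kc : ℝ → ℝ → ℝ) (x : ℝ) : ℝ :=
  (∫ y, (Us (x - y) - kX x y) * ρ y ∂(mW R)) + ∫ y, (Uc (x - y) - kc x y) * ρ y ∂(mW R)

/-- potential of the reference density, species `Y` -/
noncomputable def IY (R : ℝ) (ρ Us Uc : ℝ → ℝ) (kY kc : ℝ → ℝ → ℝ) (y : ℝ) : ℝ :=
  (∫ z, (Us (y - z) - kY y z) * ρ z ∂(mW R)) + ∫ x, (Uc (x - y) - kc x y) * ρ x ∂(mW R)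

/-- one body data -/
structure OB (R l : ℝ) (ψ ψ' a E I : ℝ → ℝ) (k k' : ℝ → ℝ → ℝ) : Prop where
  a0 : ∀ x, 0 ≤ a x
  am : Measurable a
  cE : Continuous E
  rel : ∀ x, |x| ≤ R → a (ψ x) * ψ' x = a x * Real.exp (E (ψ x) - E x + (I (ψ x) - I x) +
    1 / 2 * (k' x x - k x x))
  small : KC R l (fun x _ => ((E (ψ x) - E x : ℝ) : ℂ))

variable {R : ℝ}

lemma conv_cont {U F' : ℝ → ℝ} (hU : LocallyIntegrable U) (hF : Continuous F')
    (hs : ∀ x, R ≤ |x| → F' x = 0) : Continuous fun x => ∫ y, U (x - y) * F' y ∂(mW R) := by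
  have hc : HasCompactSupport F' := by
    refine HasCompactSupport.of_support_subset_isCompact (isCompact_Icc (a := -R) (b := R)) ?_
    intro x hx
    by_contra h
    apply hx
    apply hs
    by_contra h2
    exact h (abs_le.1 (not_le.1 h2).le)
  have h1 := hc.continuous_convolution_right (ContinuousLinearMap.mul ℝ ℝ) (μ := volume) hU hF
  refine h1.congr fun x => ?_
  rw [convolution_eq_swap]
  unfold mW
  rw [setIntegral_eq_integral_of_forall_compl_eq_zero]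
  · rfl
  · intro y hy
    rw [hs y, mul_zero]
    by_contra h2
    exact hy (abs_le.1 (not_le.1 h2).le)

lemma ae_ne_mW (x : ℝ) : ∀ᵐ y ∂(mW R), y ≠ x := by
  unfold mW
  apply ae_restrict_of_ae
  exact compl_mem_ae_iff.2 (measure_singleton x)

lemma Tr.bF {ρ F' ψX ψX' ψY ψY' : ℝ → ℝ} (T : Tr R ρ F' ψX ψX' ψY ψY') : Bd (mW R) F' := by
  refine bd_mW T.cF ?_
  obtain ⟨C, hC⟩ := (isCompact_Icc (a := -R) (b := R)).exists_bound_of_continuousOn
    (f := F') T.cF.continuousOn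
  refine ⟨max C 0, fun x => ?_⟩
  rcases le_or_gt |x| R with h | h
  · exact (hC x (abs_le.1 h)).trans (le_max_left _ _)
  · rw [T.sF x h.le, abs_zero]
    exact le_max_right _ _

lemma Bd.neg {m : Measure ℝ} {u : ℝ → ℝ} (h : Bd m u) : Bd m (fun x => - u x) := by
  obtain ⟨C, hC⟩ := h.bd
  exact ⟨h.meas.neg, C, fun x => by rw [norm_neg]; exact hC x⟩

/-- the setting of `Action` -/
lemma pair_of {Λ : ℝ} {ψ φ U ρ b c : ℝ → ℝ} {q k k' : ℝ → ℝ → ℝ} (P : Pk R Λ ψ φ U q k k')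
    (ck : Continuous fun z : ℝ × ℝ => k z.1 z.2) (ck' : Continuous fun z : ℝ × ℝ => k' z.1 z.2)
    (cov : ∀ f : ℝ → ℝ, ∫ y, f (ψ y) * (ρ y + b y) ∂(mW R) = ∫ y, f y * ρ y ∂(mW R))
    (cov' : ∀ f : ℝ → ℝ, ∫ y, f (φ y) * (ρ y + c y) ∂(mW R) = ∫ y, f y * ρ y ∂(mW R))
    (bρ : Bd (mW R) ρ) (bb : Bd (mW R) b) (bc : Bd (mW R) c) :
    Pair (mW R) {x | |x| ≤ R} ψ φ ρ b c (fun x y => U (x - y) - k x y) (fun x y => U (x - y) - k' x y) where
  mem := mem_mW
  hK := (ker_conv P.li).sub (ker_cont ck)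
  hQ := (ker_conv P.li).sub (ker_cont ck')
  cov := cov
  cov' := cov'
  eq := by
    intro x hx
    filter_upwards [mem_mW, ae_ne_mW x] with y hy hne
    exact P.log x y hx hy (Ne.symm hne)
  eq' := by
    intro y hy
    filter_upwards [mem_mW, ae_ne_mW y] with x hx hne
    exact P.log x y hx hy hne
  bρ := bρ
  bb := bb
  bc := bc

/-- small kernels against two densities -/
lemma TT_small {Λ : ℝ} (hR : 0 ≤ R) {κ : ℝ → ℝ → ℝ} (hκ : Continuous fun z : ℝ × ℝ => κ z.1 z.2)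
    (hK : KC R Λ (fun t t' => (κ t t' : ℂ))) {u : ℝ → ℝ} (hu : Continuous u) :
    |TT (mW R) κ u u| ≤ Λ * (∫ y, |u y| ∂(mW R)) ^ 2 := by
  set N : ℝ := ∫ y, |u y| ∂(mW R) with hN
  have iu : Integrable (fun y => |u y|) (mW R) := int_mW (continuous_abs.comp hu)
  have h1 := kc_int hR hκ hK hu
  unfold TT
  have h2 : ∀ x, |x| ≤ R → |∫ y, κ x y * u y ∂(mW R)| ≤ Λ * N := by
    intro x hx
    have := h1.bound hx (t' := 0) (by simpa using hR)
    rwa [Complex.norm_real, Real.norm_eq_abs] at this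
  have h3 : |∫ x, u x * (∫ y, κ x y * u y ∂(mW R)) ∂(mW R)| ≤ ∫ x, |u x| * (Λ * N) ∂(mW R) := by
    have := norm_integral_le_of_norm_le (μ := mW R) (f := fun x => u x * (∫ y, κ x y * u y ∂(mW R)))
      (iu.mul_const (Λ * N)) (by
        filter_upwards [mem_mW] with x hx
        rw [norm_mul, Real.norm_eq_abs, Real.norm_eq_abs]
        exact mul_le_mul_of_nonneg_left (h2 x hx) (abs_nonneg _))
    rwa [Real.norm_eq_abs] at this
  rw [integral_mul_const] at h3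
  rw [sq, ← mul_assoc, mul_comm Λ N, mul_assoc]
  exact h3

lemma int_small {l : ℝ} (hR : 0 ≤ R) {e : ℝ → ℝ} (hK : KC R l (fun t _ => (e t : ℂ)))
    {u : ℝ → ℝ} (hu : Continuous u) : |∫ x, u x * e x ∂(mW R)| ≤ l * ∫ y, |u y| ∂(mW R) := by
  have iu : Integrable (fun y => |u y|) (mW R) := int_mW (continuous_abs.comp hu)
  have := norm_integral_le_of_norm_le (μ := mW R) (f := fun x => u x * e x)
    (iu.mul_const l) (by
      filter_upwards [mem_mW] with x hx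
      rw [norm_mul, Real.norm_eq_abs, Real.norm_eq_abs]
      refine mul_le_mul_of_nonneg_left ?_ (abs_nonneg _)
      have := hK.bound hx (t' := 0) (by simpa using hR)
      rwa [Complex.norm_real, Real.norm_eq_abs] at this)
  rw [Real.norm_eq_abs, integral_mul_const, mul_comm] at this
  exact this

section core

variable {p n : ℕ} {R Λ l1 l2 S : ℝ} {ρ F' ψX ψX' ψY ψY' Us Uc aX aY EX EY χ : ℝ → ℝ}
  {qX qY qc kX kX' kY kY' kc kc' : ℝ → ℝ → ℝ}

/-- the linear function of the transport -/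
noncomputable def Lf (R : ℝ) (Us Uc F' χ : ℝ → ℝ) (x : ℝ) : ℝ :=
  χ x + ((∫ y, Us (x - y) * F' y ∂(mW R)) - ∫ y, Uc (x - y) * F' y ∂(mW R))

/-- `v` of species `X` -/
noncomputable def vX (R : ℝ) (ρ F' ψX Us Uc EX : ℝ → ℝ) (kX kX' kc kc' : ℝ → ℝ → ℝ) (x : ℝ) : ℝ :=
  (EX (ψX x) - EX x) + ((∫ y, Us (x - y) * F' y ∂(mW R)) - ∫ y, Uc (x - y) * F' y ∂(mW R)) -
    (∫ y, kX' x y * F' y ∂(mW R)) + (∫ y, kc' x y * F' y ∂(mW R)) -
    (∫ y in (-R)..R, (kX' x y - kX x y) * ρ y) - ∫ y in (-R)..R, (kc' x y - kc x y) * ρ y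

/-- `v` of species `Y` -/
noncomputable def vY (R : ℝ) (ρ F' ψY Us Uc EY : ℝ → ℝ) (kY kY' kc kc' : ℝ → ℝ → ℝ) (y : ℝ) : ℝ :=
  (EY (ψY y) - EY y) - ((∫ z, Us (y - z) * F' z ∂(mW R)) - ∫ z, Uc (y - z) * F' z ∂(mW R)) +
    (∫ z, kY' y z * F' z ∂(mW R)) - (∫ x, kc' x y * F' x ∂(mW R)) -
    (∫ z in (-R)..R, (kY' y z - kY y z) * ρ z) - ∫ x in (-R)..R, (kc' x y - kc x y) * ρ x

lemma cont_mW {κ : ℝ → ℝ → ℝ} (hR : 0 ≤ R) (hκ : Continuous fun z : ℝ × ℝ => κ z.1 z.2) (hF : Continuous F') :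
    Continuous fun x => ∫ y, κ x y * F' y ∂(mW R) := by
  have := cont_conv (R := R) hκ hF
  simpa only [ii_eq hR] using this

lemma cont_mW' {κ : ℝ → ℝ → ℝ} (hR : 0 ≤ R) (hκ : Continuous fun z : ℝ × ℝ => κ z.1 z.2) (hF : Continuous F') :
    Continuous fun y => ∫ x, κ x y * F' x ∂(mW R) := by
  have := cont_conv' (R := R) hκ hF
  simpa only [ii_eq hR] using this

/-- the value of the potential difference, species `X` -/
lemma vX_eq (T : Tr R ρ F' ψX ψX' ψY ψY') (PX : Pk R Λ ψX ψX Us qX kX kX')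
    (Pc : Pk R Λ ψX ψY Uc qc kc kc') (cX : Continuous fun z : ℝ × ℝ => kX z.1 z.2)
    (cX' : Continuous fun z : ℝ × ℝ => kX' z.1 z.2) (cc : Continuous fun z : ℝ × ℝ => kc z.1 z.2)
    (cc' : Continuous fun z : ℝ × ℝ => kc' z.1 z.2) {x : ℝ} (hx : |x| ≤ R) :
    vX R ρ F' ψX Us Uc EX kX kX' kc kc' x =
      EX (ψX x) - EX x + (IX R ρ Us Uc kX kc (ψX x) - IX R ρ Us Uc kX kc x) := by
  have bρ : Bd (mW R) ρ := bd_mW T.cρ T.bρ
  have covX := fun f => cov_of (R := R) (b := F') T.dX T.bX T.massX f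
  have covY := fun f => cov_of (R := R) (b := fun x => - F' x) T.dY T.bY
    (fun x hx => by rw [T.massY x hx, sub_eq_add_neg]) f
  have p1 := pair_of PX cX cX' covX covX bρ T.bF T.bF
  have p2 := pair_of Pc cc cc' covX covY bρ T.bF T.bF.neg
  have hR := T.R0.le
  have c1 := p1.conv hx
  have c2 := p2.conv hx
  have iU1 : Integrable (fun y => Us (x - y) * F' y) (mW R) := (ker_conv PX.li).int1 T.bF x
  have iU2 : Integrable (fun y => Uc (x - y) * F' y) (mW R) := (ker_conv Pc.li).int1 T.bF x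
  have ik1 : Integrable (fun y => kX' x y * F' y) (mW R) := (ker_cont cX').int1 T.bF x
  have ik2 : Integrable (fun y => kc' x y * F' y) (mW R) := (ker_cont cc').int1 T.bF x
  have e1 : ∫ y, (Us (x - y) - kX' x y) * F' y ∂(mW R) =
      (∫ y, Us (x - y) * F' y ∂(mW R)) - ∫ y, kX' x y * F' y ∂(mW R) := by
    rw [← integral_sub iU1 ik1]
    exact integral_congr_ae (Eventually.of_forall fun y => by simp only; ring)
  have e2 : ∫ y, (Uc (x - y) - kc' x y) * (- F' y) ∂(mW R) =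
      -((∫ y, Uc (x - y) * F' y ∂(mW R)) - ∫ y, kc' x y * F' y ∂(mW R)) := by
    rw [← integral_sub iU2 ik2, ← integral_neg]
    exact integral_congr_ae (Eventually.of_forall fun y => by simp only; ring)
  have e3 : ∫ y in (-R)..R, (kX' x y - kX x y) * ρ y =
      (∫ y, (Us (x - y) - kX x y) * ρ y ∂(mW R)) - ∫ y, (Us (x - y) - kX' x y) * ρ y ∂(mW R) := by
    rw [ii_eq hR, ← integral_sub (p1.hK.int1 bρ x) (p1.hQ.int1 bρ x)]
    exact integral_congr_ae (Eventually.of_forall fun y => by simp only; ring)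
  have e4 : ∫ y in (-R)..R, (kc' x y - kc x y) * ρ y =
      (∫ y, (Uc (x - y) - kc x y) * ρ y ∂(mW R)) - ∫ y, (Uc (x - y) - kc' x y) * ρ y ∂(mW R) := by
    rw [ii_eq hR, ← integral_sub (p2.hK.int1 bρ x) (p2.hQ.int1 bρ x)]
    exact integral_congr_ae (Eventually.of_forall fun y => by simp only; ring)
  unfold vX IX
  rw [c1, c2, e1, e2, e3, e4]
  ring

/-- the value of the potential difference, species `Y` -/
lemma vY_eq (T : Tr R ρ F' ψX ψX' ψY ψY') (PY : Pk R Λ ψY ψY Us qY kY kY')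
    (Pc : Pk R Λ ψX ψY Uc qc kc kc') (cY : Continuous fun z : ℝ × ℝ => kY z.1 z.2)
    (cY' : Continuous fun z : ℝ × ℝ => kY' z.1 z.2) (cc : Continuous fun z : ℝ × ℝ => kc z.1 z.2)
    (cc' : Continuous fun z : ℝ × ℝ => kc' z.1 z.2) {y : ℝ} (hy : |y| ≤ R) :
    vY R ρ F' ψY Us Uc EY kY kY' kc kc' y =
      EY (ψY y) - EY y + (IY R ρ Us Uc kY kc (ψY y) - IY R ρ Us Uc kY kc y) := by
  have bρ : Bd (mW R) ρ := bd_mW T.cρ T.bρ
  have covX := fun f => cov_of (R := R) (b := F') T.dX T.bX T.massX f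
  have covY := fun f => cov_of (R := R) (b := fun x => - F' x) T.dY T.bY
    (fun x hx => by rw [T.massY x hx, sub_eq_add_neg]) f
  have p1 := pair_of PY cY cY' covY covY bρ T.bF.neg T.bF.neg
  have p2 := (pair_of Pc cc cc' covX covY bρ T.bF T.bF.neg).flip
  have hR := T.R0.le
  have c1 := p1.conv hy
  have c2 := p2.conv hy
  have iU1 : Integrable (fun z => Us (y - z) * F' z) (mW R) := (ker_conv PY.li).int1 T.bF y
  have iU2 : Integrable (fun x => Uc (x - y) * F' x) (mW R) := (ker_conv Pc.li).symm.int1 T.bF y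
  have ik1 : Integrable (fun z => kY' y z * F' z) (mW R) := (ker_cont cY').int1 T.bF y
  have ik2 : Integrable (fun x => kc' x y * F' x) (mW R) := (ker_cont cc').symm.int1 T.bF y
  have e1 : ∫ z, (Us (y - z) - kY' y z) * (- F' z) ∂(mW R) =
      -((∫ z, Us (y - z) * F' z ∂(mW R)) - ∫ z, kY' y z * F' z ∂(mW R)) := by
    rw [← integral_sub iU1 ik1, ← integral_neg]
    exact integral_congr_ae (Eventually.of_forall fun y => by simp only; ring)
  have e2 : ∫ x, (Uc (x - y) - kc' x y) * F' x ∂(mW R) =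
      (∫ x, Uc (x - y) * F' x ∂(mW R)) - ∫ x, kc' x y * F' x ∂(mW R) := by
    rw [← integral_sub iU2 ik2]
    exact integral_congr_ae (Eventually.of_forall fun y => by simp only; ring)
  have e2' : ∫ x, Uc (x - y) * F' x ∂(mW R) = ∫ z, Uc (y - z) * F' z ∂(mW R) := by
    refine integral_congr_ae (Eventually.of_forall fun z => ?_)
    simp only
    rw [← Pc.ev, neg_sub]
  have e3 : ∫ z in (-R)..R, (kY' y z - kY y z) * ρ z =
      (∫ z, (Us (y - z) - kY y z) * ρ z ∂(mW R)) - ∫ z, (Us (y - z) - kY' y z) * ρ z ∂(mW R) := by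
    rw [ii_eq hR, ← integral_sub (p1.hK.int1 bρ y) (p1.hQ.int1 bρ y)]
    exact integral_congr_ae (Eventually.of_forall fun y => by simp only; ring)
  have e4 : ∫ x in (-R)..R, (kc' x y - kc x y) * ρ x =
      (∫ x, (Uc (x - y) - kc x y) * ρ x ∂(mW R)) - ∫ x, (Uc (x - y) - kc' x y) * ρ x ∂(mW R) := by
    rw [ii_eq hR, ← integral_sub (p2.hK.int1 bρ y) (p2.hQ.int1 bρ y)]
    exact integral_congr_ae (Eventually.of_forall fun y => by simp only; ring)
  unfold vY IY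
  rw [c1, c2, e1, e2, e2', e3, e4]
  ring

/-- linear term, species `X` -/
lemma LX_eq (x : ℝ) : LX R ρ (vX R ρ F' ψX Us Uc EX kX kX' kc kc') (fun x y => kX' x y - kX x y)
    (fun x y => kc' x y - kc x y) x = (EX (ψX x) - EX x) +
      ((∫ y, Us (x - y) * F' y ∂(mW R)) - ∫ y, Uc (x - y) * F' y ∂(mW R)) -
      (∫ y, kX' x y * F' y ∂(mW R)) + (∫ y, kc' x y * F' y ∂(mW R)) := by
  unfold LX vX
  ring

/-- linear term, species `Y` -/
lemma LY_eq (y : ℝ) : LX R ρ (vY R ρ F' ψY Us Uc EY kY kY' kc kc') (fun x y => kY' x y - kY x y)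
    (fun y x => kc' x y - kc x y) y = (EY (ψY y) - EY y) -
      ((∫ z, Us (y - z) * F' z ∂(mW R)) - ∫ z, Uc (y - z) * F' z ∂(mW R)) +
      (∫ z, kY' y z * F' z ∂(mW R)) - (∫ x, kc' x y * F' x ∂(mW R)) := by
  unfold LX vY
  ring

lemma imul {f g : ℝ → ℝ} (hf : Continuous f) (hg : Continuous g) :
    Integrable (fun y => f y * g y) (mW R) := int_mW (hf.mul hg)

lemma TT_neg_neg (m : Measure ℝ) (Q : ℝ → ℝ → ℝ) (u : ℝ → ℝ) :
    TT m Q (fun x => - u x) (fun x => - u x) = TT m Q u u := by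
  unfold TT
  refine integral_congr_ae (Eventually.of_forall fun x => ?_)
  simp only [mul_neg, integral_neg, neg_mul, neg_neg]

lemma TT_neg_right (m : Measure ℝ) (Q : ℝ → ℝ → ℝ) (u v : ℝ → ℝ) :
    TT m Q u (fun x => - v x) = - TT m Q u v := by
  unfold TT
  rw [← integral_neg]
  refine integral_congr_ae (Eventually.of_forall fun x => ?_)
  simp only [mul_neg, integral_neg]

/-- **the constant term** -/
lemma S0_eq (T : Tr R ρ F' ψX ψX' ψY ψY') (PX : Pk R Λ ψX ψX Us qX kX kX')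
    (PY : Pk R Λ ψY ψY Us qY kY kY') (Pc : Pk R Λ ψX ψY Uc qc kc kc')
    (cX : Continuous fun z : ℝ × ℝ => kX z.1 z.2) (cX' : Continuous fun z : ℝ × ℝ => kX' z.1 z.2)
    (cY : Continuous fun z : ℝ × ℝ => kY z.1 z.2) (cY' : Continuous fun z : ℝ × ℝ => kY' z.1 z.2)
    (cc : Continuous fun z : ℝ × ℝ => kc z.1 z.2) (cc' : Continuous fun z : ℝ × ℝ => kc' z.1 z.2)
    (sX : ∀ x y, kX x y = kX y x) (sX' : ∀ x y, kX' x y = kX' y x)
    (sY : ∀ x y, kY x y = kY y x) (sY' : ∀ x y, kY' x y = kY' y x)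
    (cEX : Continuous EX) (cEY : Continuous EY) (cχ : Continuous χ) :
    ((∫ y in (-R)..R, LX R ρ (vX R ρ F' ψX Us Uc EX kX kX' kc kc') (fun x y => kX' x y - kX x y)
        (fun x y => kc' x y - kc x y) y * ρ y) +
      (∫ y in (-R)..R, LX R ρ (vY R ρ F' ψY Us Uc EY kY kY' kc kc') (fun x y => kY' x y - kY x y)
        (fun y x => kc' x y - kc x y) y * ρ y) -
      1 / 2 * (∫ y in (-R)..R, (∫ x in (-R)..R, (kX' x y - kX x y) * ρ x) * ρ y) -
      1 / 2 * (∫ y in (-R)..R, (∫ x in (-R)..R, (kY' x y - kY x y) * ρ x) * ρ y) -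
      ∫ x in (-R)..R, (∫ y in (-R)..R, (kc' x y - kc x y) * ρ y) * ρ x) +
      ((∫ y in (-R)..R, χ (ψX y) * ρ y) - ∫ y in (-R)..R, χ (ψY y) * ρ y) =
    (-2 * (∫ y, F' y * χ y ∂(mW R)) - TT (mW R) (fun x y => Us (x - y) - Uc (x - y)) F' F') +
      ((∫ y, F' y * EY y ∂(mW R)) - ∫ y, F' y * EX y ∂(mW R)) +
      (- (∫ y, F' y * (EX (ψX y) - EX y) ∂(mW R)) + (∫ y, F' y * (EY (ψY y) - EY y) ∂(mW R)) -
        (∫ y, F' y * (χ (ψX y) - χ y) ∂(mW R)) - (∫ y, F' y * (χ (ψY y) - χ y) ∂(mW R)) +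
        1 / 2 * TT (mW R) kX' F' F' + 1 / 2 * TT (mW R) kY' F' F' - TT (mW R) kc' F' F') := by
  have hR := T.R0.le
  have bρ : Bd (mW R) ρ := bd_mW T.cρ T.bρ
  have bF := T.bF
  have covX := fun f => cov_of (R := R) (b := F') T.dX T.bX T.massX f
  have covY := fun f => cov_of (R := R) (b := fun x => - F' x) T.dY T.bY
    (fun x hx => by rw [T.massY x hx, sub_eq_add_neg]) f
  have p1 := pair_of PX cX cX' covX covX bρ bF bF
  have p2 := pair_of PY cY cY' covY covY bρ bF.neg bF.neg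
  have p3 := pair_of Pc cc cc' covX covY bρ bF bF.neg
  have cψX : Continuous ψX := continuous_iff_continuousAt.2 fun x => (T.dX.der x).continuousAt
  have cψY : Continuous ψY := continuous_iff_continuousAt.2 fun x => (T.dY.der x).continuousAt
  have sQX : ∀ x y, Us (x - y) - kX' x y = Us (y - x) - kX' y x := fun x y => by
    rw [← PX.ev, neg_sub, sX']
  have sQY : ∀ x y, Us (x - y) - kY' x y = Us (y - x) - kY' y x := fun x y => by
    rw [← PX.ev, neg_sub, sY']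
  have hc := const_eq p1 p2 p3 sQX sQY
    (LX := LX R ρ (vX R ρ F' ψX Us Uc EX kX kX' kc kc') (fun x y => kX' x y - kX x y)
      (fun x y => kc' x y - kc x y))
    (LY := LX R ρ (vY R ρ F' ψY Us Uc EY kY kY' kc kc') (fun x y => kY' x y - kY x y)
      (fun y x => kc' x y - kc x y))
    (eX := fun x => EX (ψX x) - EX x) (eY := fun x => EY (ψY x) - EY x)
    (Eventually.of_forall fun x => by
      rw [LX_eq]
      have e1 : ∫ y, (Us (x - y) - kX' x y) * F' y ∂(mW R) =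
          (∫ y, Us (x - y) * F' y ∂(mW R)) - ∫ y, kX' x y * F' y ∂(mW R) := by
        rw [← integral_sub ((ker_conv PX.li).int1 bF x) ((ker_cont cX').int1 bF x)]
        exact integral_congr_ae (Eventually.of_forall fun y => by simp only; ring)
      have e2 : ∫ y, (Uc (x - y) - kc' x y) * (- F' y) ∂(mW R) =
          -((∫ y, Uc (x - y) * F' y ∂(mW R)) - ∫ y, kc' x y * F' y ∂(mW R)) := by
        rw [← integral_sub ((ker_conv Pc.li).int1 bF x) ((ker_cont cc').int1 bF x), ← integral_neg]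
        exact integral_congr_ae (Eventually.of_forall fun y => by simp only; ring)
      rw [e1, e2]
      ring)
    (Eventually.of_forall fun y => by
      rw [LY_eq]
      have e1 : ∫ z, (Us (y - z) - kY' y z) * (- F' z) ∂(mW R) =
          -((∫ z, Us (y - z) * F' z ∂(mW R)) - ∫ z, kY' y z * F' z ∂(mW R)) := by
        rw [← integral_sub ((ker_conv PY.li).int1 bF y) ((ker_cont cY').int1 bF y), ← integral_neg]
        exact integral_congr_ae (Eventually.of_forall fun y => by simp only; ring)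
      have e2 : ∫ x, (Uc (x - y) - kc' x y) * F' x ∂(mW R) =
          (∫ x, Uc (x - y) * F' x ∂(mW R)) - ∫ x, kc' x y * F' x ∂(mW R) := by
        rw [← integral_sub ((ker_conv Pc.li).symm.int1 bF y) ((ker_cont cc').symm.int1 bF y)]
        exact integral_congr_ae (Eventually.of_forall fun y => by simp only; ring)
      have e2' : ∫ x, Uc (x - y) * F' x ∂(mW R) = ∫ z, Uc (y - z) * F' z ∂(mW R) := by
        refine integral_congr_ae (Eventually.of_forall fun z => ?_)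
        simp only
        rw [← Pc.ev, neg_sub]
      rw [e1, e2, e2']
      ring)
    (int_mW (T.cρ.mul ((cEX.comp cψX).sub cEX)))
    (int_mW (T.cρ.mul ((cEY.comp cψY).sub cEY)))
  -- change of variables in the external terms
  have hf : ∀ f : ℝ → ℝ, Continuous f → (∫ y, f (ψX y) * ρ y ∂(mW R)) =
      (∫ y, f y * ρ y ∂(mW R)) - ∫ y, F' y * f (ψX y) ∂(mW R) := by
    intro f hf
    have k1 : Continuous fun y => f (ψX y) := hf.comp cψX
    have k2 : Continuous fun y => ρ y + F' y := T.cρ.add T.cF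
    rw [← covX f, ← integral_sub (imul k1 k2) (imul T.cF k1)]
    exact integral_congr_ae (Eventually.of_forall fun y => by simp only; ring)
  have hf' : ∀ f : ℝ → ℝ, Continuous f → (∫ y, f (ψY y) * ρ y ∂(mW R)) =
      (∫ y, f y * ρ y ∂(mW R)) + ∫ y, F' y * f (ψY y) ∂(mW R) := by
    intro f hf
    have k1 : Continuous fun y => f (ψY y) := hf.comp cψY
    have k2 : Continuous fun y => ρ y + - F' y := T.cρ.add T.cF.neg
    rw [← covY f, ← integral_add (imul k1 k2) (imul T.cF k1)]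
    exact integral_congr_ae (Eventually.of_forall fun y => by simp only; ring)
  have hs : ∀ (f g : ℝ → ℝ), Continuous f → Continuous g → (∫ y, F' y * (f y - g y) ∂(mW R)) =
      (∫ y, F' y * f y ∂(mW R)) - ∫ y, F' y * g y ∂(mW R) := by
    intro f g hf hg
    rw [← integral_sub (imul T.cF hf) (imul T.cF hg)]
    exact integral_congr_ae (Eventually.of_forall fun y => by simp only; ring)
  have cEψX : Continuous fun y => EX (ψX y) := cEX.comp cψX
  have cEψY : Continuous fun y => EY (ψY y) := cEY.comp cψY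
  have g1 : ∫ x, ρ x * (EX (ψX x) - EX x) ∂(mW R) = - ∫ y, F' y * EX (ψX y) ∂(mW R) := by
    have a1 := hf EX cEX
    have a2 : ∫ x, ρ x * (EX (ψX x) - EX x) ∂(mW R) =
        (∫ y, EX (ψX y) * ρ y ∂(mW R)) - ∫ y, EX y * ρ y ∂(mW R) := by
      rw [← integral_sub (imul cEψX T.cρ) (imul cEX T.cρ)]
      exact integral_congr_ae (Eventually.of_forall fun y => by simp only; ring)
    rw [a2, a1]
    ring
  have g2 : ∫ x, ρ x * (EY (ψY x) - EY x) ∂(mW R) = ∫ y, F' y * EY (ψY y) ∂(mW R) := by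
    have a1 := hf' EY cEY
    have a2 : ∫ x, ρ x * (EY (ψY x) - EY x) ∂(mW R) =
        (∫ y, EY (ψY y) * ρ y ∂(mW R)) - ∫ y, EY y * ρ y ∂(mW R) := by
      rw [← integral_sub (imul cEψY T.cρ) (imul cEY T.cρ)]
      exact integral_congr_ae (Eventually.of_forall fun y => by simp only; ring)
    rw [a2, a1]
    ring
  have g3 := hs (fun y => EX (ψX y)) EX (cEX.comp cψX) cEX
  have g4 := hs (fun y => EY (ψY y)) EY (cEY.comp cψY) cEY
  have g5 := hs (fun y => χ (ψX y)) χ (cχ.comp cψX) cχ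
  have g6 := hs (fun y => χ (ψY y)) χ (cχ.comp cψY) cχ
  have t1 : TT (mW R) (fun x y => Us (x - y) - kX' x y) F' F' =
      TT (mW R) (fun x y => Us (x - y)) F' F' - TT (mW R) kX' F' F' :=
    (ker_conv PX.li).TT_sub (ker_cont cX') bF bF
  have t2 : TT (mW R) (fun x y => Us (x - y) - kY' x y) F' F' =
      TT (mW R) (fun x y => Us (x - y)) F' F' - TT (mW R) kY' F' F' :=
    (ker_conv PX.li).TT_sub (ker_cont cY') bF bF
  have t3 : TT (mW R) (fun x y => Uc (x - y) - kc' x y) F' F' =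
      TT (mW R) (fun x y => Uc (x - y)) F' F' - TT (mW R) kc' F' F' :=
    (ker_conv Pc.li).TT_sub (ker_cont cc') bF bF
  have t4 : TT (mW R) (fun x y => Us (x - y) - Uc (x - y)) F' F' =
      TT (mW R) (fun x y => Us (x - y)) F' F' - TT (mW R) (fun x y => Uc (x - y)) F' F' :=
    (ker_conv PX.li).TT_sub (ker_conv Pc.li) bF bF
  rw [TT_neg_neg, TT_neg_right, t1, t2, t3, g1, g2] at hc
  have u1 : TT (mW R) (fun x y => Us (x - y) - kX x y - (Us (x - y) - kX' x y)) ρ ρ =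
      ∫ y in (-R)..R, (∫ x in (-R)..R, (kX' x y - kX x y) * ρ x) * ρ y := by
    rw [ii_eq hR]
    unfold TT
    refine integral_congr_ae (Eventually.of_forall fun y => ?_)
    simp only
    rw [ii_eq hR, mul_comm]
    congr 1
    refine integral_congr_ae (Eventually.of_forall fun x => ?_)
    simp only
    rw [sX' x y, sX x y]
    ring
  have u2 : TT (mW R) (fun x y => Us (x - y) - kY x y - (Us (x - y) - kY' x y)) ρ ρ =
      ∫ y in (-R)..R, (∫ x in (-R)..R, (kY' x y - kY x y) * ρ x) * ρ y := by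
    rw [ii_eq hR]
    unfold TT
    refine integral_congr_ae (Eventually.of_forall fun y => ?_)
    simp only
    rw [ii_eq hR, mul_comm]
    congr 1
    refine integral_congr_ae (Eventually.of_forall fun x => ?_)
    simp only
    rw [sY' x y, sY x y]
    ring
  have u3 : TT (mW R) (fun x y => Uc (x - y) - kc x y - (Uc (x - y) - kc' x y)) ρ ρ =
      ∫ x in (-R)..R, (∫ y in (-R)..R, (kc' x y - kc x y) * ρ y) * ρ x := by
    rw [ii_eq hR]
    unfold TT
    refine integral_congr_ae (Eventually.of_forall fun x => ?_)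
    simp only
    rw [ii_eq hR, mul_comm]
    congr 1
    refine integral_congr_ae (Eventually.of_forall fun y => ?_)
    simp only
    ring
  have w1 : ∀ f : ℝ → ℝ, ∫ x, ρ x * f x ∂(mW R) = ∫ y in (-R)..R, f y * ρ y := by
    intro f
    rw [ii_eq hR]
    exact integral_congr_ae (Eventually.of_forall fun y => mul_comm _ _)
  rw [u1, u2, u3, w1, w1] at hc
  have v1 : ∫ y in (-R)..R, χ (ψX y) * ρ y = (∫ y, χ y * ρ y ∂(mW R)) - ∫ y, F' y * χ (ψX y) ∂(mW R) := by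
    rw [ii_eq hR, hf χ cχ]
  have v2 : ∫ y in (-R)..R, χ (ψY y) * ρ y = (∫ y, χ y * ρ y ∂(mW R)) + ∫ y, F' y * χ (ψY y) ∂(mW R) := by
    rw [ii_eq hR, hf' χ cχ]
  rw [hc, v1, v2, t4, g3, g4, g5, g6]
  ring

end core

end NUR2
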