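import Pool.Agent.NUR2.Split
import Pool.Agent.NUKer.Expect

/-!
# Preparations for R2: kernels on the window, change of variables, integrability
-/

set_option autoImplicit false

open MeasureTheory Set Filter Topology NUKer NUTr

namespace NUR2

variable {R : ℝ}

instance : IsFiniteMeasure (mW R) := by
  unfold mW
  exact ⟨by rw [Measure.restrict_apply_univ]; exact measure_Icc_lt_top⟩

lemma mem_mW : ∀ᵐ x ∂(mW R), |x| ≤ R := by
  unfold mW
  filter_upwards [ae_restrict_mem measurableSet_Icc] with x hx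
  exact abs_le.2 hx

lemma int_mW {f : ℝ → ℝ} (hf : Continuous f) : Integrable f (mW R) :=
  (hf.continuousOn.integrableOn_compact isCompact_Icc)

lemma bd_mW {f : ℝ → ℝ} (hf : Continuous f) (h : ∃ C, ∀ x, |f x| ≤ C) : Bd (mW R) f :=
  ⟨hf.aestronglyMeasurable, h⟩

/-- continuous kernels -/
lemma ker_cont {κ : ℝ → ℝ → ℝ} (hκ : Continuous fun p : ℝ × ℝ => κ p.1 p.2) : Ker (mW R) κ := by
  refine ⟨fun x => int_mW (hκ.comp (by fun_prop : Continuous fun y : ℝ => (x, y))),
    fun y => int_mW (hκ.comp (by fun_prop : Continuous fun x : ℝ => (x, y))), ?_⟩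
  unfold mW
  rw [Measure.prod_restrict]
  exact hκ.continuousOn.integrableOn_compact (isCompact_Icc.prod isCompact_Icc)

/-- convolution kernels -/
lemma ker_conv {U : ℝ → ℝ} (hU : LocallyIntegrable U) : Ker (mW R) (fun x y => U (x - y)) := by
  have hI : ∀ a b : ℝ, Integrable (indicator (Icc a b) U) := by
    intro a b
    rw [integrable_indicator_iff measurableSet_Icc]
    exact hU.integrableOn_isCompact isCompact_Icc
  have h1 : ∀ x, Integrable (fun y => U (x - y)) (mW R) := by
    intro x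
    have e1 := (hI (x - R) (x + R)).comp_sub_left x
    have e2 := e1.mono_measure (Measure.restrict_le_self (s := Icc (-R) R))
    refine e2.congr ?_
    filter_upwards [ae_restrict_mem measurableSet_Icc] with y hy
    exact indicator_of_mem (show x - y ∈ Icc (x - R) (x + R) from ⟨by linarith [hy.2], by linarith [hy.1]⟩) _
  have h2 : ∀ y, Integrable (fun x => U (x - y)) (mW R) := by
    intro y
    have e1 := (hI (-R - y) (R - y)).comp_sub_right y
    have e2 := e1.mono_measure (Measure.restrict_le_self (s := Icc (-R) R))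
    refine e2.congr ?_
    filter_upwards [ae_restrict_mem measurableSet_Icc] with x hx
    exact indicator_of_mem (show x - y ∈ Icc (-R - y) (R - y) from ⟨by linarith [hx.1], by linarith [hx.2]⟩) _
  refine ⟨h1, h2, ?_⟩
  -- joint integrability: `U` restricted to `[-2R,2R]`
  have e1 : Integrable (indicator (Icc (-(2 * R)) (2 * R)) U) := by
    rw [integrable_indicator_iff measurableSet_Icc]
    exact hU.integrableOn_isCompact isCompact_Icc
  have e2 : Integrable (indicator (Icc (-R) R) (fun _ : ℝ => (1:ℝ))) := by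
    rw [integrable_indicator_iff measurableSet_Icc]
    exact integrableOn_const (by simp)
  have e3 := (Integrable.convolution_integrand (ContinuousLinearMap.mul ℝ ℝ) e2 e1)
  have e4 : Integrable (fun z : ℝ × ℝ => indicator (Icc (-R) R) (fun _ : ℝ => (1:ℝ)) z.2 *
      indicator (Icc (-(2 * R)) (2 * R)) U (z.1 - z.2)) (volume.prod volume) := e3
  have e5 := e4.mono_measure (Measure.restrict_le_self (s := (Icc (-R) R) ×ˢ (Icc (-R) R)))
  rw [← Measure.prod_restrict] at e5
  unfold mW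
  refine e5.congr ?_
  rw [Measure.prod_restrict]
  filter_upwards [ae_restrict_mem (measurableSet_Icc.prod measurableSet_Icc)] with z hz
  obtain ⟨⟨a1, a2⟩, a3, a4⟩ := hz
  rw [indicator_of_mem (show z.2 ∈ Icc (-R) R from ⟨a3, a4⟩), indicator_of_mem, one_mul]
  exact ⟨by linarith, by linarith⟩

/-- change of variables on the window -/
theorem cov_of {ψ ψ' ρ b : ℝ → ℝ} (h : Dif ψ ψ') (hR : ∀ x, |ψ x| ≤ R ↔ |x| ≤ R)
    (hm : ∀ x, |x| ≤ R → ρ (ψ x) * ψ' x = ρ x + b x) (f : ℝ → ℝ) :
    ∫ y, f (ψ y) * (ρ y + b y) ∂(mW R) = ∫ y, f y * ρ y ∂(mW R) := by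
  have himg : ψ '' (Icc (-R) R) = Icc (-R) R := by
    ext y
    simp only [mem_image]
    constructor
    · rintro ⟨x, hx, rfl⟩
      exact abs_le.1 ((hR x).2 (abs_le.2 hx))
    · intro hy
      obtain ⟨x, rfl⟩ := h.surj y
      exact ⟨x, abs_le.1 ((hR x).1 (abs_le.2 hy)), rfl⟩
  have h1 := integral_image_eq_integral_abs_deriv_smul (f := ψ) (f' := ψ') (s := Icc (-R) R)
    measurableSet_Icc (fun x _ => (h.der x).hasDerivWithinAt) h.inj.injOn (fun y => f y * ρ y)
  rw [himg] at h1
  unfold mW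
  rw [h1]
  refine setIntegral_congr_fun measurableSet_Icc fun x hx => ?_
  simp only [smul_eq_mul]
  rw [← hm x (abs_le.2 hx), abs_of_pos (h.pos x)]
  ring

/-- integrals of kernels of the class `KC` against a density -/
theorem kc_int (hR : 0 ≤ R) {κ : ℝ → ℝ → ℝ} (hκ : Continuous fun p : ℝ × ℝ => κ p.1 p.2) {Λ : ℝ}
    (hK : KC R Λ (fun t t' => (κ t t' : ℂ))) {u : ℝ → ℝ} (hu : Continuous u) :
    KC R (Λ * ∫ y, |u y| ∂(mW R)) (fun x _ => ((∫ y, κ x y * u y ∂(mW R) : ℝ) : ℂ)) := by
  intro ε hε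
  have hL := hK.nonneg
  set N : ℝ := ∫ y, |u y| ∂(mW R) with hN
  have hN0 : 0 ≤ N := integral_nonneg fun y => abs_nonneg _
  obtain ⟨ι, hι, c, a, b, h1, h2⟩ := hK (ε / (N + 1)) (by positivity)
  have iu : Integrable (fun y => |u y|) (mW R) := int_mW (continuous_abs.comp hu)
  have iuc : ∀ i, Integrable (fun y : ℝ => Complex.exp (((b i * y : ℝ) : ℂ) * Complex.I) * (u y : ℂ)) (mW R) := by
    intro i
    have : Continuous fun y : ℝ => Complex.exp (((b i * y : ℝ) : ℂ) * Complex.I) * (u y : ℂ) := by fun_prop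
    exact this.continuousOn.integrableOn_compact isCompact_Icc
  refine ⟨ι, hι, fun i => c i * ∫ y, Complex.exp (((b i * y : ℝ) : ℂ) * Complex.I) * (u y : ℂ) ∂(mW R),
    a, fun _ => 0, ?_, ?_⟩
  · have h3 : ∀ i, ‖∫ y, Complex.exp (((b i * y : ℝ) : ℂ) * Complex.I) * (u y : ℂ) ∂(mW R)‖ ≤ N := by
      intro i
      refine (norm_integral_le_integral_norm _).trans (le_of_eq ?_)
      refine integral_congr_ae (Eventually.of_forall fun y => ?_)
      simp only
      rw [norm_mul, norm_e, one_mul, Complex.norm_real, Real.norm_eq_abs]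
    calc ∑ i, ‖c i * ∫ y, Complex.exp (((b i * y : ℝ) : ℂ) * Complex.I) * (u y : ℂ) ∂(mW R)‖ *
        (1 + |a i| + |(0:ℝ)|) ≤ ∑ i, (‖c i‖ * (1 + |a i| + |b i|)) * N := by
          refine Finset.sum_le_sum fun i _ => ?_
          rw [norm_mul, abs_zero, add_zero]
          have q1 := abs_nonneg (a i)
          have q2 := abs_nonneg (b i)
          calc ‖c i‖ * ‖∫ y, Complex.exp (((b i * y : ℝ) : ℂ) * Complex.I) * (u y : ℂ) ∂(mW R)‖ * (1 + |a i|) ≤
              ‖c i‖ * N * (1 + |a i| + |b i|) := by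
                have := h3 i
                exact mul_le_mul (mul_le_mul_of_nonneg_left this (norm_nonneg _)) (by linarith)
                  (by positivity) (by positivity)
            _ = _ := by ring
      _ = (∑ i, ‖c i‖ * (1 + |a i| + |b i|)) * N := by rw [Finset.sum_mul]
      _ ≤ Λ * N := mul_le_mul_of_nonneg_right h1 hN0
  · intro t t' ht ht'
    have e1 : ∀ i, c i * (∫ y, Complex.exp (((b i * y : ℝ) : ℂ) * Complex.I) * (u y : ℂ) ∂(mW R)) *
        Complex.exp (((a i * t + 0 * t' : ℝ) : ℂ) * Complex.I) =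
        ∫ y, c i * Complex.exp (((a i * t + b i * y : ℝ) : ℂ) * Complex.I) * (u y : ℂ) ∂(mW R) := by
      intro i
      rw [← integral_const_mul, ← integral_mul_const]
      refine integral_congr_ae (Eventually.of_forall fun y => ?_)
      simp only
      have e2 : Complex.exp (((a i * t + b i * y : ℝ) : ℂ) * Complex.I) =
          Complex.exp (((a i * t + 0 * t' : ℝ) : ℂ) * Complex.I) * Complex.exp (((b i * y : ℝ) : ℂ) * Complex.I) := by
        rw [← Complex.exp_add]
        congr 1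
        push_cast
        ring
      rw [e2]
      ring
    have i1 : ∀ i, Integrable (fun y : ℝ => c i * Complex.exp (((a i * t + b i * y : ℝ) : ℂ) * Complex.I) *
        (u y : ℂ)) (mW R) := by
      intro i
      have : Continuous fun y : ℝ => c i * Complex.exp (((a i * t + b i * y : ℝ) : ℂ) * Complex.I) *
        (u y : ℂ) := by fun_prop
      exact this.continuousOn.integrableOn_compact isCompact_Icc
    have i2 : Integrable (fun y : ℝ => ((κ t y * u y : ℝ) : ℂ)) (mW R) := by
      have : Continuous fun y : ℝ => ((κ t y * u y : ℝ) : ℂ) := by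
        have := hκ.comp (by fun_prop : Continuous fun y : ℝ => (t, y))
        simp only [Function.comp_def] at this
        fun_prop
      exact this.continuousOn.integrableOn_compact isCompact_Icc
    simp_rw [e1]
    rw [← integral_finsetSum _ fun i _ => i1 i, ← integral_complex_ofReal,
      ← integral_sub i2 (integrable_finsetSum _ fun i _ => i1 i)]
    refine (norm_integral_le_integral_norm _).trans ?_
    have h4 : ∫ y, ‖((κ t y * u y : ℝ) : ℂ) - ∑ i, c i * Complex.exp (((a i * t + b i * y : ℝ) : ℂ) * Complex.I) *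
        (u y : ℂ)‖ ∂(mW R) ≤ ∫ y, ε / (N + 1) * |u y| ∂(mW R) := by
      refine integral_mono_ae ((i2.sub (integrable_finsetSum _ fun i _ => i1 i)).norm) (iu.const_mul _) ?_
      filter_upwards [mem_mW] with y hy
      have e3 : ((κ t y * u y : ℝ) : ℂ) - ∑ i, c i * Complex.exp (((a i * t + b i * y : ℝ) : ℂ) * Complex.I) *
        (u y : ℂ) = ((κ t y : ℂ) - ∑ i, c i * Complex.exp (((a i * t + b i * y : ℝ) : ℂ) * Complex.I)) * (u y : ℂ) := by
        rw [sub_mul, Finset.sum_mul]
        push_cast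
        ring
      rw [e3, norm_mul, Complex.norm_real, Real.norm_eq_abs]
      exact mul_le_mul_of_nonneg_right (h2 t y ht hy) (abs_nonneg _)
    refine h4.trans ?_
    rw [integral_const_mul, ← hN]
    rw [div_mul_eq_mul_div, div_le_iff₀ (by positivity)]
    nlinarith

section integrable

variable {p n : ℕ}

lemma isCompact_Bx : IsCompact (Bx (p := p) (n := n) R) := by
  have h1 : Bx (p := p) (n := n) R =
      (Set.pi univ fun _ => Icc (-R) R) ×ˢ (Set.pi univ fun _ => Icc (-R) R) := by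
    ext x
    simp only [Bx, abs_le, Set.mem_prod, mem_setOf_eq, Set.mem_pi, mem_univ, forall_true_left, mem_Icc]
  rw [h1]
  exact (isCompact_univ_pi fun _ => isCompact_Icc).prod (isCompact_univ_pi fun _ => isCompact_Icc)

lemma mem_mu (pX pY pc : ℝ → ℝ → ℝ) (aX aY : ℝ → ℝ) :
    ∀ᵐ x ∂(mu (p := p) (n := n) R pX pY pc aX aY), x ∈ Bx (p := p) (n := n) R := by
  unfold mu
  exact (withDensity_absolutelyContinuous _ _).ae_le (ae_restrict_mem (measurableSet_Bx R))

lemma int_mu {pX pY pc : ℝ → ℝ → ℝ} {aX aY : ℝ → ℝ}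
    [IsFiniteMeasure (mu (p := p) (n := n) R pX pY pc aX aY)] {f : Cfg p n → ℝ} (hf : Continuous f) :
    Integrable f (mu R pX pY pc aX aY) := by
  obtain ⟨C, hC⟩ := isCompact_Bx.exists_bound_of_continuousOn (f := f) (hf.continuousOn (s := Bx (p := p) (n := n) R))
  refine Integrable.of_bound hf.aestronglyMeasurable C ?_
  filter_upwards [mem_mu pX pY pc aX aY] with x hx
  exact hC x hx

lemma nu_contX {ρ f : ℝ → ℝ} (hf : Continuous f) : Continuous fun x : Cfg p n => nu R ρ x.1 f := by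
  unfold nu
  fun_prop

lemma nu_contY {ρ f : ℝ → ℝ} (hf : Continuous f) : Continuous fun x : Cfg p n => nu R ρ x.2 f := by
  unfold nu
  fun_prop

lemma nu2_contXX {ρ : ℝ → ℝ} (hρ : Continuous ρ) {κ : ℝ → ℝ → ℝ}
    (hκ : Continuous fun p : ℝ × ℝ => κ p.1 p.2) : Continuous fun x : Cfg p n => nu2 R ρ ρ x.1 x.1 κ := by
  have h1 : ∀ x : Cfg p n, nu2 R ρ ρ x.1 x.1 κ = ∑ i, ∑ j, κ (x.1 i) (x.1 j) -
      nu R ρ x.1 (fun x => ∫ y in (-R)..R, κ x y * ρ y) -
      nu R ρ x.1 (fun y => ∫ x in (-R)..R, κ x y * ρ x) -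
      ∫ y in (-R)..R, (∫ x in (-R)..R, κ x y * ρ x) * ρ y := by
    intro x
    rw [sum_two (R := R) x.1 x.1 hρ hρ hκ]
    ring
  simp_rw [h1]
  refine Continuous.sub (Continuous.sub (Continuous.sub ?_ (nu_contX (cont_conv hκ hρ)))
    (nu_contX (cont_conv' hκ hρ))) continuous_const
  refine continuous_finsetSum _ fun i _ => continuous_finsetSum _ fun j _ => ?_
  exact hκ.comp (by fun_prop : Continuous fun x : Cfg p n => (x.1 i, x.1 j))

lemma nu2_contYY {ρ : ℝ → ℝ} (hρ : Continuous ρ) {κ : ℝ → ℝ → ℝ}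
    (hκ : Continuous fun p : ℝ × ℝ => κ p.1 p.2) : Continuous fun x : Cfg p n => nu2 R ρ ρ x.2 x.2 κ := by
  have h1 : ∀ x : Cfg p n, nu2 R ρ ρ x.2 x.2 κ = ∑ i, ∑ j, κ (x.2 i) (x.2 j) -
      nu R ρ x.2 (fun x => ∫ y in (-R)..R, κ x y * ρ y) -
      nu R ρ x.2 (fun y => ∫ x in (-R)..R, κ x y * ρ x) -
      ∫ y in (-R)..R, (∫ x in (-R)..R, κ x y * ρ x) * ρ y := by
    intro x
    rw [sum_two (R := R) x.2 x.2 hρ hρ hκ]
    ring
  simp_rw [h1]
  refine Continuous.sub (Continuous.sub (Continuous.sub ?_ (nu_contY (cont_conv hκ hρ)))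
    (nu_contY (cont_conv' hκ hρ))) continuous_const
  refine continuous_finsetSum _ fun i _ => continuous_finsetSum _ fun j _ => ?_
  exact hκ.comp (by fun_prop : Continuous fun x : Cfg p n => (x.2 i, x.2 j))

lemma nu2_contXY {ρ : ℝ → ℝ} (hρ : Continuous ρ) {κ : ℝ → ℝ → ℝ}
    (hκ : Continuous fun p : ℝ × ℝ => κ p.1 p.2) : Continuous fun x : Cfg p n => nu2 R ρ ρ x.1 x.2 κ := by
  have h1 : ∀ x : Cfg p n, nu2 R ρ ρ x.1 x.2 κ = ∑ i, ∑ j, κ (x.1 i) (x.2 j) -
      nu R ρ x.1 (fun x => ∫ y in (-R)..R, κ x y * ρ y) -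
      nu R ρ x.2 (fun y => ∫ x in (-R)..R, κ x y * ρ x) -
      ∫ y in (-R)..R, (∫ x in (-R)..R, κ x y * ρ x) * ρ y := by
    intro x
    rw [sum_two (R := R) x.1 x.2 hρ hρ hκ]
    ring
  simp_rw [h1]
  refine Continuous.sub (Continuous.sub (Continuous.sub ?_ (nu_contX (cont_conv hκ hρ)))
    (nu_contY (cont_conv' hκ hρ))) continuous_const
  refine continuous_finsetSum _ fun i _ => continuous_finsetSum _ fun j _ => ?_
  exact hκ.comp (by fun_prop : Continuous fun x : Cfg p n => (x.1 i, x.2 j))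

end integrable

end NUR2
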