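import Pool.Agent.NUR2.Core
import Pool.Agent.NUR2.Action

/-!
# The exponent of the transported gas in the centred statistics

`Σ_i f(s_i) = ν(f) + ∫ f ρ`, `Σ_i Σ_j κ(s_i,t_j) = <ν,κ ν'> + ν(κ ρ') + ν'(ρ κ) + <ρ,κ ρ'>`.
-/

set_option autoImplicit false

open MeasureTheory Set Filter Topology NUKer

namespace NUR2

variable {R : ℝ} {ρ ρ' : ℝ → ℝ}

/-- Lebesgue measure of the window -/
noncomputable def mW (R : ℝ) : Measure ℝ := volume.restrict (Icc (-R) R)

lemma ii_eq (hR : 0 ≤ R) (f : ℝ → ℝ) : ∫ t in (-R)..R, f t = ∫ t, f t ∂(mW R) := by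
  rw [intervalIntegral.integral_of_le (by linarith), mW, integral_Icc_eq_integral_Ioc]

lemma cont_conv {κ : ℝ → ℝ → ℝ} (hκ : Continuous fun p : ℝ × ℝ => κ p.1 p.2) (hρ : Continuous ρ) :
    Continuous fun x => ∫ y in (-R)..R, κ x y * ρ y := by
  apply intervalIntegral.continuous_parametric_intervalIntegral_of_continuous'
  exact hκ.mul (hρ.comp continuous_snd)

lemma cont_conv' {κ : ℝ → ℝ → ℝ} (hκ : Continuous fun p : ℝ × ℝ => κ p.1 p.2) (hρ : Continuous ρ) :
    Continuous fun y => ∫ x in (-R)..R, κ x y * ρ x := by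
  apply intervalIntegral.continuous_parametric_intervalIntegral_of_continuous'
  have h1 : Continuous fun p : ℝ × ℝ => κ p.2 p.1 := hκ.comp continuous_swap
  exact h1.mul (hρ.comp continuous_snd)

theorem sum_two {ι ι' : Type*} [Fintype ι] [Fintype ι'] (s : ι → ℝ) (t : ι' → ℝ) (hρ : Continuous ρ)
    (hρ' : Continuous ρ') {κ : ℝ → ℝ → ℝ} (hκ : Continuous fun p : ℝ × ℝ => κ p.1 p.2) :
    ∑ i, ∑ j, κ (s i) (t j) = nu2 R ρ ρ' s t κ + nu R ρ s (fun x => ∫ y in (-R)..R, κ x y * ρ' y) +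
      nu R ρ' t (fun y => ∫ x in (-R)..R, κ x y * ρ x) +
      ∫ y in (-R)..R, (∫ x in (-R)..R, κ x y * ρ x) * ρ' y := by
  have c1 := cont_conv (R := R) hκ hρ'
  have e1 : ∫ x in (-R)..R, (∑ j, κ x (t j) - ∫ y in (-R)..R, κ x y * ρ' y) * ρ x =
      (∑ j, ∫ x in (-R)..R, κ x (t j) * ρ x) - ∫ x in (-R)..R, (∫ y in (-R)..R, κ x y * ρ' y) * ρ x := by
    have h1 : ∀ x, (∑ j, κ x (t j) - ∫ y in (-R)..R, κ x y * ρ' y) * ρ x =
        (∑ j, κ x (t j) * ρ x) - (∫ y in (-R)..R, κ x y * ρ' y) * ρ x := by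
      intro x
      rw [sub_mul, Finset.sum_mul]
    simp only [h1]
    have h2 : ∀ j, Continuous fun x => κ x (t j) * ρ x := fun j =>
      (hκ.comp (by fun_prop : Continuous fun x => (x, t j))).mul hρ
    have h3 := intervalIntegral.integral_sub (a := -R) (b := R) (μ := volume)
      ((continuous_finsetSum (Finset.univ : Finset ι') fun j _ => h2 j).intervalIntegrable _ _)
      ((c1.mul hρ).intervalIntegrable _ _)
    simp only [Pi.mul_apply] at h3
    rw [h3, intervalIntegral.integral_finsetSum]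
    intro j _
    exact (h2 j).intervalIntegrable _ _
  unfold nu2 nu
  simp only
  rw [e1, Finset.sum_sub_distrib]
  ring

/-- linear terms of `Th` -/
noncomputable def LX (R : ℝ) (ρ v : ℝ → ℝ) (κ κc : ℝ → ℝ → ℝ) (x : ℝ) : ℝ :=
  v x + (∫ y in (-R)..R, κ x y * ρ y) + ∫ y in (-R)..R, κc x y * ρ y

theorem Th_split {p n : ℕ} {vX vY : ℝ → ℝ} {κX κY κc : ℝ → ℝ → ℝ}
    (hρ : Continuous ρ) (k5 : Continuous vX) (k6 : Continuous vY)
    (cX : Continuous fun p : ℝ × ℝ => κX p.1 p.2) (cY : Continuous fun p : ℝ × ℝ => κY p.1 p.2)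
    (cc : Continuous fun p : ℝ × ℝ => κc p.1 p.2) (sX : ∀ x y, κX x y = κX y x)
    (sY : ∀ x y, κY x y = κY y x) (x : Cfg p n) :
    Th vX vY κX κY κc x =
      nu R ρ x.1 (LX R ρ vX κX κc) + nu R ρ x.2 (LX R ρ vY κY (fun y x => κc x y)) +
      1 / 2 * nu2 R ρ ρ x.1 x.1 κX + 1 / 2 * nu2 R ρ ρ x.2 x.2 κY + nu2 R ρ ρ x.1 x.2 κc +
      ((∫ y in (-R)..R, LX R ρ vX κX κc y * ρ y) +
        (∫ y in (-R)..R, LX R ρ vY κY (fun y x => κc x y) y * ρ y) -
        1 / 2 * (∫ y in (-R)..R, (∫ x in (-R)..R, κX x y * ρ x) * ρ y) -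
        1 / 2 * (∫ y in (-R)..R, (∫ x in (-R)..R, κY x y * ρ x) * ρ y) -
        ∫ x in (-R)..R, (∫ y in (-R)..R, κc x y * ρ y) * ρ x) := by
  have k1 := cont_conv (R := R) cX hρ
  have k2 := cont_conv (R := R) cY hρ
  have k3 := cont_conv (R := R) cc hρ
  have k4 := cont_conv' (R := R) cc hρ
  have f1 : ∀ y : ℝ, (∫ x in (-R)..R, κX x y * ρ x) = ∫ z in (-R)..R, κX y z * ρ z := by
    intro y
    refine intervalIntegral.integral_congr fun z _ => ?_
    show κX z y * ρ z = κX y z * ρ z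
    rw [sX]
  have f2 : ∀ y : ℝ, (∫ x in (-R)..R, κY x y * ρ x) = ∫ z in (-R)..R, κY y z * ρ z := by
    intro y
    refine intervalIntegral.integral_congr fun z _ => ?_
    show κY z y * ρ z = κY y z * ρ z
    rw [sY]
  have a1 := sum_two (R := R) x.1 x.1 hρ hρ cX
  have a2 := sum_two (R := R) x.2 x.2 hρ hρ cY
  have a3 := sum_two (R := R) x.1 x.2 hρ hρ cc
  simp only [f1] at a1
  simp only [f2] at a2
  have g1 : nu R ρ x.1 (LX R ρ vX κX κc) = nu R ρ x.1 vX +
      nu R ρ x.1 (fun x => ∫ y in (-R)..R, κX x y * ρ y) +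
      nu R ρ x.1 (fun x => ∫ y in (-R)..R, κc x y * ρ y) := by
    have k51 : Continuous fun x => vX x + ∫ y in (-R)..R, κX x y * ρ y := k5.add k1
    rw [← nu_add hρ k5 k1, ← nu_add hρ k51 k3]
    rfl
  have g2 : nu R ρ x.2 (LX R ρ vY κY (fun y x => κc x y)) = nu R ρ x.2 vY +
      nu R ρ x.2 (fun x => ∫ y in (-R)..R, κY x y * ρ y) +
      nu R ρ x.2 (fun y => ∫ x in (-R)..R, κc x y * ρ x) := by
    have k62 : Continuous fun x => vY x + ∫ y in (-R)..R, κY x y * ρ y := k6.add k2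
    rw [← nu_add hρ k6 k2, ← nu_add hρ k62 k4]
    rfl
  have g3 : ∫ y in (-R)..R, LX R ρ vX κX κc y * ρ y = (∫ y in (-R)..R, vX y * ρ y) +
      (∫ x in (-R)..R, (∫ y in (-R)..R, κX x y * ρ y) * ρ x) +
      ∫ x in (-R)..R, (∫ y in (-R)..R, κc x y * ρ y) * ρ x := by
    have h1 := intervalIntegral.integral_add (a := -R) (b := R) (μ := volume)
      ((k5.mul hρ).intervalIntegrable _ _) ((k1.mul hρ).intervalIntegrable _ _)
    have h2 := intervalIntegral.integral_add (a := -R) (b := R) (μ := volume)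
      (((k5.mul hρ).add (k1.mul hρ)).intervalIntegrable _ _) ((k3.mul hρ).intervalIntegrable _ _)
    simp only [Pi.mul_apply, Pi.add_apply] at h1 h2
    rw [← h1, ← h2]
    refine intervalIntegral.integral_congr fun z _ => ?_
    simp only [LX]
    ring
  have g4 : ∫ y in (-R)..R, LX R ρ vY κY (fun y x => κc x y) y * ρ y =
      (∫ y in (-R)..R, vY y * ρ y) +
      (∫ x in (-R)..R, (∫ y in (-R)..R, κY x y * ρ y) * ρ x) +
      ∫ y in (-R)..R, (∫ x in (-R)..R, κc x y * ρ x) * ρ y := by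
    have h1 := intervalIntegral.integral_add (a := -R) (b := R) (μ := volume)
      ((k6.mul hρ).intervalIntegrable _ _) ((k2.mul hρ).intervalIntegrable _ _)
    have h2 := intervalIntegral.integral_add (a := -R) (b := R) (μ := volume)
      (((k6.mul hρ).add (k2.mul hρ)).intervalIntegrable _ _) ((k4.mul hρ).intervalIntegrable _ _)
    simp only [Pi.mul_apply, Pi.add_apply] at h1 h2
    rw [← h1, ← h2]
    refine intervalIntegral.integral_congr fun z _ => ?_
    simp only [LX]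
    ring
  have b1 : ∑ i, vX (x.1 i) = nu R ρ x.1 vX + ∫ y in (-R)..R, vX y * ρ y := by
    unfold nu
    ring
  have b2 : ∑ i, vY (x.2 i) = nu R ρ x.2 vY + ∫ y in (-R)..R, vY y * ρ y := by
    unfold nu
    ring
  unfold Th Th1
  rw [a1, a2, a3, b1, b2, g1, g2, g3, g4]
  simp only [f1, f2]
  ring

end NUR2
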